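import Mathlib
import Pool.Agent.Q7.TZ.Gen
import Pool.Agent.Q7.DB.RealArt
import Pool.Agent.Q7.TZ.Sca
import Pool.Agent.Y788.VRep

/-!
# Frobenius-Schur inequalities for Heilbronn characters
-/

set_option autoImplicit false
set_option linter.unusedSectionVars false

namespace Pool.Agent.Q290.Schur

open Pool.Agent.H302R2 Pool.Agent.H541R3.ART Pool.Agent.W446.AS Pool.Agent.H302R5 Pool.Agent.H302R6
  Pool.Agent.Q7.TZ ComplexConjugate

section

variable {G : Type} [Group G] [Finite G]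

/-- eigenvalues -/
lemma eigs {θ : G → ℂ} (hθ : IsHeilbronn θ) {r : ℕ} (h1 : θ 1 = r) (g : G) :
    ∃ a : Fin r → ℂ, (∀ i, ‖a i‖ = 1) ∧ ∀ k : ℕ, θ (g ^ k) = ∑ i, a i ^ k := by
  classical
  obtain ⟨s, hs⟩ := (hθ.comp (Subgroup.zpowers g).subtype).comm_multiset (zpowers_comm g)
  have h2 := hs 1
  simp only [map_one, Units.val_one, Multiset.map_const', Multiset.sum_replicate, nsmul_eq_mul,
    mul_one] at h2
  rw [h1] at h2
  have h3 : Multiset.card s = r := by exact_mod_cast h2.symm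
  obtain ⟨l, rfl⟩ := Quot.exists_rep s
  have h4 : l.length = r := h3
  subst h4
  refine ⟨fun i => ((l.get i ⟨g, Subgroup.mem_zpowers g⟩ : ℂˣ) : ℂ), fun i => ?_, fun k => ?_⟩
  · have h6 : ((l.get i ⟨g, Subgroup.mem_zpowers g⟩ : ℂˣ) : ℂ) ^ (Nat.card (Subgroup.zpowers g))
        = 1 := by
      rw [← Units.val_pow_eq_pow_val, ← map_pow, pow_card_eq_one', map_one, Units.val_one]
    exact Complex.norm_eq_one_of_pow_eq_one h6 Nat.card_pos.ne'
  · have h5 := hs (⟨g, Subgroup.mem_zpowers g⟩ ^ k)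
    have h7 : (Subgroup.zpowers g).subtype (⟨g, Subgroup.mem_zpowers g⟩ ^ k) = g ^ k := by
      rw [map_pow]; rfl
    rw [h7] at h5
    rw [h5]
    have h8 : (Multiset.map (fun ψ : Subgroup.zpowers g →* ℂˣ =>
        (((ψ (⟨g, Subgroup.mem_zpowers g⟩ ^ k) : ℂˣ)) : ℂ)) (Quot.mk _ l)).sum
        = ∑ i : Fin l.length, (((l.get i) (⟨g, Subgroup.mem_zpowers g⟩ ^ k) : ℂˣ) : ℂ) := by
      change (Multiset.map _ (↑l : Multiset (Subgroup.zpowers g →* ℂˣ))).sum = _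
      rw [Multiset.map_coe, Multiset.sum_coe, ← List.sum_ofFn]
      congr 1
      conv_lhs => rw [← List.ofFn_get l]
      rw [List.map_ofFn]
      rfl
    rw [h8]
    refine Finset.sum_congr rfl fun i _ => ?_
    rw [map_pow, Units.val_pow_eq_pow_val]

/-- the inequality at one element -/
lemma point {r : ℕ} (a : Fin r → ℂ) (ha : ∀ i, ‖a i‖ = 1) (d : ℂ) (hd : ‖d‖ = 1) :
    ‖∑ i, a i‖ ^ 2 + (d * (∑ i, a i) ^ 2).re ≤ r * (r + (d * ∑ i, a i ^ 2).re) := by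
  obtain ⟨c, hc⟩ := IsAlgClosed.exists_pow_nat_eq d (n := 2) (by norm_num)
  have hc1 : ‖c‖ = 1 := by
    have h1 : ‖c‖ ^ 2 = 1 := by rw [← norm_pow, hc, hd]
    nlinarith [norm_nonneg c, sq_nonneg (‖c‖ - 1)]
  have hsq : ∀ z : ℂ, 2 * z.re ^ 2 = ‖z‖ ^ 2 + (z ^ 2).re := by
    intro z
    rw [← Complex.normSq_eq_norm_sq, Complex.normSq_apply, sq z, Complex.mul_re]
    ring
  have h2 := hsq (c * ∑ i, a i)
  rw [norm_mul, hc1, one_mul, mul_pow, hc] at h2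
  have h3 : ∀ i, 2 * (c * a i).re ^ 2 = 1 + (d * a i ^ 2).re := by
    intro i
    rw [hsq, norm_mul, hc1, ha, mul_pow c, hc]
    norm_num
  have h4 : (c * ∑ i, a i).re = ∑ i, (c * a i).re := by
    rw [Finset.mul_sum, Complex.re_sum]
  have h5 := sq_sum_le_card_mul_sum_sq (s := (Finset.univ : Finset (Fin r)))
    (f := fun i => (c * a i).re)
  rw [Finset.card_univ, Fintype.card_fin] at h5
  rw [← h2, h4]
  have h6 : ∑ i, (c * a i).re ^ 2 = (r + (d * ∑ i, a i ^ 2).re) / 2 := by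
    have h7 : ∀ i, (c * a i).re ^ 2 = (1 + (d * a i ^ 2).re) / 2 := by
      intro i; rw [← h3]; ring
    rw [Finset.sum_congr rfl (fun i _ => h7 i), ← Finset.sum_div, Finset.sum_add_distrib,
      Finset.sum_const, Finset.card_univ, Fintype.card_fin, nsmul_eq_mul, mul_one,
      ← Complex.re_sum, Finset.mul_sum]
  rw [h6] at h5
  linarith

lemma dual_irr (D : G →* ℂˣ) {χ : G → ℂ} (hχ : χ ∈ Irr G) : dual D χ ∈ Irr G := by
  have h1 := irr_mul (Pool.Agent.Q7.DB.irr_inv hχ) D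
  have h2 : (fun g => χ g⁻¹ * ((D g : ℂˣ) : ℂ)) = dual D χ := by
    funext g
    unfold dual
    ring
  rw [← h2]
  exact h1

lemma dual_dual (D : G →* ℂˣ) (χ : G → ℂ) : dual D (dual D χ) = χ := by
  funext g
  unfold dual
  rw [inv_inv, map_inv, ← mul_assoc, ← Units.val_mul, mul_inv_cancel, Units.val_one, one_mul]

/-- existence of the twisted Frobenius-Schur indicators -/
lemma nu_twisted (D : G →* ℂˣ) {χ : G → ℂ} (hχ : χ ∈ Irr G) :
    ∃ ν : ℤ, (∑ᶠ g, χ (g ^ 2) * (((D g)⁻¹ : ℂˣ) : ℂ) = ν * Nat.card G) ∧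
      (ν = 1 ∨ ν = 0 ∨ ν = -1) ∧ (ν = 0 ↔ dual D χ ≠ χ) := by
  classical
  have : Fintype G := Fintype.ofFinite _
  have : Fintype (Gt D) := Fintype.ofFinite _
  have h4 : (Nat.card (pi1 D).ker : ℂ) ≠ 0 := card_ne
  obtain ⟨ν, h1, h2⟩ := nu_exists (lft_irr D hχ)
  rw [finsum_eq_sum_of_fintype] at h1
  have h3 : ∑ x : Gt D, lft D χ (x ^ 2)
      = (Nat.card (pi1 D).ker : ℂ) * ∑ g : G, χ (g ^ 2) * (((D g)⁻¹ : ℂˣ) : ℂ) := by
    rw [← sum_pi1 D (fun g => χ (g ^ 2) * (((D g)⁻¹ : ℂˣ) : ℂ))]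
    refine Finset.sum_congr rfl fun x _ => ?_
    unfold lft
    rw [map_pow, map_pow, ← rt_sq D x]
  have h5 : (Nat.card (Gt D) : ℂ) = (Nat.card (pi1 D).ker : ℂ) * Nat.card G := by
    rw [card_eq_ker_mul (pi1_surj D)]
    push_cast
    ring
  rw [h3, h5] at h1
  have hsd : (∀ g, lft D χ g⁻¹ = lft D χ g) ↔ dual D χ = χ := by
    constructor
    · intro h
      apply lft_inj D
      rw [← lft_dual]
      exact funext h
    · intro h x
      have := congrFun (lft_dual D χ) x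
      rw [h] at this
      exact this
  refine ⟨ν, ?_, ?_, ?_⟩
  · rw [finsum_eq_sum_of_fintype]
    apply mul_left_cancel₀ h4
    rw [h1]
    ring
  · rcases h2 with ⟨h, -⟩ | ⟨h, -⟩ | ⟨h, -⟩ <;> simp [h]
  · rcases h2 with ⟨h, -, h6⟩ | ⟨h, h6⟩ | ⟨h, h6⟩
    · simp [h, hsd.mp h6]
    · simp [h, hsd.mp h6]
    · simp only [h, true_iff]
      intro h7
      obtain ⟨g, hg⟩ := h6
      exact hg (hsd.mpr h7 g)

/-- the inner products -/
lemma avg_sq (n : (G → ℂ) → ℤ) (hθ : IsHeilbronn (theta n : G → ℂ)) [Fintype G] :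
    ∑ g : G, ‖(theta n : G → ℂ) g‖ ^ 2 = (∑ χ ∈ irrF G, (n χ : ℝ) ^ 2) * Nat.card G := by
  have e1 : ∑ g : G, theta n g * theta n g⁻¹ = (∑ χ ∈ irrF G, (n χ : ℂ) ^ 2) * Nat.card G := by
    have h2 : ∀ g : G, theta n g * theta n g⁻¹ = ∑ χ ∈ irrF G, (n χ : ℂ) * (theta n g * χ g⁻¹) := by
      intro g
      conv_lhs => rw [theta.eq_1 (G := G) n g⁻¹]
      rw [Finset.mul_sum]
      refine Finset.sum_congr rfl fun χ _ => by ring
    rw [Finset.sum_congr rfl (fun g _ => h2 g), Finset.sum_comm, Finset.sum_mul]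
    refine Finset.sum_congr rfl fun χ hχ => ?_
    rw [← Finset.mul_sum, theta_pair n (mem_irrF.mp hχ)]
    ring
  have e2 : ∀ g : G, theta n g * theta n g⁻¹ = ((‖(theta n : G → ℂ) g‖ ^ 2 : ℝ) : ℂ) := by
    intro g
    rw [heilbronn_star hθ g]
    have := Complex.mul_conj (theta n g)
    rw [Complex.normSq_eq_norm_sq] at this
    exact this
  rw [Finset.sum_congr rfl (fun g _ => e2 g), ← Complex.ofReal_sum] at e1
  exact_mod_cast e1

lemma avg_dual (n : (G → ℂ) → ℤ) (D : G →* ℂˣ) [Fintype G] :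
    ∑ g : G, (((D g)⁻¹ : ℂˣ) : ℂ) * (theta n g) ^ 2
      = ((∑ χ ∈ irrF G, n χ * n (dual D χ) : ℤ) : ℂ) * Nat.card G := by
  have h2 : ∀ g : G, (((D g)⁻¹ : ℂˣ) : ℂ) * (theta n g) ^ 2
      = ∑ χ ∈ irrF G, (n χ : ℂ) * (theta n g * dual D χ g⁻¹) := by
    intro g
    rw [sq, ← mul_assoc, mul_comm]
    conv_lhs => rw [theta.eq_1 (G := G) n g, Finset.sum_mul]
    refine Finset.sum_congr rfl fun χ _ => ?_
    unfold dual
    rw [inv_inv, map_inv]
    unfold theta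
    ring
  rw [Finset.sum_congr rfl (fun g _ => h2 g), Finset.sum_comm, Int.cast_sum, Finset.sum_mul]
  refine Finset.sum_congr rfl fun χ hχ => ?_
  rw [← Finset.mul_sum, theta_pair n (dual_irr D (mem_irrF.mp hχ))]
  push_cast
  ring

lemma avg_nu (n : (G → ℂ) → ℤ) (D : G →* ℂˣ) (ν : (G → ℂ) → ℤ)
    (hν : ∀ χ ∈ Irr G, ∑ᶠ g : G, χ (g ^ 2) * (((D g)⁻¹ : ℂˣ) : ℂ) = ν χ * Nat.card G)
    [Fintype G] :
    ∑ g : G, (((D g)⁻¹ : ℂˣ) : ℂ) * theta n (g ^ 2)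
      = ((∑ χ ∈ irrF G, ν χ * n χ : ℤ) : ℂ) * Nat.card G := by
  unfold theta
  simp_rw [Finset.mul_sum]
  rw [Finset.sum_comm, Int.cast_sum, Finset.sum_mul]
  refine Finset.sum_congr rfl fun χ hχ => ?_
  have h3 := hν χ (mem_irrF.mp hχ)
  rw [finsum_eq_sum_of_fintype] at h3
  push_cast
  rw [show (ν χ : ℂ) * n χ * Nat.card G = n χ * (ν χ * Nat.card G) by ring, ← h3, Finset.mul_sum]
  refine Finset.sum_congr rfl fun g _ => ?_
  rw [Units.val_inv_eq_inv_val]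
  ring

lemma norm_D (D : G →* ℂˣ) (g : G) : ‖(((D g)⁻¹ : ℂˣ) : ℂ)‖ = 1 := by
  have h6 : (((D g)⁻¹ : ℂˣ) : ℂ) ^ (Nat.card G) = 1 := by
    rw [← Units.val_pow_eq_pow_val, inv_pow, ← map_pow, pow_card_eq_one', map_one, inv_one,
      Units.val_one]
  exact Complex.norm_eq_one_of_pow_eq_one h6 Nat.card_pos.ne'

lemma sum_dual_sq (n : (G → ℂ) → ℤ) (D : G →* ℂˣ) :
    ∑ χ ∈ irrF G, n (dual D χ) ^ 2 = ∑ χ ∈ irrF G, n χ ^ 2 := by
  refine Finset.sum_nbij' (fun χ => dual D χ) (fun χ => dual D χ) ?_ ?_ ?_ ?_ ?_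
  · intro χ hχ
    exact mem_irrF.mpr (dual_irr D (mem_irrF.mp hχ))
  · intro χ hχ
    exact mem_irrF.mpr (dual_irr D (mem_irrF.mp hχ))
  · intro χ _
    exact dual_dual D χ
  · intro χ _
    exact dual_dual D χ
  · intro χ _
    rfl

/-- **The two inequalities** -/
theorem schur_ineq (n : (G → ℂ) → ℤ) (hθ : IsHeilbronn (theta n : G → ℂ)) {r : ℕ}
    (h1 : (theta n : G → ℂ) 1 = r) (D : G →* ℂˣ) (ν : (G → ℂ) → ℤ)
    (hν : ∀ χ ∈ Irr G, ∑ᶠ g : G, χ (g ^ 2) * (((D g)⁻¹ : ℂˣ) : ℂ) = ν χ * Nat.card G) :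
    (∑ χ ∈ irrF G, (n χ + n (dual D χ)) ^ 2 ≤ 2 * r * (r + ∑ χ ∈ irrF G, ν χ * n χ)) ∧
    (∑ χ ∈ irrF G, (n χ - n (dual D χ)) ^ 2 ≤ 2 * r * (r - ∑ χ ∈ irrF G, ν χ * n χ)) := by
  classical
  have : Fintype G := Fintype.ofFinite G
  have hG : (0 : ℝ) < Nat.card G := by exact_mod_cast Nat.card_pos
  have e1 := avg_sq n hθ
  have e2 := avg_dual n D
  have e3 := avg_nu n D ν hν
  set S : ℤ := ∑ χ ∈ irrF G, n χ ^ 2 with hS
  set S' : ℤ := ∑ χ ∈ irrF G, n χ * n (dual D χ) with hS'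
  set T : ℤ := ∑ χ ∈ irrF G, ν χ * n χ with hT
  have e1' : ∑ g : G, ‖(theta n : G → ℂ) g‖ ^ 2 = (S : ℝ) * Nat.card G := by
    rw [e1, hS]; push_cast; rfl
  have e2' : ∑ g : G, ((((D g)⁻¹ : ℂˣ) : ℂ) * (theta n g) ^ 2).re = (S' : ℝ) * Nat.card G := by
    rw [← Complex.re_sum, e2]
    norm_cast
  have e3' : ∑ g : G, ((((D g)⁻¹ : ℂˣ) : ℂ) * theta n (g ^ 2)).re = (T : ℝ) * Nat.card G := by
    rw [← Complex.re_sum, e3]
    norm_cast
  have hp : ∀ (ε : ℝ), ε ^ 2 = 1 → ∀ g : G, ‖(theta n : G → ℂ) g‖ ^ 2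
      + ε * ((((D g)⁻¹ : ℂˣ) : ℂ) * (theta n g) ^ 2).re
      ≤ r * (r + ε * ((((D g)⁻¹ : ℂˣ) : ℂ) * theta n (g ^ 2)).re) := by
    intro ε hε g
    obtain ⟨a, ha, hk⟩ := eigs hθ h1 g
    have h2 := point a ha ((ε : ℂ) * (((D g)⁻¹ : ℂˣ) : ℂ)) (by
      rw [norm_mul, norm_D, mul_one, Complex.norm_real, Real.norm_eq_abs]
      nlinarith [abs_nonneg ε, sq_abs ε, sq_nonneg (|ε| - 1)])
    have h3 := hk 1
    rw [pow_one] at h3
    simp only [pow_one] at h3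
    rw [← h3, ← hk 2, mul_assoc, mul_assoc, Complex.re_ofReal_mul, Complex.re_ofReal_mul] at h2
    exact h2
  have hsum : ∀ (ε : ℝ), ε ^ 2 = 1 → (S : ℝ) + ε * S' ≤ r * (r + ε * T) := by
    intro ε hε
    have h2 := Finset.sum_le_sum fun g (_ : g ∈ (Finset.univ : Finset G)) => hp ε hε g
    rw [Finset.sum_add_distrib, ← Finset.mul_sum, ← Finset.mul_sum, Finset.sum_add_distrib,
      ← Finset.mul_sum, e1', e2', e3', Finset.sum_const, Finset.card_univ, nsmul_eq_mul,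
      ← Nat.card_eq_fintype_card] at h2
    have h3 : ((S : ℝ) + ε * S') * Nat.card G ≤ (r * (r + ε * T)) * Nat.card G := by
      nlinarith [h2]
    exact le_of_mul_le_mul_right h3 hG
  have hd := sum_dual_sq n D
  have hexp : ∀ ε : ℤ, ε ^ 2 = 1 → ∑ χ ∈ irrF G, (n χ + ε * n (dual D χ)) ^ 2
      = 2 * (S + ε * S') := by
    intro ε hε
    have h2 : ∀ χ ∈ irrF G, (n χ + ε * n (dual D χ)) ^ 2
        = n χ ^ 2 + ε * (2 * (n χ * n (dual D χ))) + n (dual D χ) ^ 2 := by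
      intro χ _
      linear_combination (n (dual D χ)) ^ 2 * hε
    rw [Finset.sum_congr rfl h2, Finset.sum_add_distrib, Finset.sum_add_distrib, hd,
      ← Finset.mul_sum, ← Finset.mul_sum]
    ring
  constructor
  · have h2 := hexp 1 (by norm_num)
    have h3 := hsum 1 (by norm_num)
    simp only [one_mul] at h2 h3
    rw [h2]
    have h4 : S + S' ≤ r * (r + T) := by exact_mod_cast h3
    linarith
  · have h2 := hexp (-1) (by norm_num)
    have h3 := hsum (-1) (by norm_num)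
    have h5 : ∑ χ ∈ irrF G, (n χ - n (dual D χ)) ^ 2
        = ∑ χ ∈ irrF G, (n χ + (-1) * n (dual D χ)) ^ 2 :=
      Finset.sum_congr rfl fun χ _ => by ring
    rw [h5, h2]
    have h4 : S + (-1) * S' ≤ r * (r + (-1) * T) := by exact_mod_cast h3
    linarith

end

end Pool.Agent.Q290.Schur
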