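import Mathlib
import Pool.Agent.Q290.Schur.Basic

/-!
# Real points
-/

set_option autoImplicit false
set_option linter.unusedSectionVars false



namespace Pool.Agent.Q290.Schur

open Pool.Agent.H302R2 Pool.Agent.H541R3.ART Pool.Agent.W446.AS Pool.Agent.H302R5 Pool.Agent.H302R6
  Pool.Agent.Q7.TZ ComplexConjugate

section

variable {G : Type} [Group G] [Finite G]

/-- A Heilbronn function with values of maximal absolute value is a multiple of a linear
character. -/
theorem scalar_of_norm (n : (G → ℂ) → ℤ) (hθ : IsHeilbronn (theta n : G → ℂ)) {r : ℕ}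
    (hr : r ≠ 0) (h1 : (theta n : G → ℂ) 1 = r) (hn : ∀ g, ‖(theta n : G → ℂ) g‖ = r) :
    ∃ μ : G →* ℂˣ, ∀ g, theta n g = r * ((μ g : ℂˣ) : ℂ) := by
  classical
  have hr' : (r : ℂ) ≠ 0 := by exact_mod_cast hr
  have hne : ∀ g, (theta n : G → ℂ) g / r ≠ 0 := by
    intro g
    apply div_ne_zero _ hr'
    rw [← norm_ne_zero_iff, hn]
    exact_mod_cast hr
  let f : G → ℂˣ := fun g => Units.mk0 (theta n g / r) (hne g)
  have hf : ∀ g h, f (g * h) = f g * f h := by
    apply mul_of_pgroups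
    · intro g h
      apply Units.ext
      change (theta n : G → ℂ) _ / r = theta n g / r
      rw [hθ.conj g h]
    · intro g k
      obtain ⟨a, ha, hk⟩ := eigs hθ h1 g
      have h2 : ∀ i, a i = theta n g / r := by
        have h3 := hk 1
        simp only [pow_one] at h3
        set c : ℂ := theta n g / r with hc
        have hc1 : ‖c‖ = 1 := by
          rw [hc, norm_div, hn, Complex.norm_natCast]
          exact div_self (by exact_mod_cast hr)
        have h4 : ∑ i, (1 - (conj c * a i).re) = 0 := by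
          rw [Finset.sum_sub_distrib, Finset.sum_const, Finset.card_univ, Fintype.card_fin,
            nsmul_eq_mul, mul_one, ← Complex.re_sum, ← Finset.mul_sum, ← h3]
          have h5 : (theta n g : ℂ) = c * r := by rw [hc]; field_simp
          rw [h5, ← mul_assoc, ← Complex.normSq_eq_conj_mul_self, Complex.normSq_eq_norm_sq, hc1]
          simp
        have h6 : ∀ i ∈ (Finset.univ : Finset (Fin r)), 0 ≤ 1 - (conj c * a i).re := by
          intro i _
          have h7 := Complex.re_le_norm (conj c * a i)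
          rw [norm_mul, ha, RCLike.norm_conj, hc1, mul_one] at h7
          linarith
        intro i
        have h7 := (Finset.sum_eq_zero_iff_of_nonneg h6).mp h4 i (Finset.mem_univ i)
        have h8 : conj c * a i = 1 := by
          have h9 : ‖conj c * a i‖ = 1 := by rw [norm_mul, ha, RCLike.norm_conj, hc1, mul_one]
          have h10 : (conj c * a i).re = 1 := by linarith
          apply Complex.ext
          · simpa using h10
          · rw [Complex.one_im]
            have h11 := Complex.normSq_eq_norm_sq (conj c * a i)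
            rw [h9, Complex.normSq_apply, h10] at h11
            nlinarith
        have h9 : c * conj c = 1 := by
          rw [Complex.mul_conj, Complex.normSq_eq_norm_sq, hc1]; norm_num
        calc a i = (c * conj c) * a i := by rw [h9, one_mul]
          _ = c * (conj c * a i) := by ring
          _ = c := by rw [h8, mul_one]
      apply Units.ext
      change (theta n : G → ℂ) (g ^ k) / r = (theta n g / r) ^ k
      rw [hk k, Finset.sum_congr rfl (fun i _ => by rw [h2 i]), Finset.sum_const,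
        Finset.card_univ, Fintype.card_fin, nsmul_eq_mul]
      field_simp
    · intro p hp P hP x hx y hy
      have : Fact p.Prime := ⟨hp⟩
      obtain ⟨σ, hσ⟩ := Pool.Agent.Y788.V.pgroup_rep hP (hθ.comp P.subtype)
        ((Pool.Agent.W446.AS.theta_virt n).comp P.subtype) (s := r) (by simpa using h1)
      have hval : ∀ z : P, σ.character z = theta n (z : G) := fun z => congrFun hσ z
      have hsc : ∀ z : P, ∃ c : ℂ, σ z = c • 1 ∧ theta n (z : G) = r * c := by
        intro z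
        obtain ⟨c, hc⟩ := Pool.Agent.Y788.V.rep_scal σ (y := z) (by rw [hval, hn])
        refine ⟨c, hc, ?_⟩
        rw [← hval]
        change LinearMap.trace ℂ _ (σ z) = _
        rw [hc, map_smul, LinearMap.trace_one, Module.finrank_fin_fun, smul_eq_mul, mul_comm]
      obtain ⟨c, hc, hc'⟩ := hsc ⟨x, hx⟩
      obtain ⟨d, hd, hd'⟩ := hsc ⟨y, hy⟩
      apply Units.ext
      change (theta n : G → ℂ) (x * y) / r = theta n x / r * (theta n y / r)
      have h5 : (theta n : G → ℂ) (x * y) = r * (c * d) := by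
        have h6 := hval (⟨x, hx⟩ * ⟨y, hy⟩)
        change _ = theta n (x * y) at h6
        rw [← h6]
        change LinearMap.trace ℂ _ (σ (⟨x, hx⟩ * ⟨y, hy⟩)) = _
        rw [map_mul, hc, hd, smul_mul_smul_comm, one_mul, map_smul, LinearMap.trace_one,
          Module.finrank_fin_fun, smul_eq_mul, mul_comm]
      rw [h5]
      change _ = theta n ((⟨x, hx⟩ : P) : G) / r * (theta n ((⟨y, hy⟩ : P) : G) / r)
      rw [hc', hd']
      field_simp
  refine ⟨{ toFun := f, map_one' := ?_, map_mul' := hf }, fun g => ?_⟩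
  · apply Units.ext
    change (theta n : G → ℂ) 1 / r = 1
    rw [h1]
    exact div_self hr'
  · change theta n g = r * (theta n g / r)
    field_simp

lemma irr_of_lin (μ : G →* ℂˣ) : (fun g => ((μ g : ℂˣ) : ℂ)) ∈ Irr G := by
  have h := irr_of_irred (ρ := linRep μ) ⟨inferInstance, fun W _ => eq_bot_or_eq_top W⟩
  have h2 : (linRep μ).character = fun g => ((μ g : ℂˣ) : ℂ) := funext fun g => linRep_char μ g
  rwa [h2] at h

/-- the function of a multiple of a linear character -/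
lemma mult_of_scalar (n : (G → ℂ) → ℤ) {r : ℕ} (μ : G →* ℂˣ)
    (hμ : ∀ g, theta n g = r * ((μ g : ℂˣ) : ℂ)) :
    n (fun g => ((μ g : ℂˣ) : ℂ)) = r ∧
      ∀ χ ∈ Irr G, χ ≠ (fun g => ((μ g : ℂˣ) : ℂ)) → n χ = 0 := by
  classical
  have : Fintype G := Fintype.ofFinite G
  have hG : (Nat.card G : ℂ) ≠ 0 := by exact_mod_cast Nat.card_pos.ne'
  have hI := irr_of_lin μ
  constructor
  · have h1 := theta_pair n hI
    have h2 := pair_self hI
    have h3 : ∑ g : G, theta n g * ((μ g⁻¹ : ℂˣ) : ℂ) = r * Nat.card G := by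
      rw [← h2, Finset.mul_sum]
      refine Finset.sum_congr rfl fun g _ => ?_
      rw [hμ]
      ring
    have h4 := h1.symm.trans h3
    have h5 := mul_right_cancel₀ hG h4
    exact_mod_cast h5
  · intro χ hχ hne
    have h1 := theta_pair n hχ
    have h2 := pair_ne hI hχ (Ne.symm hne)
    have h3 : ∑ g : G, theta n g * χ g⁻¹ = 0 := by
      rw [← mul_zero (r : ℂ), ← h2, Finset.mul_sum]
      refine Finset.sum_congr rfl fun g _ => ?_
      rw [hμ]
      ring
    have h4 := h1.symm.trans h3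
    have h5 := (mul_eq_zero.mp h4).resolve_right hG
    exact_mod_cast h5

lemma norm_le (n : (G → ℂ) → ℤ) (hθ : IsHeilbronn (theta n : G → ℂ)) {r : ℕ}
    (h1 : (theta n : G → ℂ) 1 = r) (g : G) : ‖(theta n : G → ℂ) g‖ ≤ r := by
  obtain ⟨a, ha, hk⟩ := eigs hθ h1 g
  have h3 := hk 1
  simp only [pow_one] at h3
  rw [h3]
  refine (norm_sum_le _ _).trans ?_
  rw [Finset.sum_congr rfl (fun i _ => ha i), Finset.sum_const, Finset.card_univ,
    Fintype.card_fin, nsmul_eq_mul, mul_one]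

/-- the case in which the sum of the squares is maximal -/
theorem scalar_of_sum (n : (G → ℂ) → ℤ) (hθ : IsHeilbronn (theta n : G → ℂ)) {r : ℕ}
    (hr : r ≠ 0) (h1 : (theta n : G → ℂ) 1 = r) (hS : (r : ℤ) ^ 2 ≤ ∑ χ ∈ irrF G, n χ ^ 2) :
    ∃ μ : G →* ℂˣ, n (fun g => ((μ g : ℂˣ) : ℂ)) = r ∧
      ∀ χ ∈ Irr G, χ ≠ (fun g => ((μ g : ℂˣ) : ℂ)) → n χ = 0 := by
  classical
  have : Fintype G := Fintype.ofFinite G
  have hG : (0 : ℝ) < Nat.card G := by exact_mod_cast Nat.card_pos
  have e1 := avg_sq n hθ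
  have h2 : ∑ g : G, ((r : ℝ) ^ 2 - ‖(theta n : G → ℂ) g‖ ^ 2) ≤ 0 := by
    rw [Finset.sum_sub_distrib, e1, Finset.sum_const, Finset.card_univ, nsmul_eq_mul,
      ← Nat.card_eq_fintype_card]
    have h3 : (r : ℝ) ^ 2 ≤ ∑ χ ∈ irrF G, (n χ : ℝ) ^ 2 := by exact_mod_cast hS
    nlinarith
  have h3 : ∀ g ∈ (Finset.univ : Finset G), 0 ≤ (r : ℝ) ^ 2 - ‖(theta n : G → ℂ) g‖ ^ 2 := by
    intro g _
    have h4 := norm_le n hθ h1 g
    nlinarith [norm_nonneg ((theta n : G → ℂ) g)]
  have h4 := (Finset.sum_eq_zero_iff_of_nonneg h3).mp (le_antisymm h2 (Finset.sum_nonneg h3))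
  obtain ⟨μ, hμ⟩ := scalar_of_norm n hθ hr h1 (fun g => by
    have h5 := h4 g (Finset.mem_univ g)
    have h6 := norm_le n hθ h1 g
    have h7 : ((r : ℝ) - ‖(theta n : G → ℂ) g‖) * (r + ‖(theta n : G → ℂ) g‖) = 0 := by
      linear_combination h5
    have h8 : (0 : ℝ) < r := by exact_mod_cast Nat.pos_of_ne_zero hr
    rcases mul_eq_zero.mp h7 with h | h
    · linarith
    · have := norm_nonneg ((theta n : G → ℂ) g)
      linarith)
  exact ⟨μ, mult_of_scalar n μ hμ⟩

/-- **Real points** -/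
theorem real_ineq (n : (G → ℂ) → ℤ) (hθ : IsHeilbronn (theta n : G → ℂ)) {r : ℕ}
    (h1 : (theta n : G → ℂ) 1 = r) (hreal : ∀ χ ∈ Irr G, n (fun g => χ g⁻¹) = n χ)
    (ν : (G → ℂ) → ℤ) (hν : ∀ χ ∈ Irr G, ∑ᶠ g : G, χ (g ^ 2) = ν χ * Nat.card G) :
    2 * ∑ χ ∈ irrF G, n χ ^ 2 ≤ r * (r + ∑ χ ∈ irrF G, ν χ * n χ) ∧
    (∑ χ ∈ irrF G, ν χ * n χ ≤ r) ∧
    ((∃ μ : G →* ℂˣ, μ * μ = 1 ∧ n (fun g => ((μ g : ℂˣ) : ℂ)) = r ∧
        ∀ χ ∈ Irr G, χ ≠ (fun g => ((μ g : ℂˣ) : ℂ)) → n χ = 0) ∨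
      ((0 < r → ∑ χ ∈ irrF G, n χ * (n χ + ν χ) < r * (r + 1)) ∧
        (3 ≤ r → ∑ χ ∈ irrF G, n χ * (n χ - ν χ) < r * (r - 1)))) := by
  classical
  have hd : ∀ χ : G → ℂ, dual 1 χ = fun g => χ g⁻¹ := by
    intro χ
    funext g
    unfold dual
    simp
  obtain ⟨ha, hb⟩ := schur_ineq n hθ h1 1 ν (fun χ hχ => by
    rw [← hν χ hχ]
    refine finsum_congr fun g => ?_
    simp)
  have hc1 : ∑ χ ∈ irrF G, (n χ + n (dual 1 χ)) ^ 2 = 4 * ∑ χ ∈ irrF G, n χ ^ 2 := by
    rw [Finset.mul_sum]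
    refine Finset.sum_congr rfl fun χ hχ => ?_
    rw [hd, hreal χ (mem_irrF.mp hχ)]
    ring
  have hc2 : ∑ χ ∈ irrF G, (n χ - n (dual 1 χ)) ^ 2 = 0 := by
    refine Finset.sum_eq_zero fun χ hχ => ?_
    rw [hd, hreal χ (mem_irrF.mp hχ)]
    ring
  rw [hc1] at ha
  rw [hc2] at hb
  set S : ℤ := ∑ χ ∈ irrF G, n χ ^ 2 with hS
  set T : ℤ := ∑ χ ∈ irrF G, ν χ * n χ with hT
  have hA : 2 * S ≤ r * (r + T) := by linarith
  have hTr : T ≤ r := by
    rcases Nat.eq_zero_or_pos r with h0 | h0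
    · subst h0
      have h2 : S ≤ 0 := by push_cast at hA; linarith
      have h3 : ∀ χ ∈ irrF G, n χ ^ 2 = 0 := by
        have h4 : ∀ χ ∈ irrF G, 0 ≤ n χ ^ 2 := fun χ _ => sq_nonneg _
        exact (Finset.sum_eq_zero_iff_of_nonneg h4).mp (le_antisymm h2 (Finset.sum_nonneg h4))
      rw [hT, Finset.sum_eq_zero]
      · simp
      · intro χ hχ
        have h5 := (pow_eq_zero_iff (two_ne_zero)).mp (h3 χ hχ)
        rw [h5, mul_zero]
    · have h2 : (0 : ℤ) < r := by exact_mod_cast h0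
      nlinarith
  refine ⟨hA, hTr, ?_⟩
  have hplus : ∑ χ ∈ irrF G, n χ * (n χ + ν χ) = S + T := by
    rw [hS, hT, ← Finset.sum_add_distrib]
    exact Finset.sum_congr rfl fun χ _ => by ring
  have hminus : ∑ χ ∈ irrF G, n χ * (n χ - ν χ) = S - T := by
    rw [hS, hT, ← Finset.sum_sub_distrib]
    exact Finset.sum_congr rfl fun χ _ => by ring
  rw [hplus, hminus]
  by_cases hmax : (r : ℤ) ^ 2 ≤ S ∧ r ≠ 0
  · left
    obtain ⟨μ, hμ1, hμ2⟩ := scalar_of_sum n hθ hmax.2 h1 hmax.1
    refine ⟨μ, ?_, hμ1, hμ2⟩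
    have h3 : (fun g : G => ((μ g⁻¹ : ℂˣ) : ℂ)) = fun g => ((μ g : ℂˣ) : ℂ) := by
      by_contra hne
      have h4 := hreal _ (irr_of_lin μ)
      rw [hμ1, hμ2 _ (Pool.Agent.Q7.DB.irr_inv (irr_of_lin μ)) hne] at h4
      exact hmax.2 (by exact_mod_cast h4.symm)
    ext g
    have h4 := congrFun h3 g
    rw [MonoidHom.mul_apply, MonoidHom.one_apply]
    congr 1
    have h5 : μ g⁻¹ = μ g := Units.ext h4
    rw [map_inv] at h5
    calc μ g * μ g = (μ g)⁻¹ * μ g := by rw [h5]
      _ = 1 := inv_mul_cancel _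
  · right
    push Not at hmax
    constructor
    · intro h0
      have h2 : S < (r : ℤ) ^ 2 := by
        by_contra h3
        push Not at h3
        have := hmax h3
        omega
      nlinarith
    · intro h0
      have h2 : S < (r : ℤ) ^ 2 := by
        by_contra h3
        push Not at h3
        have := hmax h3
        omega
      have h3 : (3 : ℤ) ≤ r := by exact_mod_cast h0
      rcases hTr.lt_or_eq with h4 | h4
      · nlinarith
      · rw [h4] at hA ⊢
        nlinarith

end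

end Pool.Agent.Q290.Schur
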