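import Mathlib
import Pool.Agent.Q290.Schur.RealPt
import Pool.Agent.Q7.CV.Dbl
import Pool.Agent.Q7.TZ.Gen
import Pool.Agent.H417R3.HB.DedQ

/-!
# Heilbronn characters of degree at most two with a linear constituent
-/

set_option autoImplicit false
set_option linter.unusedSectionVars false

namespace Pool.Agent.Q290.Schur

open Pool.Agent.H302R2 Pool.Agent.H541R3.ART Pool.Agent.W446.AS Pool.Agent.H302R5 Pool.Agent.H302R6
  Pool.Agent.Q7.TZ ComplexConjugate

section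

variable {G : Type} [Group G] [Finite G]

lemma theta_sub (n : (G → ℂ) → ℤ) (S : Finset (G → ℂ))
    (hS : S ⊆ irrF G) (h0 : ∀ χ ∈ Irr G, χ ∉ S → n χ = 0) (g : G) :
    theta n g = ∑ χ ∈ S, (n χ : ℂ) * χ g := by
  classical
  rw [theta]
  symm
  apply Finset.sum_subset hS
  intro χ hχ hχS
  rw [h0 χ (mem_irrF.mp hχ) hχS]
  simp

lemma one_nat {χ : G → ℂ} (hχ : χ ∈ Irr G) : ∃ d : ℕ, 0 < d ∧ χ 1 = d := by
  obtain ⟨d, ρ, hρ, rfl⟩ := exists_rep hχ
  refine ⟨d, ?_, ?_⟩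
  · have h1 := hρ.1
    by_contra h
    have h2 : d = 0 := by omega
    subst h2
    obtain ⟨a, b, hab⟩ := h1
    exact hab (Subsingleton.elim a b)
  · change LinearMap.trace ℂ _ (ρ 1) = d
    rw [map_one, LinearMap.trace_one, Module.finrank_fin_fun]

/-- A Heilbronn character of degree two with a linear constituent is the sum of two linear
characters. -/
theorem two_of_lin (n : (G → ℂ) → ℤ) (hθ : IsHeilbronn (theta n : G → ℂ))
    (h1 : (theta n : G → ℂ) 1 = 2) (ρ : G →* ℂˣ) (hρ : n (fun g => ((ρ g : ℂˣ) : ℂ)) ≠ 0) :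
    ∃ ρ' : G →* ℂˣ, ∀ g, theta n g = ((ρ g : ℂˣ) : ℂ) + ((ρ' g : ℂˣ) : ℂ) := by
  classical
  have : Fintype G := Fintype.ofFinite G
  have hG : (Nat.card G : ℂ) ≠ 0 := by exact_mod_cast Nat.card_pos.ne'
  have hI := irr_of_lin ρ
  have hpos : 0 ≤ n (fun g => ((ρ g : ℂˣ) : ℂ)) := by
    obtain ⟨k, hk⟩ := hθ.mult ⊤ (ρ.comp (⊤ : Subgroup G).subtype)
    have h2 := theta_pair n hI
    have h3 : ∑ᶠ h : (⊤ : Subgroup G), theta n h
        * ((((ρ.comp (⊤ : Subgroup G).subtype) h)⁻¹ : ℂˣ) : ℂ)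
        = ∑ g : G, theta n g * ((ρ g⁻¹ : ℂˣ) : ℂ) := by
      rw [← finsum_eq_sum_of_fintype]
      refine finsum_eq_of_bijective (fun h => (h : G)) (Subgroup.topEquiv (G := G)).bijective ?_
      intro h
      rw [map_inv]
      rfl
    rw [h3, h2] at hk
    have h4 : Nat.card (⊤ : Subgroup G) = Nat.card G :=
      Nat.card_congr (Subgroup.topEquiv (G := G)).toEquiv
    rw [h4] at hk
    have h5 := mul_right_cancel₀ hG hk
    have h6 : n (fun g => ((ρ g : ℂˣ) : ℂ)) = (k : ℤ) := by exact_mod_cast h5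
    rw [h6]
    positivity
  obtain ⟨D, hD, hdual, hcase, -⟩ := shape_gen n hθ h1
  rcases hcase with ⟨μ, hμD, hμ, hother⟩ | ⟨χ₀, hχ₀, hsy, hn0, N, hN, hN', hother⟩ |
    ⟨χ₀, hχ₀, hne, hn0, hn0', N, hN, hN', hother⟩
  · have h2 : (fun g => ((ρ g : ℂˣ) : ℂ)) = (fun g => ((μ g : ℂˣ) : ℂ)) := by
      by_contra h
      exact hρ (hother _ hI h)
    refine ⟨ρ, fun g => ?_⟩
    rw [theta_sub n {fun g => ((μ g : ℂˣ) : ℂ)} (by
      intro x hx
      rw [Finset.mem_singleton.mp hx]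
      exact mem_irrF.mpr (irr_of_lin μ)) (fun χ hχ hne => hother χ hχ (by
        simpa using hne)) g, Finset.sum_singleton, hμ]
    have h3 := congrFun h2 g
    change ((2 : ℤ) : ℂ) * ((μ g : ℂˣ) : ℂ) = _
    rw [← h3]
    push_cast
    ring
  · exfalso
    have h2 : (fun g => ((ρ g : ℂˣ) : ℂ)) = χ₀ := by
      by_contra h
      by_cases h3 : (fun g => ((ρ g : ℂˣ) : ℂ)) ∈ N
      · have h4 := (hN' _ h3).2.2
        omega
      · exact hρ (hother _ hI h h3)
    obtain ⟨hs1, hs2⟩ := hsy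
    rw [← h2] at hs1 hs2
    have h3 : ∀ g : G, ((ρ (g ^ 2) : ℂˣ) : ℂ) * (((D g)⁻¹ : ℂˣ) : ℂ) = 1 := by
      intro g
      have h4 := congrFun hs1 g
      unfold dual at h4
      have h5 : D g = ρ g * ρ g := by
        rw [← mul_inv_eq_iff_eq_mul, ← map_inv]
        apply Units.ext
        rw [Units.val_mul]
        exact h4
      rw [h5, map_pow, sq, ← Units.val_mul, mul_inv_cancel, Units.val_one]
    rw [finsum_eq_sum_of_fintype, Finset.sum_congr rfl (fun g _ => h3 g), Finset.sum_const,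
      Finset.card_univ, nsmul_eq_mul, mul_one, ← Nat.card_eq_fintype_card] at hs2
    apply hG
    linear_combination (1 / 2 : ℂ) * hs2
  · have h2 : (fun g => ((ρ g : ℂˣ) : ℂ)) = χ₀ ∨ (fun g => ((ρ g : ℂˣ) : ℂ)) = dual D χ₀ := by
      by_contra h
      push Not at h
      by_cases h3 : (fun g => ((ρ g : ℂˣ) : ℂ)) ∈ N
      · have h4 := (hN' _ h3).2.2
        omega
      · exact hρ (hother _ hI h.1 h.2 h3)
    -- the other linear character
    let ρ' : G →* ℂˣ := D * ρ⁻¹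
    have hρ' : (fun g => ((ρ' g : ℂˣ) : ℂ)) = dual D (fun g => ((ρ g : ℂˣ) : ℂ)) := by
      funext g
      unfold dual
      simp [ρ']
    have hset : ({χ₀, dual D χ₀} : Finset (G → ℂ))
        = {fun g => ((ρ g : ℂˣ) : ℂ), fun g => ((ρ' g : ℂˣ) : ℂ)} := by
      rcases h2 with h | h
      · rw [hρ', h]
      · rw [hρ', h, dual_dual, Finset.pair_comm]
    have hneρ : (fun g => ((ρ g : ℂˣ) : ℂ)) ≠ (fun g => ((ρ' g : ℂˣ) : ℂ)) := by
      rcases h2 with h | h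
      · rw [hρ', h]; exact hne.symm
      · rw [hρ', h, dual_dual]; exact hne
    have hnρ : n (fun g => ((ρ g : ℂˣ) : ℂ)) = 1 ∧ n (fun g => ((ρ' g : ℂˣ) : ℂ)) = 1 := by
      rcases h2 with h | h
      · rw [hρ', h]; exact ⟨hn0, hn0'⟩
      · rw [hρ', h, dual_dual]; exact ⟨hn0', hn0⟩
    have hS : ({χ₀, dual D χ₀} ∪ N : Finset (G → ℂ)) ⊆ irrF G := by
      intro x hx
      rcases Finset.mem_union.mp hx with h | h
      · rcases Finset.mem_insert.mp h with h | h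
        · rw [h]; exact mem_irrF.mpr hχ₀
        · rw [Finset.mem_singleton.mp h]; exact mem_irrF.mpr (hdual χ₀ hχ₀).1
      · exact mem_irrF.mpr (hN' x h).1
    have h0 : ∀ χ ∈ Irr G, χ ∉ ({χ₀, dual D χ₀} ∪ N : Finset (G → ℂ)) → n χ = 0 := by
      intro χ hχ h
      simp only [Finset.mem_union, Finset.mem_insert, Finset.mem_singleton, not_or] at h
      exact hother χ hχ h.1.1 h.1.2 h.2
    have hdisj : Disjoint ({χ₀, dual D χ₀} : Finset (G → ℂ)) N := by
      rw [Finset.disjoint_left]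
      intro x hx hxN
      have h3 := (hN' x hxN).2.2
      rcases Finset.mem_insert.mp hx with h | h
      · rw [h, hn0] at h3; norm_num at h3
      · rw [Finset.mem_singleton.mp h, hn0'] at h3; norm_num at h3
    have hform : ∀ g, theta n g = ((ρ g : ℂˣ) : ℂ) + ((ρ' g : ℂˣ) : ℂ)
        - ∑ χ ∈ N, χ g := by
      intro g
      rw [theta_sub n _ hS h0 g, Finset.sum_union hdisj, hset, Finset.sum_pair hneρ, hnρ.1,
        hnρ.2]
      have h3 : ∑ χ ∈ N, (n χ : ℂ) * χ g = - ∑ χ ∈ N, χ g := by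
        rw [← Finset.sum_neg_distrib]
        refine Finset.sum_congr rfl fun χ hχ => ?_
        rw [(hN' χ hχ).2.2]
        push_cast
        ring
      rw [h3]
      push_cast
      ring
    have hNe : N = ∅ := by
      by_contra hne
      obtain ⟨ψ, hψ⟩ := Finset.nonempty_iff_ne_empty.mpr hne
      have h3 := hform 1
      rw [h1, map_one, map_one, Units.val_one] at h3
      choose! d hd using fun χ (hχ : χ ∈ Irr G) => one_nat hχ
      have h4 : ∑ χ ∈ N, χ 1 = ((∑ χ ∈ N, d χ : ℕ) : ℂ) := by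
        push_cast
        exact Finset.sum_congr rfl fun χ hχ => (hd χ (hN' χ hχ).1).2
      rw [h4] at h3
      have h5 : ((∑ χ ∈ N, d χ : ℕ) : ℂ) = 0 := by linear_combination h3
      have h6 : ∑ χ ∈ N, d χ = 0 := by exact_mod_cast h5
      have h7 := (Finset.sum_eq_zero_iff).mp h6 ψ hψ
      have h8 := (hd ψ (hN' ψ hψ).1).1
      omega
    refine ⟨ρ', fun g => ?_⟩
    rw [hform, hNe, Finset.sum_empty, sub_zero]

/-- the structure of the L-functions below a vanishing abelian one -/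
theorem below {s₀ : ℂ} (A : ArtinData G s₀) {r : ℕ} (hr2 : r ≤ 2)
    (hr : meromorphicOrderAt (A.Lin ⊥ 1) s₀ = (r : WithTop ℤ)) (M : Subgroup G) (ρ : M →* ℂˣ)
    (h : meromorphicOrderAt (A.Lin M ρ) s₀ ≠ 0) :
    (r = 1 ∧ ∀ g : M, (theta A.ord : G → ℂ) g = ((ρ g : ℂˣ) : ℂ)) ∨
    (r = 2 ∧ ∃ ρ' : M →* ℂˣ, ∀ g : M, (theta A.ord : G → ℂ) g
      = ((ρ g : ℂˣ) : ℂ) + ((ρ' g : ℂˣ) : ℂ)) := by
  classical
  have : Fintype M := Fintype.ofFinite M
  have hM : (Nat.card M : ℂ) ≠ 0 := by exact_mod_cast Nat.card_pos.ne'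
  have hθ := A.isHeilbronn
  have h1 := A.theta_one hr
  obtain ⟨n, hn, -⟩ := virt_theta ((theta_virt A.ord).comp M.subtype)
  have hθM : IsHeilbronn (theta n : M → ℂ) := by rw [← hn]; exact hθ.comp M.subtype
  have hval : ∀ g : M, (theta A.ord : G → ℂ) g = theta n g := fun g => congrFun hn g
  have h1M : (theta n : M → ℂ) 1 = r := by rw [← hval]; simpa using h1
  obtain ⟨a, ha⟩ := hθ.mult M ρ
  have hord := Pool.Agent.H417R3.HB.order_of_multQ A M ρ ha
  have ha0 : a ≠ 0 := by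
    intro h2
    rw [hord, h2] at h
    simp at h
  have hI := irr_of_lin ρ
  have hnρ : n (fun g => ((ρ g : ℂˣ) : ℂ)) ≠ 0 := by
    have h2 := theta_pair n hI
    rw [finsum_eq_sum_of_fintype] at ha
    have h3 : ∑ g : M, theta n g * ((ρ g⁻¹ : ℂˣ) : ℂ) = a * Nat.card M := by
      rw [← ha]
      refine Finset.sum_congr rfl fun g _ => ?_
      rw [hval, map_inv]
    have h4 := mul_right_cancel₀ hM (h2.symm.trans h3)
    intro h5
    rw [h5] at h4
    apply ha0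
    exact_mod_cast h4.symm
  interval_cases r
  · exfalso
    have h2 : ∀ g, (theta n : M → ℂ) g = 0 := by
      intro g
      have h3 := norm_le n hθM h1M g
      rw [Nat.cast_zero] at h3
      exact norm_le_zero_iff.mp h3
    have h3 := theta_pair n hI
    rw [Finset.sum_eq_zero (fun g _ => by rw [h2, zero_mul])] at h3
    have h4 := (mul_eq_zero.mp h3.symm).resolve_right hM
    exact hnρ (by exact_mod_cast h4)
  · left
    refine ⟨rfl, ?_⟩
    obtain ⟨ψ, hψ⟩ := hθM.deg_one (by rw [h1M]; simp)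
    obtain ⟨-, h3⟩ := mult_of_scalar (r := 1) n ψ (fun g => by rw [hψ]; simp)
    have h4 : (fun g => ((ρ g : ℂˣ) : ℂ)) = fun g => ((ψ g : ℂˣ) : ℂ) := by
      by_contra h5
      exact hnρ (h3 _ hI h5)
    intro g
    rw [hval, hψ]
    exact (congrFun h4 g).symm
  · right
    refine ⟨rfl, ?_⟩
    obtain ⟨ρ', h2⟩ := two_of_lin n hθM (by rw [h1M]; simp) ρ hnρ
    exact ⟨ρ', fun g => by rw [hval, h2]⟩

open Classical in
lemma sum_lin (H : Subgroup G) (ψ φ : H →* ℂˣ) :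
    ∑ᶠ h : H, ((φ h : ℂˣ) : ℂ) * (((ψ h)⁻¹ : ℂˣ) : ℂ)
      = (if ψ = φ then 1 else 0) * (Nat.card H : ℂ) := by
  classical
  have : Fintype H := Fintype.ofFinite H
  rw [finsum_eq_sum_of_fintype]
  have h0 : ∑ h : H, ((φ h : ℂˣ) : ℂ) * (((ψ h)⁻¹ : ℂˣ) : ℂ)
      = ∑ h : H, ((φ h : ℂˣ) : ℂ) * ((ψ h⁻¹ : ℂˣ) : ℂ) :=
    Finset.sum_congr rfl fun h _ => by rw [map_inv]
  rw [h0]
  split_ifs with h
  · rw [h, one_mul]
    exact pair_self (irr_of_lin φ)
  · rw [zero_mul]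
    refine pair_ne (irr_of_lin φ) (irr_of_lin ψ) fun h2 => h ?_
    ext g
    exact (congrFun h2 g).symm

open Classical in
/-- the orders of the Hecke L-functions -/
theorem below_order {s₀ : ℂ} (A : ArtinData G s₀) {M : Subgroup G} {ρ ρ' : M →* ℂˣ}
    (h : ∀ g : M, (theta A.ord : G → ℂ) g = ((ρ g : ℂˣ) : ℂ) + ((ρ' g : ℂˣ) : ℂ))
    (H : Subgroup G) (hHM : H ≤ M) (ψ : H →* ℂˣ) :
    meromorphicOrderAt (A.Lin H ψ) s₀
      = (if ψ = ρ.comp (Subgroup.inclusion hHM) then 1 else 0)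
        + (if ψ = ρ'.comp (Subgroup.inclusion hHM) then 1 else 0) := by
  classical
  have : Fintype H := Fintype.ofFinite H
  have h1 := sum_lin H ψ (ρ.comp (Subgroup.inclusion hHM))
  have h2 := sum_lin H ψ (ρ'.comp (Subgroup.inclusion hHM))
  rw [finsum_eq_sum_of_fintype] at h1 h2
  have h3 : ∑ᶠ x : H, (theta A.ord : G → ℂ) x * (((ψ x)⁻¹ : ℂˣ) : ℂ)
      = (((if ψ = ρ.comp (Subgroup.inclusion hHM) then 1 else 0)
        + (if ψ = ρ'.comp (Subgroup.inclusion hHM) then 1 else 0) : ℕ) : ℂ) * Nat.card H := by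
    rw [finsum_eq_sum_of_fintype]
    have h4 : ∀ x : H, (theta A.ord : G → ℂ) x * (((ψ x)⁻¹ : ℂˣ) : ℂ)
        = (((ρ.comp (Subgroup.inclusion hHM)) x : ℂˣ) : ℂ) * (((ψ x)⁻¹ : ℂˣ) : ℂ)
          + (((ρ'.comp (Subgroup.inclusion hHM)) x : ℂˣ) : ℂ) * (((ψ x)⁻¹ : ℂˣ) : ℂ) := by
      intro x
      rw [← add_mul]
      congr 1
      exact h ⟨x, hHM x.2⟩
    rw [Finset.sum_congr rfl (fun x _ => h4 x), Finset.sum_add_distrib, h1, h2, ← add_mul]
    congr 1
    rcases Classical.em (ψ = ρ.comp (Subgroup.inclusion hHM)) with e1 | e1 <;>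
    rcases Classical.em (ψ = ρ'.comp (Subgroup.inclusion hHM)) with e2 | e2
    · rw [if_pos e1, if_pos e2, if_pos e1, if_pos e2]; norm_num
    · rw [if_pos e1, if_neg e2, if_pos e1, if_neg e2]; norm_num
    · rw [if_neg e1, if_pos e2, if_neg e1, if_pos e2]; norm_num
    · rw [if_neg e1, if_neg e2, if_neg e1, if_neg e2]; norm_num
  rw [Pool.Agent.H417R3.HB.order_of_multQ A H ψ h3]
  split_ifs <;> norm_num

open Classical in
theorem below_order_one {s₀ : ℂ} (A : ArtinData G s₀) {M : Subgroup G} {ρ : M →* ℂˣ}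
    (h : ∀ g : M, (theta A.ord : G → ℂ) g = ((ρ g : ℂˣ) : ℂ))
    (H : Subgroup G) (hHM : H ≤ M) (ψ : H →* ℂˣ) :
    meromorphicOrderAt (A.Lin H ψ) s₀
      = (if ψ = ρ.comp (Subgroup.inclusion hHM) then 1 else 0) := by
  classical
  have : Fintype H := Fintype.ofFinite H
  have h1 := sum_lin H ψ (ρ.comp (Subgroup.inclusion hHM))
  rw [finsum_eq_sum_of_fintype] at h1
  have h3 : ∑ᶠ x : H, (theta A.ord : G → ℂ) x * (((ψ x)⁻¹ : ℂˣ) : ℂ)
      = ((if ψ = ρ.comp (Subgroup.inclusion hHM) then 1 else 0 : ℕ) : ℂ) * Nat.card H := by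
    rw [finsum_eq_sum_of_fintype]
    have h4 : ∀ x : H, (theta A.ord : G → ℂ) x * (((ψ x)⁻¹ : ℂˣ) : ℂ)
        = (((ρ.comp (Subgroup.inclusion hHM)) x : ℂˣ) : ℂ) * (((ψ x)⁻¹ : ℂˣ) : ℂ) := by
      intro x
      congr 1
      exact h ⟨x, hHM x.2⟩
    rw [Finset.sum_congr rfl (fun x _ => h4 x), h1]
    congr 1
    rcases Classical.em (ψ = ρ.comp (Subgroup.inclusion hHM)) with e1 | e1
    · rw [if_pos e1, if_pos e1]; norm_num
    · rw [if_neg e1, if_neg e1]; norm_num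
  rw [Pool.Agent.H417R3.HB.order_of_multQ A H ψ h3]
  split_ifs <;> norm_num

end

end Pool.Agent.Q290.Schur
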