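import Mathlib
import Pool.Agent.Q290.Schur.Sol

/-!
# Real functions of degree three: the determinant
-/

set_option autoImplicit false
set_option linter.unusedSectionVars false

namespace Pool.Agent.Q290.Schur

open Pool.Agent.H302R2 Pool.Agent.H302R3 Pool.Agent.H541R3.ART Pool.Agent.W446.AS
  Pool.Agent.H302R5 Pool.Agent.H302R6 Pool.Agent.Q7.TZ ComplexConjugate

lemma det_three_trace (M : Matrix (Fin 3) (Fin 3) ℂ) :
    M.trace ^ 3 - 3 * M.trace * (M * M).trace + 2 * (M * M * M).trace = 6 * M.det := by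
  simp only [Matrix.trace_fin_three, Matrix.det_fin_three, Matrix.mul_apply, Fin.sum_univ_three]
  ring

section

variable {G : Type} [Group G] [Finite G]

/-- the determinant of a function of degree three -/
noncomputable def tt {G : Type} [Group G] (θ : G → ℂ) (g : G) : ℂ :=
  (θ g ^ 3 - 3 * θ g * θ (g ^ 2) + 2 * θ (g ^ 3)) / 6

lemma three_eig {θ : G → ℂ} (hθ : IsSolHeilbronn θ) (h1 : θ 1 = 3) (g : G) :
    ∃ a b c : ℂ, ‖a‖ = 1 ∧ ‖b‖ = 1 ∧ ‖c‖ = 1 ∧ (∀ k : ℕ, θ (g ^ k) = a ^ k + b ^ k + c ^ k) ∧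
      tt θ g = a * b * c := by
  obtain ⟨a, ha, hk⟩ := eigsS hθ (r := 3) (by rw [h1]; norm_num) g
  refine ⟨a 0, a 1, a 2, ha 0, ha 1, ha 2, fun k => ?_, ?_⟩
  · rw [hk k, Fin.sum_univ_three]
  · unfold tt
    have h2 := hk 1
    rw [pow_one] at h2
    rw [h2, hk 2, hk 3]
    simp only [Fin.sum_univ_three]
    ring

lemma tt_pow {θ : G → ℂ} (hθ : IsSolHeilbronn θ) (h1 : θ 1 = 3) (g : G) (k : ℕ) :
    tt θ (g ^ k) = tt θ g ^ k := by
  obtain ⟨a, b, c, -, -, -, hk, ht⟩ := three_eig hθ h1 g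
  rw [ht]
  unfold tt
  rw [← pow_mul, ← pow_mul, hk, hk, hk]
  ring

lemma tt_ne {θ : G → ℂ} (hθ : IsSolHeilbronn θ) (h1 : θ 1 = 3) (g : G) : tt θ g ≠ 0 := by
  obtain ⟨a, b, c, ha, hb, hc, hk, ht⟩ := three_eig hθ h1 g
  rw [ht, ← norm_ne_zero_iff, norm_mul, norm_mul, ha, hb, hc]
  norm_num

lemma real_conj {θ : G → ℂ} (hθ : IsSolHeilbronn θ) (hr : ∀ g, θ g⁻¹ = θ g) (g : G) :
    conj (θ g) = θ g := by
  rw [← starS hθ g, hr]

lemma tt_sq {θ : G → ℂ} (hθ : IsSolHeilbronn θ) (h1 : θ 1 = 3) (hr : ∀ g, θ g⁻¹ = θ g) (g : G) :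
    tt θ g * tt θ g = 1 := by
  obtain ⟨a, b, c, ha, hb, hc, hk, ht⟩ := three_eig hθ h1 g
  have h2 : conj (tt θ g) = tt θ g := by
    unfold tt
    simp only [map_div₀, map_add, map_sub, map_mul, map_pow, real_conj hθ hr, Complex.conj_ofNat]
  have h3 : tt θ g * conj (tt θ g) = 1 := by
    rw [Complex.mul_conj, Complex.normSq_eq_norm_sq, ht, norm_mul, norm_mul, ha, hb, hc]
    norm_num
  rw [h2] at h3
  exact h3

lemma tt_rel {θ : G → ℂ} (hθ : IsSolHeilbronn θ) (h1 : θ 1 = 3) (hr : ∀ g, θ g⁻¹ = θ g) (g : G) :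
    θ g * θ g⁻¹ = θ (g ^ 2) + 2 * (tt θ g * θ g) := by
  obtain ⟨a, b, c, ha, hb, hc, hk, ht⟩ := three_eig hθ h1 g
  have hn : ∀ z : ℂ, ‖z‖ = 1 → z * conj z = 1 := by
    intro z hz
    rw [Complex.mul_conj, Complex.normSq_eq_norm_sq, hz]
    norm_num
  have h2 := hk 1
  simp only [pow_one] at h2
  have h3 : conj a + conj b + conj c = a + b + c := by
    have h4 := real_conj hθ hr g
    rw [h2, map_add, map_add] at h4
    exact h4
  have h5 : a * b + b * c + c * a = a * b * c * (a + b + c) := by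
    rw [← h3]
    linear_combination (-(b * c)) * hn a ha - (c * a) * hn b hb - (a * b) * hn c hc
  rw [hr, ht, hk 2, h2]
  linear_combination 2 * h5

/-- the determinant is a linear character -/
theorem exists_tt {θ : G → ℂ} (hθ : IsSolHeilbronn θ) (hv : Virt θ) (h1 : θ 1 = 3) :
    ∃ ε : G →* ℂˣ, ∀ g, ((ε g : ℂˣ) : ℂ) = tt θ g := by
  classical
  let f : G → ℂˣ := fun g => Units.mk0 (tt θ g) (tt_ne hθ h1 g)
  have hf : ∀ g h, f (g * h) = f g * f h := by
    apply mul_of_pgroups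
    · intro g h
      apply Units.ext
      change tt θ (h * g * h⁻¹) = tt θ g
      unfold tt
      rw [conj_pow, conj_pow, hθ.conj, hθ.conj, hθ.conj]
    · intro g k
      apply Units.ext
      rw [Units.val_pow_eq_pow_val]
      exact tt_pow hθ h1 g k
    · intro p hp P hP x hx y hy
      have : Fact p.Prime := ⟨hp⟩
      obtain ⟨σ, hσ⟩ := Pool.Agent.Y788.V.pgroup_rep hP (hθ.comp_sol (sol_of_pgroup hP) P.subtype)
        (hv.comp P.subtype) (s := 3) (by simpa using h1)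
      let e := Pi.basisFun ℂ (Fin 3)
      let M : P → Matrix (Fin 3) (Fin 3) ℂ := fun z => LinearMap.toMatrix e e (σ z)
      have hM : ∀ z w, M (z * w) = M z * M w := by
        intro z w
        change LinearMap.toMatrix e e (σ (z * w)) = _
        rw [map_mul, LinearMap.toMatrix_mul]
      have htr : ∀ z : P, (M z).trace = θ (z : G) := by
        intro z
        have h2 : σ.character z = θ (z : G) := congrFun hσ z
        rw [← h2]
        exact (LinearMap.trace_eq_matrix_trace ℂ e (σ z)).symm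
      have hdet : ∀ z : P, tt θ (z : G) = (M z).det := by
        intro z
        have h2 := det_three_trace (M z)
        rw [← hM, ← hM, htr, htr, htr] at h2
        unfold tt
        have h3 : ((z * z : P) : G) = (z : G) ^ 2 := by rw [Subgroup.coe_mul, sq]
        have h4 : ((z * z * z : P) : G) = (z : G) ^ 3 := by
          rw [Subgroup.coe_mul, Subgroup.coe_mul, pow_succ, sq]
        rw [h3, h4] at h2
        rw [h2]
        ring
      apply Units.ext
      rw [Units.val_mul]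
      change tt θ (x * y) = tt θ x * tt θ y
      have h5 := hdet (⟨x, hx⟩ * ⟨y, hy⟩)
      rw [hM, Matrix.det_mul, ← hdet, ← hdet] at h5
      exact h5
  refine ⟨{ toFun := f, map_one' := ?_, map_mul' := hf }, fun g => rfl⟩
  apply Units.ext
  change tt θ 1 = 1
  unfold tt
  rw [one_pow, one_pow, h1]
  norm_num

/-- **The identity for real functions of degree three** -/
theorem three_sum (n : (G → ℂ) → ℤ) (hθ : IsSolHeilbronn (theta n : G → ℂ))
    (h1 : (theta n : G → ℂ) 1 = 3) (hr : ∀ g : G, theta n g⁻¹ = theta n g) (ε : G →* ℂˣ)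
    (hε : ∀ g, ((ε g : ℂˣ) : ℂ) = tt (theta n) g) (ν : (G → ℂ) → ℤ)
    (hν : ∀ χ ∈ Irr G, ∑ᶠ g : G, χ (g ^ 2) = ν χ * Nat.card G) :
    ∑ χ ∈ irrF G, n χ * (n χ - ν χ) = 2 * n (fun g => ((ε g : ℂˣ) : ℂ)) := by
  classical
  have : Fintype G := Fintype.ofFinite G
  have hG : (Nat.card G : ℂ) ≠ 0 := by exact_mod_cast Nat.card_pos.ne'
  have e1 := Pool.Agent.Q7.SZ.sum_sq_eq (G := G) n
  have e2 : ∑ g : G, theta n (g ^ 2) = (∑ χ ∈ irrF G, (n χ : ℂ) * ν χ) * Nat.card G := by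
    unfold theta
    rw [Finset.sum_comm, Finset.sum_mul]
    refine Finset.sum_congr rfl fun χ hχ => ?_
    have h3 := hν χ (mem_irrF.mp hχ)
    rw [finsum_eq_sum_of_fintype] at h3
    rw [← Finset.mul_sum, h3]
    ring
  have e3 : ∑ g : G, tt (theta n) g * theta n g
      = (n (fun g => ((ε g : ℂˣ) : ℂ)) : ℂ) * Nat.card G := by
    rw [← theta_pair n (irr_of_lin ε)]
    refine Finset.sum_congr rfl fun g _ => ?_
    have h2 : ε g⁻¹ = ε g := by
      rw [map_inv, inv_eq_iff_mul_eq_one]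
      apply Units.ext
      rw [Units.val_mul, hε, tt_sq hθ h1 hr, Units.val_one]
    rw [h2, hε]
    ring
  rw [Finset.sum_congr rfl (fun g _ => tt_rel hθ h1 hr g), Finset.sum_add_distrib,
    ← Finset.mul_sum, e2, e3] at e1
  have h2 : ((∑ χ ∈ irrF G, n χ * (n χ - ν χ) : ℤ) : ℂ)
      = ((2 * n (fun g => ((ε g : ℂˣ) : ℂ)) : ℤ) : ℂ) := by
    push_cast
    apply mul_right_cancel₀ hG
    have h3 : ∑ χ ∈ irrF G, ((n χ : ℂ) * ((n χ : ℂ) - ν χ))
        = ∑ χ ∈ irrF G, (n χ : ℂ) ^ 2 - ∑ χ ∈ irrF G, (n χ : ℂ) * ν χ := by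
      rw [← Finset.sum_sub_distrib]
      exact Finset.sum_congr rfl fun χ _ => by ring
    rw [h3]
    linear_combination -e1
  exact_mod_cast h2

end

end Pool.Agent.Q290.Schur
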