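import Mathlib
import Pool.Agent.Q290.Schur.Det3
import Pool.Agent.Q7.SZ.Dih

/-!
# Real functions of degree three: the classification
-/

set_option autoImplicit false
set_option linter.unusedSectionVars false

namespace Pool.Agent.Q290.Schur

open Pool.Agent.H302R2 Pool.Agent.H302R3 Pool.Agent.H541R3.ART Pool.Agent.W446.AS
  Pool.Agent.H302R5 Pool.Agent.H302R6 Pool.Agent.Q7.TZ ComplexConjugate

/-- `χ` is an orthogonal character: it is real and its Frobenius-Schur indicator is `1` -/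
def Ort {G : Type} [Group G] (χ : G → ℂ) : Prop :=
  (∀ g, χ g⁻¹ = χ g) ∧ ∑ᶠ g, χ (g ^ 2) = (Nat.card G : ℂ)

/-- the multiplicity of `χ` is zero, or one for an orthogonal character, or minus one for a
symplectic character -/
def Light {G : Type} [Group G] (n : (G → ℂ) → ℤ) (χ : G → ℂ) : Prop :=
  n χ = 0 ∨ (Ort χ ∧ n χ = 1) ∨ (Sy χ ∧ n χ = -1)

section

variable {G : Type} [Group G] [Finite G]

lemma nu_split {χ : G → ℂ} (hχ : χ ∈ Irr G) : ∃ ν : ℤ, (∑ᶠ g, χ (g ^ 2) = ν * Nat.card G) ∧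
    ((ν = 1 ∧ Ort χ) ∨ (ν = -1 ∧ Sy χ) ∨ (ν = 0 ∧ (fun g => χ g⁻¹) ≠ χ)) := by
  obtain ⟨ν, h1, h2⟩ := nu_exists hχ
  refine ⟨ν, h1, ?_⟩
  rcases h2 with ⟨h, -, hr⟩ | ⟨h, hr⟩ | ⟨h, g, hg⟩
  · left; exact ⟨h, hr, by rw [h1, h]; simp⟩
  · right; left; exact ⟨h, hr, by rw [h1, h]; simp⟩
  · right; right; exact ⟨h, fun h3 => hg (congrFun h3 g)⟩

lemma card_tot (n ν : (G → ℂ) → ℤ) (S : Finset (G → ℂ)) (hS : S ⊆ irrF G)
    (hL : ∀ χ ∈ Irr G, χ ∉ S → n χ = 0 ∨ ν χ * n χ = 1) :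
    ∑ χ ∈ irrF G, ν χ * n χ
      = ∑ χ ∈ S, ν χ * n χ + {χ | χ ∈ Irr G ∧ χ ∉ S ∧ n χ ≠ 0}.ncard := by
  classical
  have h1 : {χ | χ ∈ Irr G ∧ χ ∉ S ∧ n χ ≠ 0}
      = (((irrF G \ S).filter fun χ => n χ ≠ 0 : Finset (G → ℂ)) : Set (G → ℂ)) := by
    ext χ
    simp [mem_irrF, and_assoc]
  rw [h1, Set.ncard_coe_finset, ← Finset.sum_sdiff hS, add_comm]
  congr 1
  rw [Finset.card_eq_sum_ones, Nat.cast_sum, Finset.sum_filter]
  refine Finset.sum_congr rfl fun χ hχ => ?_
  obtain ⟨h2, h3⟩ := Finset.mem_sdiff.mp hχ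
  rcases hL χ (mem_irrF.mp h2) h3 with h | h
  · simp [h]
  · have h4 : n χ ≠ 0 := by
      intro h5
      rw [h5, mul_zero] at h
      exact zero_ne_one h
    simp [h4, h]

/-- **The classification of real functions of degree three** -/
theorem three_class (n : (G → ℂ) → ℤ) (hθ : IsSolHeilbronn (theta n : G → ℂ))
    (h1 : (theta n : G → ℂ) 1 = 3) (hr : ∀ g : G, theta n g⁻¹ = theta n g) :
    ∃ ε : G →* ℂˣ, (∀ g, ((ε g : ℂˣ) : ℂ) = tt (theta n) g) ∧ ε * ε = 1 ∧
      ((n (fun g => ((ε g : ℂˣ) : ℂ)) = 3 ∧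
          ∀ χ ∈ Irr G, χ ≠ (fun g => ((ε g : ℂˣ) : ℂ)) → n χ = 0) ∨
        (n (fun g => ((ε g : ℂˣ) : ℂ)) = 0 ∧ (∀ χ ∈ Irr G, Light n χ) ∧
          {χ | χ ∈ Irr G ∧ n χ ≠ 0}.ncard ≤ 3) ∨
        (n (fun g => ((ε g : ℂˣ) : ℂ)) = 1 ∧ ∃ μ : G →* ℂˣ, μ ≠ ε ∧ μ * μ = 1 ∧
          n (fun g => ((μ g : ℂˣ) : ℂ)) = 2 ∧
          ∀ χ ∈ Irr G, χ ≠ (fun g => ((ε g : ℂˣ) : ℂ)) → χ ≠ (fun g => ((μ g : ℂˣ) : ℂ)) →
            n χ = 0) ∨
        ((n (fun g => ((ε g : ℂˣ) : ℂ)) = 1 ∨ n (fun g => ((ε g : ℂˣ) : ℂ)) = 2) ∧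
          ∃ χ₀ ∈ Irr G, χ₀ ≠ (fun g => ((ε g : ℂˣ) : ℂ)) ∧
            ((Ort χ₀ ∧ n χ₀ = -1) ∨ (Sy χ₀ ∧ n χ₀ = 1)) ∧
            (∀ χ ∈ Irr G, χ ≠ (fun g => ((ε g : ℂˣ) : ℂ)) → χ ≠ χ₀ → Light n χ) ∧
            n (fun g => ((ε g : ℂˣ) : ℂ)) + {χ | χ ∈ Irr G ∧
              χ ≠ (fun g => ((ε g : ℂˣ) : ℂ)) ∧ χ ≠ χ₀ ∧ n χ ≠ 0}.ncard ≤ 4) ∨
        ((n (fun g => ((ε g : ℂˣ) : ℂ)) = 1 ∨ n (fun g => ((ε g : ℂˣ) : ℂ)) = 2) ∧
          ∃ χ₀ ∈ Irr G, (fun g => χ₀ g⁻¹) ≠ χ₀ ∧ n (fun g => χ₀ g⁻¹) = n χ₀ ∧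
            (n χ₀ = 1 ∨ n χ₀ = -1) ∧
            (∀ χ ∈ Irr G, χ ≠ (fun g => ((ε g : ℂˣ) : ℂ)) → χ ≠ χ₀ → χ ≠ (fun g => χ₀ g⁻¹) →
              Light n χ) ∧
            n (fun g => ((ε g : ℂˣ) : ℂ)) + {χ | χ ∈ Irr G ∧
              χ ≠ (fun g => ((ε g : ℂˣ) : ℂ)) ∧ χ ≠ χ₀ ∧ χ ≠ (fun g => χ₀ g⁻¹) ∧
                n χ ≠ 0}.ncard ≤ 3)) := by
  classical
  have : Fintype G := Fintype.ofFinite G
  have hG : (Nat.card G : ℂ) ≠ 0 := by exact_mod_cast Nat.card_pos.ne'
  obtain ⟨ε, hε⟩ := exists_tt hθ (theta_virt n) h1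
  have hεε : ε * ε = 1 := by
    ext g
    rw [MonoidHom.mul_apply, Units.val_mul, hε, tt_sq hθ h1 hr, MonoidHom.one_apply, Units.val_one]
  refine ⟨ε, hε, hεε, ?_⟩
  set E : G → ℂ := fun g => ((ε g : ℂˣ) : ℂ) with hE
  have hEI : E ∈ Irr G := irr_of_lin ε
  choose! ν hν hνs using fun χ (hχ : χ ∈ Irr G) => nu_split hχ
  have hreal : ∀ χ ∈ Irr G, n (fun g => χ g⁻¹) = n χ := fun χ hχ => n_conj n hr hχ
  have hsum := three_sum n hθ h1 hr ε hε ν hν
  rw [← hE] at hsum
  obtain ⟨-, hT, hdich⟩ := real_ineqS n hθ (r := 3) (by rw [h1]; norm_num) hreal ν hν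
  -- linear real characters are orthogonal
  have hlin : ∀ μ : G →* ℂˣ, μ * μ = 1 → ν (fun g => ((μ g : ℂˣ) : ℂ)) = 1 := by
    intro μ hμ
    have h2 := hν _ (irr_of_lin μ)
    have h3 : ∀ g : G, ((μ (g ^ 2) : ℂˣ) : ℂ) = 1 := by
      intro g
      have h4 : μ (g ^ 2) = (μ * μ) g := by rw [sq, map_mul, MonoidHom.mul_apply]
      rw [h4, hμ, MonoidHom.one_apply, Units.val_one]
    rw [finsum_congr h3, finsum_eq_sum_of_fintype, Finset.sum_const, Finset.card_univ,
      nsmul_eq_mul, mul_one, ← Nat.card_eq_fintype_card] at h2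
    have h5 : (1 : ℂ) * Nat.card G = (ν (fun g => ((μ g : ℂˣ) : ℂ)) : ℂ) * Nat.card G := by
      rw [one_mul]; exact h2
    have h6 := mul_right_cancel₀ hG h5
    exact_mod_cast h6.symm
  have hνE : ν E = 1 := hlin ε hεε
  have hnn : ∀ χ ∈ Irr G, 0 ≤ n χ * (n χ - ν χ) := by
    intro χ hχ
    rcases hνs χ hχ with ⟨h, -⟩ | ⟨h, -⟩ | ⟨h, -⟩ <;> rw [h]
    · rcases le_or_gt (n χ) 0 with h4 | h4
      · nlinarith
      · have : 0 ≤ n χ - 1 := by omega
        positivity
    · rcases le_or_gt 0 (n χ) with h4 | h4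
      · nlinarith
      · nlinarith
    · nlinarith [sq_nonneg (n χ)]
  have hlight : ∀ χ ∈ Irr G, n χ * (n χ - ν χ) = 0 → Light n χ := by
    intro χ hχ h
    rcases mul_eq_zero.mp h with h2 | h2
    · exact Or.inl h2
    · rcases hνs χ hχ with ⟨h3, h4⟩ | ⟨h3, h4⟩ | ⟨h3, -⟩
      · exact Or.inr (Or.inl ⟨h4, by omega⟩)
      · exact Or.inr (Or.inr ⟨h4, by omega⟩)
      · exact Or.inl (by omega)
  have hlight1 : ∀ χ ∈ Irr G, n χ * (n χ - ν χ) = 0 → n χ = 0 ∨ ν χ * n χ = 1 := by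
    intro χ hχ h
    rcases mul_eq_zero.mp h with h2 | h2
    · exact Or.inl h2
    · have h3 : n χ = ν χ := by omega
      rcases hνs χ hχ with ⟨h4, -⟩ | ⟨h4, -⟩ | ⟨h4, -⟩
      · right; rw [h3, h4]; norm_num
      · right; rw [h3, h4]; norm_num
      · left; rw [h3, h4]
  -- the degree
  choose! d hd using fun χ (hχ : χ ∈ Irr G) => one_nat hχ
  have hdeg : ∑ χ ∈ irrF G, n χ * d χ = 3 := by
    have h2 : ∑ χ ∈ irrF G, (n χ : ℂ) * d χ = 3 := by
      rw [← h1, theta]
      refine Finset.sum_congr rfl fun χ hχ => ?_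
      rw [(hd χ (mem_irrF.mp hχ)).2]
    exact_mod_cast h2
  rcases hdich with ⟨μ, hμ, hμ3, hμ0⟩ | ⟨-, hlt⟩
  · -- scalar
    left
    set M : G → ℂ := fun g => ((μ g : ℂˣ) : ℂ) with hM
    have hMI : M ∈ Irr G := irr_of_lin μ
    have h2 : ∑ χ ∈ irrF G, n χ * (n χ - ν χ) = n M * (n M - ν M) := by
      apply Finset.sum_eq_single_of_mem M (mem_irrF.mpr hMI)
      intro χ hχ hne
      rw [hμ0 χ (mem_irrF.mp hχ) hne, zero_mul]
    rw [h2, hμ3, hlin μ hμ] at hsum
    have h3 : n E = 3 := by push_cast at hsum; linarith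
    have h4 : E = M := by
      by_contra hne
      have := hμ0 E hEI hne
      omega
    rw [h4]
    exact ⟨by rw [hμ3]; norm_num, hμ0⟩
  · right
    have hlt := hlt le_rfl
    rw [hsum] at hlt
    push_cast at hlt
    have hE2 : n E ≤ 2 := by omega
    have hE0 : 0 ≤ n E := by
      have : 0 ≤ ∑ χ ∈ irrF G, n χ * (n χ - ν χ) :=
        Finset.sum_nonneg fun χ hχ => hnn χ (mem_irrF.mp hχ)
      omega
    have hsplit : n E * (n E - 1) + ∑ χ ∈ (irrF G).erase E, n χ * (n χ - ν χ) = 2 * n E := by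
      rw [← hsum, ← hνE]
      exact Finset.add_sum_erase _ (fun χ => n χ * (n χ - ν χ)) (mem_irrF.mpr hEI)
    have hnn' : ∀ χ ∈ (irrF G).erase E, 0 ≤ n χ * (n χ - ν χ) := fun χ hχ =>
      hnn χ (mem_irrF.mp (Finset.mem_of_mem_erase hχ))
    rcases (show n E = 0 ∨ n E = 1 ∨ n E = 2 by omega) with h0 | h12
    · left
      rw [h0] at hsum
      rw [mul_zero] at hsum
      have h2 := (Finset.sum_eq_zero_iff_of_nonneg
        (fun χ hχ => hnn χ (mem_irrF.mp hχ))).mp hsum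
      refine ⟨h0, fun χ hχ => hlight χ hχ (h2 χ (mem_irrF.mpr hχ)), ?_⟩
      have h3 := card_tot n ν ∅ (Finset.empty_subset _)
        (fun χ hχ _ => hlight1 χ hχ (h2 χ (mem_irrF.mpr hχ)))
      rw [Finset.sum_empty, zero_add] at h3
      rw [h3] at hT
      have h4 : {χ | χ ∈ Irr G ∧ χ ∉ (∅ : Finset (G → ℂ)) ∧ n χ ≠ 0}
          = {χ | χ ∈ Irr G ∧ n χ ≠ 0} := by
        ext χ; simp
      rw [h4] at hT
      exact_mod_cast hT
    · right
      have hrest : ∑ χ ∈ (irrF G).erase E, n χ * (n χ - ν χ) = 2 := by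
        rcases h12 with h | h <;> rw [h] at hsplit <;> linarith
      obtain ⟨χ₀, hχ₀F, hf0⟩ : ∃ χ ∈ (irrF G).erase E, n χ * (n χ - ν χ) ≠ 0 := by
        by_contra hcon
        push Not at hcon
        rw [Finset.sum_eq_zero hcon] at hrest
        exact absurd hrest (by norm_num)
      obtain ⟨hne0, hχ₀F'⟩ := Finset.mem_erase.mp hχ₀F
      have hχ₀ := mem_irrF.mp hχ₀F'
      have hle0 := Finset.single_le_sum (f := fun χ => n χ * (n χ - ν χ)) hnn' hχ₀F
      rw [hrest] at hle0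
      have hpos0 : 0 < n χ₀ * (n χ₀ - ν χ₀) := lt_of_le_of_ne (hnn χ₀ hχ₀) (Ne.symm hf0)
      -- all other terms vanish once those of `S` add up to two
      have hothers : ∀ S : Finset (G → ℂ), S ⊆ (irrF G).erase E →
          2 ≤ ∑ χ ∈ S, n χ * (n χ - ν χ) → ∀ χ ∈ Irr G, χ ≠ E → χ ∉ S →
            n χ * (n χ - ν χ) = 0 := by
        intro S hS h2 χ hχ hne hχS
        have hmem : χ ∈ (irrF G).erase E := Finset.mem_erase.mpr ⟨hne, mem_irrF.mpr hχ⟩
        have h3 : ∑ ψ ∈ insert χ S, n ψ * (n ψ - ν ψ)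
            ≤ ∑ ψ ∈ (irrF G).erase E, n ψ * (n ψ - ν ψ) := by
          apply Finset.sum_le_sum_of_subset_of_nonneg
          · intro ψ hψ
            rcases Finset.mem_insert.mp hψ with h | h
            · rw [h]; exact hmem
            · exact hS h
          · intro ψ hψ _
            exact hnn' ψ hψ
        rw [Finset.sum_insert hχS, hrest] at h3
        have := hnn χ hχ
        omega
      by_cases hself : (fun g => χ₀ g⁻¹) = χ₀
      · -- self-dual exceptional character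
        have htwo : n χ₀ * (n χ₀ - ν χ₀) = 2 ∧ ((ν χ₀ = 1 ∧ Ort χ₀ ∧ (n χ₀ = 2 ∨ n χ₀ = -1)) ∨
            (ν χ₀ = -1 ∧ Sy χ₀ ∧ (n χ₀ = 1 ∨ n χ₀ = -2))) := by
          rcases hνs χ₀ hχ₀ with ⟨h, h'⟩ | ⟨h, h'⟩ | ⟨-, h⟩
          · rw [h] at hpos0 hle0 ⊢
            have h2 : n χ₀ = 2 ∨ n χ₀ = -1 := by
              have h3 : n χ₀ ≤ 2 := by nlinarith
              have h4 : -1 ≤ n χ₀ := by nlinarith
              have h5 : n χ₀ ≠ 0 := by intro h; rw [h] at hpos0; norm_num at hpos0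
              have h6 : n χ₀ ≠ 1 := by intro h; rw [h] at hpos0; norm_num at hpos0
              omega
            refine ⟨?_, Or.inl ⟨rfl, h', h2⟩⟩
            rcases h2 with h2 | h2 <;> rw [h2] <;> norm_num
          · rw [h] at hpos0 hle0 ⊢
            have h2 : n χ₀ = 1 ∨ n χ₀ = -2 := by
              have h3 : n χ₀ ≤ 1 := by nlinarith
              have h4 : -2 ≤ n χ₀ := by nlinarith
              have h5 : n χ₀ ≠ 0 := by intro h; rw [h] at hpos0; norm_num at hpos0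
              have h6 : n χ₀ ≠ -1 := by intro h; rw [h] at hpos0; norm_num at hpos0
              omega
            refine ⟨?_, Or.inr ⟨rfl, h', h2⟩⟩
            rcases h2 with h2 | h2 <;> rw [h2] <;> norm_num
          · exact absurd hself h
        obtain ⟨htwo, htype⟩ := htwo
        have hoth := hothers {χ₀} (by
          intro χ hχ
          rw [Finset.mem_singleton.mp hχ]
          exact hχ₀F) (by rw [Finset.sum_singleton, htwo])
        have hoth' : ∀ χ ∈ Irr G, χ ≠ E → χ ≠ χ₀ → n χ * (n χ - ν χ) = 0 :=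
          fun χ hχ h2 h3 => hoth χ hχ h2 (by simpa using h3)
        have hpair : ({E, χ₀} : Finset (G → ℂ)) ⊆ irrF G := by
          intro χ hχ
          rcases Finset.mem_insert.mp hχ with h | h
          · rw [h]; exact mem_irrF.mpr hEI
          · rw [Finset.mem_singleton.mp h]; exact hχ₀F'
        have hcount := card_tot n ν {E, χ₀} hpair (fun χ hχ h => by
          simp only [Finset.mem_insert, Finset.mem_singleton, not_or] at h
          exact hlight1 χ hχ (hoth' χ hχ h.1 h.2))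
        rw [Finset.sum_pair (Ne.symm hne0), hνE, one_mul] at hcount
        have hset : {χ | χ ∈ Irr G ∧ χ ∉ ({E, χ₀} : Finset (G → ℂ)) ∧ n χ ≠ 0}
            = {χ | χ ∈ Irr G ∧ χ ≠ E ∧ χ ≠ χ₀ ∧ n χ ≠ 0} := by
          ext χ
          simp [and_assoc]
        rw [hset] at hcount
        rw [hcount] at hT
        set c := {χ | χ ∈ Irr G ∧ χ ≠ E ∧ χ ≠ χ₀ ∧ n χ ≠ 0}.ncard with hc
        push_cast at hT
        -- if the count is zero, the others vanish
        have hzero : c = 0 → ∀ χ ∈ Irr G, χ ≠ E → χ ≠ χ₀ → n χ = 0 := by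
          intro hc0 χ hχ h2 h3
          by_contra h4
          rw [hc, Set.ncard_eq_zero (((irr_finite (G := G)).subset fun x hx => hx.1))] at hc0
          have h5 : χ ∈ {χ | χ ∈ Irr G ∧ χ ≠ E ∧ χ ≠ χ₀ ∧ n χ ≠ 0} := ⟨hχ, h2, h3, h4⟩
          rw [hc0] at h5
          exact h5
        have hdegz : c = 0 → n E + n χ₀ * d χ₀ = 3 := by
          intro hc0
          rw [← hdeg, ← Finset.sum_subset hpair (fun χ hχ h => by
            simp only [Finset.mem_insert, Finset.mem_singleton, not_or] at h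
            rw [hzero hc0 χ (mem_irrF.mp hχ) h.1 h.2, zero_mul]), Finset.sum_pair (Ne.symm hne0)]
          have h2 : d E = 1 := by
            have h3 := (hd E hEI).2
            have h4 : E 1 = 1 := by rw [hE]; simp
            rw [h4] at h3
            exact_mod_cast h3.symm
          rw [h2]
          push_cast
          ring
        rcases htype with ⟨hν0, ho, h2 | h2⟩ | ⟨hν0, hs, h2 | h2⟩
        · -- orthogonal, double
          left
          rw [hν0, h2] at hT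
          have h3 : n E = 1 := by
            rcases h12 with h | h
            · exact h
            · exfalso; omega
          have hc0 : c = 0 := by omega
          have h4 := hdegz hc0
          rw [h3, h2] at h4
          have h5 : d χ₀ = 1 := by omega
          have h6 : χ₀ 1 = 1 := by rw [(hd χ₀ hχ₀).2, h5]; simp
          obtain ⟨μ, hμ⟩ := Pool.Agent.Q7.SZ.exists_lin hχ₀ h6
          refine ⟨h3, μ, ?_, ?_, by rw [← hμ]; exact h2, fun χ hχ h7 h8 => ?_⟩
          · rintro rfl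
            exact hne0 hμ
          · ext g
            have h7 := congrFun hself g
            rw [hμ] at h7
            have h8 : μ g⁻¹ = μ g := Units.ext h7
            rw [MonoidHom.mul_apply, MonoidHom.one_apply]
            congr 1
            rw [map_inv] at h8
            calc μ g * μ g = (μ g)⁻¹ * μ g := by rw [h8]
              _ = 1 := inv_mul_cancel _
          · exact hzero hc0 χ hχ h7 (by rw [hμ]; exact h8)
        · right; left
          rw [hν0, h2] at hT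
          exact ⟨h12, χ₀, hχ₀, hne0, Or.inl ⟨ho, h2⟩,
            fun χ hχ h3 h4 => hlight χ hχ (hoth' χ hχ h3 h4), by linarith⟩
        · right; left
          rw [hν0, h2] at hT
          exact ⟨h12, χ₀, hχ₀, hne0, Or.inr ⟨hs, h2⟩,
            fun χ hχ h3 h4 => hlight χ hχ (hoth' χ hχ h3 h4), by linarith⟩
        · exfalso
          rw [hν0, h2] at hT
          have h3 : n E = 1 := by
            rcases h12 with h | h
            · exact h
            · exfalso; omega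
          have hc0 : c = 0 := by omega
          have h4 := hdegz hc0
          rw [h3, h2] at h4
          have := (hd χ₀ hχ₀).1
          omega
      · -- a pair of exceptional characters
        right; right
        set χ₁ : G → ℂ := fun g => χ₀ g⁻¹ with hχ₁
        have hχ₁I : χ₁ ∈ Irr G := Pool.Agent.Q7.DB.irr_inv hχ₀
        have hν0 : ν χ₀ = 0 := by
          rcases hνs χ₀ hχ₀ with ⟨-, h, -⟩ | ⟨-, h, -⟩ | ⟨h, -⟩
          · exact absurd (funext h) hself
          · exact absurd (funext h) hself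
          · exact h
        have hself1 : (fun g => χ₁ g⁻¹) ≠ χ₁ := by
          intro h
          apply hself
          have h2 : (fun g => χ₁ g⁻¹) = χ₀ := by
            funext g
            rw [hχ₁]
            simp
          rw [h2] at h
          exact h.symm
        have hν1 : ν χ₁ = 0 := by
          rcases hνs χ₁ hχ₁I with ⟨-, h, -⟩ | ⟨-, h, -⟩ | ⟨h, -⟩
          · exact absurd (funext h) hself1
          · exact absurd (funext h) hself1
          · exact h
        have hne1 : χ₁ ≠ E := by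
          intro h
          apply hself1
          rw [h]
          funext g
          rw [hE]
          simp only
          have h2 : ε g⁻¹ = ε g := by
            rw [map_inv, inv_eq_iff_mul_eq_one]
            exact DFunLike.congr_fun hεε g
          rw [h2]
        have hn1 : n χ₁ = n χ₀ := hreal χ₀ hχ₀
        have hsub : ({χ₁, χ₀} : Finset (G → ℂ)) ⊆ (irrF G).erase E := by
          intro χ hχ
          rcases Finset.mem_insert.mp hχ with h | h
          · rw [h]; exact Finset.mem_erase.mpr ⟨hne1, mem_irrF.mpr hχ₁I⟩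
          · rw [Finset.mem_singleton.mp h]; exact hχ₀F
        have hsum2 := Finset.sum_le_sum_of_subset_of_nonneg hsub
          (f := fun χ => n χ * (n χ - ν χ)) (fun χ hχ _ => hnn' χ hχ)
        rw [Finset.sum_pair hself, hrest, hν0, hν1, hn1, sub_zero] at hsum2
        rw [hν0, sub_zero] at hpos0
        have hpm : n χ₀ = 1 ∨ n χ₀ = -1 := by
          have h3 : n χ₀ ≤ 1 := by nlinarith
          have h4 : -1 ≤ n χ₀ := by nlinarith
          have h5 : n χ₀ ≠ 0 := by intro h; rw [h] at hpos0; norm_num at hpos0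
          omega
        have hoth := hothers {χ₁, χ₀} hsub (by
          rw [Finset.sum_pair hself, hν0, hν1, hn1, sub_zero]
          rcases hpm with h | h <;> rw [h] <;> norm_num)
        have hoth' : ∀ χ ∈ Irr G, χ ≠ E → χ ≠ χ₀ → χ ≠ χ₁ → n χ * (n χ - ν χ) = 0 :=
          fun χ hχ h2 h3 h4 => hoth χ hχ h2 (by
            simp only [Finset.mem_insert, Finset.mem_singleton, not_or]
            exact ⟨h4, h3⟩)
        have htri : ({E, χ₁, χ₀} : Finset (G → ℂ)) ⊆ irrF G := by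
          intro χ hχ
          rcases Finset.mem_insert.mp hχ with h | h
          · rw [h]; exact mem_irrF.mpr hEI
          · exact Finset.mem_of_mem_erase (hsub h)
        have hcount := card_tot n ν {E, χ₁, χ₀} htri (fun χ hχ h => by
          simp only [Finset.mem_insert, Finset.mem_singleton, not_or] at h
          exact hlight1 χ hχ (hoth' χ hχ h.1 h.2.2 h.2.1))
        rw [Finset.sum_insert (by
          simp only [Finset.mem_insert, Finset.mem_singleton, not_or]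
          exact ⟨Ne.symm hne1, Ne.symm hne0⟩), Finset.sum_pair hself, hνE, hν0, hν1, one_mul,
          zero_mul, zero_mul, add_zero, add_zero] at hcount
        have hset : {χ | χ ∈ Irr G ∧ χ ∉ ({E, χ₁, χ₀} : Finset (G → ℂ)) ∧ n χ ≠ 0}
            = {χ | χ ∈ Irr G ∧ χ ≠ E ∧ χ ≠ χ₀ ∧ χ ≠ χ₁ ∧ n χ ≠ 0} := by
          ext χ
          simp only [Set.mem_ofPred_eq, Finset.mem_insert, Finset.mem_singleton, not_or]
          tauto
        rw [hset] at hcount
        rw [hcount] at hT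
        exact ⟨h12, χ₀, hχ₀, hself, hn1, hpm,
          fun χ hχ h3 h4 h5 => hlight χ hχ (hoth' χ hχ h3 h4 h5), by exact_mod_cast hT⟩

end

end Pool.Agent.Q290.Schur
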