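import Mathlib
import Pool.Agent.H302R3.Weak

/-!
# The kernel lemma for arbitrary finite groups
-/

set_option autoImplicit false
set_option linter.unusedSectionVars false

namespace Pool.Agent.Q290.Schur

open Pool.Agent.H302R2 Pool.Agent.H302R3

variable {G : Type} [Group G] [Finite G] {θ : G → ℂ}

/-- Sylow subgroups of the kernel -/
lemma frat_sylow (hθ : IsSolHeilbronn θ) (l : G →* ℂˣ) {e₀ : G} (he₀ : l e₀ ≠ 1)
    (h : ∀ g, l g ≠ 1 → θ g = θ 1) {p : ℕ} [Fact p.Prime] (P : Sylow p l.ker)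
    (y : G) (hy : y ∈ (P : Subgroup l.ker).map l.ker.subtype) : θ y = θ 1 := by
  classical
  set Q : Subgroup G := (P : Subgroup l.ker).map l.ker.subtype with hQ
  set N : Subgroup G := Subgroup.normalizer (Q : Set G) with hN
  have hsup : N ⊔ l.ker = ⊤ := Sylow.normalizer_sup_eq_top P
  obtain ⟨t, htN, ht⟩ : ∃ t ∈ N, l t ≠ 1 := by
    by_contra hcon
    push Not at hcon
    have h1 : N ≤ l.ker := fun t ht => MonoidHom.mem_ker.mpr (hcon t ht)
    rw [sup_eq_right.mpr h1] at hsup
    apply he₀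
    rw [← MonoidHom.mem_ker, hsup]
    trivial
  have hQN : Q ≤ N := Subgroup.le_normalizer
  have hQp : IsPGroup p Q := P.isPGroup'.map _
  let Nq : Subgroup N := Q.subgroupOf N
  have hNq : Nq.Normal := Subgroup.normal_in_normalizer
  let C : Subgroup (N ⧸ Nq) := Subgroup.zpowers (QuotientGroup.mk' Nq ⟨t, htN⟩)
  let E : Subgroup N := C.comap (QuotientGroup.mk' Nq)
  have hC : Group.IsSolvable C := sol_of_comm (zpowers_comm _)
  let f : E →* C := ((QuotientGroup.mk' Nq).comp E.subtype).codRestrict C (fun e => e.2)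
  have hker : IsPGroup p f.ker := by
    rintro ⟨⟨⟨x, hxN⟩, hxE⟩, hx⟩
    have h1 : QuotientGroup.mk' Nq ⟨x, hxN⟩ = 1 := congrArg Subtype.val (MonoidHom.mem_ker.mp hx)
    have h2 : (⟨x, hxN⟩ : N) ∈ Nq := (QuotientGroup.eq_one_iff _).mp h1
    have h3 : x ∈ Q := Subgroup.mem_subgroupOf.mp h2
    obtain ⟨k, hk⟩ := hQp ⟨x, h3⟩
    refine ⟨k, ?_⟩
    have h4 : x ^ p ^ k = 1 := congrArg Subtype.val hk
    apply Subtype.ext
    apply Subtype.ext
    apply Subtype.ext
    exact h4
  have hkers : Group.IsSolvable f.ker := by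
    have := hker.isNilpotent
    infer_instance
  have hE : Group.IsSolvable E := by
    refine Group.isSolvable_of_ker_le_range f.ker.subtype f ?_
    rw [Subgroup.range_subtype]
  have htE : (⟨t, htN⟩ : N) ∈ E := Subgroup.mem_zpowers _
  have hyN : y ∈ N := hQN hy
  have hyE : (⟨y, hyN⟩ : N) ∈ E := by
    change QuotientGroup.mk' Nq ⟨y, hyN⟩ ∈ C
    have h1 : QuotientGroup.mk' Nq ⟨y, hyN⟩ = 1 :=
      (QuotientGroup.eq_one_iff _).mpr (Subgroup.mem_subgroupOf.mpr hy)
    rw [h1]
    exact C.one_mem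
  exact hθ.kernel_lemma hE (N.subtype.comp E.subtype) (l.comp (N.subtype.comp E.subtype))
    (e₀ := ⟨⟨t, htN⟩, htE⟩) ht (fun e he => h _ he) ⟨⟨y, hyN⟩, hyE⟩

/-- elements whose powers of prime power order are trivial for `θ` -/
lemma of_prime_powers (hθ : IsSolHeilbronn θ) :
    ∀ (n : ℕ) (x : G), orderOf x = n →
      (∀ (p k : ℕ), p.Prime → ∀ y ∈ Subgroup.zpowers x, orderOf y = p ^ k → θ y = θ 1) →
      θ x = θ 1 := by
  intro n
  induction n using Nat.strong_induction_on with
  | _ n ih =>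
    intro x hx h
    by_cases hpp : ∃ p k : ℕ, p.Prime ∧ n = p ^ k
    · obtain ⟨p, k, hp, hk⟩ := hpp
      exact h p k hp x (Subgroup.mem_zpowers x) (by rw [hx, hk])
    · push Not at hpp
      have hn0 : 0 < n := by rw [← hx]; exact orderOf_pos x
      have hn1 : n ≠ 1 := by
        intro h1
        exact hpp 2 0 Nat.prime_two (by rw [h1, pow_zero])
      obtain ⟨p, hp, hpn⟩ := Nat.exists_prime_and_dvd hn1
      obtain ⟨k, m, hpm, hkm⟩ := Nat.exists_eq_pow_mul_and_not_dvd hn0.ne' p hp.ne_one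
      have hm1 : m ≠ 1 := by
        intro h1
        exact hpp p k hp (by rw [hkm, h1, mul_one])
      have hk0 : k ≠ 0 := by
        intro h1
        rw [h1, pow_zero, one_mul] at hkm
        exact hpm (hkm ▸ hpn)
      have hcop : (p ^ k).Coprime m := Nat.Coprime.pow_left k ((Nat.Prime.coprime_iff_not_dvd hp).mpr hpm)
      have hpk1 : 1 < p ^ k := Nat.one_lt_pow hk0 hp.one_lt
      have hm0 : 0 < m := Nat.pos_of_ne_zero (by
        intro h1; rw [h1, mul_zero] at hkm; omega)
      have hm1' : 1 < m := by omega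
      -- Bezout
      obtain ⟨a, ha1, ha2⟩ : ∃ a : ℕ, a ≡ 1 [MOD p ^ k] ∧ a ≡ 0 [MOD m] :=
        ⟨_, (Nat.chineseRemainder hcop 1 0).2.1, (Nat.chineseRemainder hcop 1 0).2.2⟩
      obtain ⟨b, hb1, hb2⟩ : ∃ b : ℕ, b ≡ 0 [MOD p ^ k] ∧ b ≡ 1 [MOD m] :=
        ⟨_, (Nat.chineseRemainder hcop 0 1).2.1, (Nat.chineseRemainder hcop 0 1).2.2⟩
      have hab : a + b ≡ 1 [MOD n] := by
        rw [hkm]
        apply (Nat.modEq_and_modEq_iff_modEq_mul hcop).mp
        exact ⟨(ha1.add hb1).trans (by norm_num; rfl), (ha2.add hb2).trans (by norm_num; rfl)⟩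
      have hx1 : x ^ a * x ^ b = x := by
        rw [← pow_add]
        conv_rhs => rw [← pow_one x]
        rw [pow_eq_pow_iff_modEq, hx]
        exact hab
      have hord : ∀ (c d e : ℕ), n = d * e → 1 < d → c ≡ 0 [MOD d] → orderOf (x ^ c) < n := by
        intro c d e hde hd hc
        have h1 : orderOf (x ^ c) ∣ e := by
          apply orderOf_dvd_of_pow_eq_one
          obtain ⟨c', hc'⟩ := (Nat.modEq_zero_iff_dvd.mp hc)
          rw [← pow_mul, hc', show d * c' * e = n * c' by rw [hde]; ring, pow_mul, ← hx,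
            pow_orderOf_eq_one, one_pow]
        have he : 0 < e := Nat.pos_of_ne_zero (by
          intro h1; rw [h1, mul_zero] at hde; omega)
        have h2 := Nat.le_of_dvd he h1
        calc orderOf (x ^ c) ≤ e := h2
          _ < d * e := by nlinarith
          _ = n := hde.symm
      have ha : θ (x ^ a) = θ 1 := by
        refine ih _ (hord a m (p ^ k) (by rw [hkm]; ring) hm1' ha2) (x ^ a) rfl ?_
        intro q j hq y hy hyo
        refine h q j hq y ?_ hyo
        exact (Subgroup.zpowers_le.mpr (Subgroup.pow_mem _ (Subgroup.mem_zpowers x) a)) hy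
      have hb : θ (x ^ b) = θ 1 := by
        refine ih _ (hord b (p ^ k) m hkm hpk1 hb1) (x ^ b) rfl ?_
        intro q j hq y hy hyo
        refine h q j hq y ?_ hyo
        exact (Subgroup.zpowers_le.mpr (Subgroup.pow_mem _ (Subgroup.mem_zpowers x) b)) hy
      rw [← hx1, hθ.mul_of_comm ((Commute.refl x).pow_pow a b) hb, ha]

/-- **The kernel lemma.** If `θ g = θ 1` for all `g` outside of the kernel of a nontrivial linear
character then `θ` is constant. -/
theorem frat (hθ : IsSolHeilbronn θ) (l : G →* ℂˣ) {e₀ : G} (he₀ : l e₀ ≠ 1)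
    (h : ∀ g, l g ≠ 1 → θ g = θ 1) (x : G) : θ x = θ 1 := by
  classical
  by_cases hx : l x = 1
  · apply of_prime_powers hθ _ x rfl
    intro p k hp y hy hyo
    have : Fact p.Prime := ⟨hp⟩
    have hyK : y ∈ l.ker := by
      have h1 : Subgroup.zpowers x ≤ l.ker := by
        rw [Subgroup.zpowers_le]
        exact MonoidHom.mem_ker.mpr hx
      exact h1 hy
    have hyp : IsPGroup p (Subgroup.zpowers (⟨y, hyK⟩ : l.ker)) := by
      apply IsPGroup.of_card (n := k)
      rw [Nat.card_zpowers, ← hyo, ← Subgroup.orderOf_coe]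
    obtain ⟨P, hP⟩ := hyp.exists_le_sylow
    apply frat_sylow hθ l he₀ h P y
    exact ⟨⟨y, hyK⟩, hP (Subgroup.mem_zpowers _), rfl⟩
  · exact h x hx

end Pool.Agent.Q290.Schur
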