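import Mathlib
import Pool.Agent.Q7.TZ.OR
import Pool.Agent.Q7.TZ.Shp
import Pool.Agent.W446.AS.FMain
import Pool.Agent.Q7.DB.RealArt

/-!
# The multiplicity of a symplectic character in an orthogonal representation is even
-/

set_option autoImplicit false
set_option linter.unusedSectionVars false

open scoped TensorProduct
open Representation

namespace Pool.Agent.Q290.Schur

open Pool.Agent.H302R2 Pool.Agent.H541R3.ART Pool.Agent.W446.AS Pool.Agent.Q7.TZ
  Pool.Agent.W90.Swan

/-- `χ` is the character of a symplectic representation -/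
def SympRep {G : Type} [Group G] (χ : G → ℂ) : Prop :=
  ∃ (V : Type) (_ : AddCommGroup V) (_ : Module ℂ V) (_ : FiniteDimensional ℂ V)
    (σ : Representation ℂ G V) (b : V →ₗ[ℂ] V →ₗ[ℂ] ℂ), σ.character = χ ∧
    (∀ v w, b v w = -b w v) ∧ (∀ g v w, b (σ g v) (σ g w) = b v w) ∧
    (∀ v, (∀ w, b v w = 0) → v = 0)

section

variable {G : Type} [Group G] [Fintype G] {V : Type} [AddCommGroup V] [Module ℂ V]
  [FiniteDimensional ℂ V] (ρ : Representation ℂ G V)

theorem fs_skew [IsIrreducible ρ] (hFS : ∑ g : G, ρ.character (g ^ 2) = -(Nat.card G : ℂ)) :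
    ∃ t : V ⊗[ℂ] V, t ≠ 0 ∧ (∀ g, TensorProduct.map (ρ g) (ρ g) t = t) ∧ swp V t = -t := by
  have hn : (Nat.card G : ℂ) ≠ 0 := cardG_ne
  have hsum : ∀ ν : ℂ, LinearMap.trace ℂ _ (avg2 ρ ∘ₗ swp V) = (ν : ℂ) →
      ∑ g : G, ρ.character (g ^ 2) = (Nat.card G : ℂ) * ν := by
    intro ν h
    rw [trace_avg2_swp] at h
    rw [← h, ← mul_assoc, mul_inv_cancel₀ hn, one_mul]
  rcases Nat.le_one_iff_eq_zero_or_eq_one.mp (finrank_range_avg2_le ρ) with h0 | h1
  · exfalso
    have hr : LinearMap.range (avg2 ρ) = ⊥ := Submodule.finrank_eq_zero.mp h0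
    have hz : avg2 ρ = 0 := LinearMap.range_eq_bot.mp hr
    have h1 := hsum 0 (by rw [hz]; simp)
    rw [hFS, mul_zero] at h1
    exact hn (neg_eq_zero.mp h1)
  · obtain ⟨⟨t0, ht0⟩, hne, hspan⟩ := finrank_eq_one_iff'.mp h1
    have ht0' : t0 ≠ 0 := fun h => hne (Subtype.ext h)
    have hspan' : ∀ u, ∃ c : ℂ, c • t0 = avg2 ρ u := by
      intro u
      obtain ⟨c, hc⟩ := hspan ⟨avg2 ρ u, LinearMap.mem_range_self _ _⟩
      exact ⟨c, congrArg Subtype.val hc⟩
    have ht0a : avg2 ρ t0 = t0 := by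
      obtain ⟨y, rfl⟩ := ht0
      exact avg2_avg2 ρ y
    obtain ⟨ε, hε⟩ := hspan' (swp V t0)
    have hs : swp V t0 = ε • t0 := by
      rw [hε, avg2_swp, ht0a]
    have hcomp : avg2 ρ ∘ₗ swp V = ε • avg2 ρ := by
      apply LinearMap.ext
      intro u
      obtain ⟨c, hc⟩ := hspan' u
      simp only [LinearMap.comp_apply, LinearMap.smul_apply]
      rw [avg2_swp, ← hc, map_smul, hs, smul_comm]
    have htr1 : LinearMap.trace ℂ _ (avg2 ρ) = 1 := by
      rw [trace_avg2_eq, h1]
      simp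
    have htr : LinearMap.trace ℂ _ (avg2 ρ ∘ₗ swp V) = ε := by
      rw [hcomp, map_smul, htr1]
      simp
    have h2 := hsum ε htr
    rw [hFS] at h2
    have h3 : ε = -1 := by
      apply mul_left_cancel₀ hn
      rw [← h2]
      ring
    refine ⟨t0, ht0', fun g => ?_, ?_⟩
    · rw [← ht0a]
      exact tmap_avg2 ρ g t0
    · rw [hs, h3, neg_one_smul]

end

section

variable {G : Type} [Group G] {V : Type} [AddCommGroup V] [Module ℂ V]
  [FiniteDimensional ℂ V] (ρ : Representation ℂ G V)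

theorem symp_of_tensor (hρ : ρ.IsIrreducible) {t : V ⊗[ℂ] V} (ht : t ≠ 0)
    (hinv : ∀ g, TensorProduct.map (ρ g) (ρ g) t = t) (hs : swp V t = -t)
    (hreal : ∀ g, ρ.character g⁻¹ = ρ.character g) : SympRep ρ.character := by
  have hI := (Pool.Agent.W446.AS.irred_iff ρ).mpr hρ
  have hb : ∀ (g : G) ξ η, tform t (ρ.dual g ξ) (ρ.dual g η) = tform t ξ η := by
    intro g ξ η
    have h1 : ∀ ξ : Module.Dual ℂ V, ρ.dual g ξ = ξ ∘ₗ ρ g⁻¹ := fun ξ => rfl
    rw [h1, h1, tform_map, hinv]
  have hskew : ∀ ξ η, tform t ξ η = -tform t η ξ := by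
    intro ξ η
    have h1 := tform_swp t η ξ
    rw [hs] at h1
    rw [← h1, tform_apply, tform_apply, map_neg]
  refine ⟨Module.Dual ℂ V, inferInstance, inferInstance, inferInstance, ρ.dual, tform t, ?_, hskew,
    hb, ?_⟩
  · funext g
    rw [char_dual, hreal]
  · let R : Submodule ℂ (Module.Dual ℂ V) := LinearMap.ker (tform t)
    have hR : ∀ ξ, ξ ∈ R ↔ ∀ η, tform t ξ η = 0 := by
      intro ξ
      rw [LinearMap.mem_ker]
      exact ⟨fun h η => by rw [h]; rfl, fun h => LinearMap.ext h⟩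
    have hRinv : ∀ g ξ, ξ ∈ R → ρ.dual g ξ ∈ R := by
      intro g ξ hξ
      rw [hR] at hξ ⊢
      intro η
      have h2 := hb g ξ (ρ.dual g⁻¹ η)
      have h3 : ρ.dual g (ρ.dual g⁻¹ η) = η := by
        rw [← Module.End.mul_apply, ← map_mul, mul_inv_cancel, map_one, Module.End.one_apply]
      rw [h3, hξ] at h2
      exact h2
    have hW : R.dualCoannihilator = ⊥ ∨ R.dualCoannihilator = ⊤ := by
      apply hI.2
      intro g v hv
      rw [Submodule.mem_dualCoannihilator] at hv ⊢
      intro ξ hξ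
      have h4 := hv _ (hRinv g⁻¹ ξ hξ)
      have h5 : ρ.dual g⁻¹ ξ = ξ ∘ₗ ρ (g⁻¹)⁻¹ := rfl
      rw [h5, inv_inv] at h4
      exact h4
    have h6 : R.dualCoannihilator.dualAnnihilator = R :=
      Subspace.dualCoannihilator_dualAnnihilator_eq
    rcases hW with h | h
    · exfalso
      rw [h, Submodule.dualAnnihilator_bot] at h6
      apply ht
      apply eq_zero_of_tform
      intro ξ η
      have h7 : ξ ∈ R := by rw [← h6]; exact Submodule.mem_top
      exact (hR ξ).mp h7 η
    · rw [h, Submodule.dualAnnihilator_top] at h6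
      intro ξ hξ
      have h7 : ξ ∈ R := (hR ξ).mpr hξ
      rw [← h6, Submodule.mem_bot] at h7
      exact h7

/-- symplectic characters belong to symplectic representations -/
theorem symp_rep {G : Type} [Group G] [Finite G] {χ : G → ℂ} (hχ : χ ∈ Irr G) (hs : Sy χ) :
    SympRep χ := by
  classical
  have : Fintype G := Fintype.ofFinite G
  obtain ⟨n, ρ, hρ, rfl⟩ := hχ
  have hρ' := hρ
  obtain ⟨hr, h1⟩ := hs
  rw [finsum_eq_sum_of_fintype] at h1
  obtain ⟨t, ht, hinv, hsk⟩ := fs_skew ρ h1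
  exact symp_of_tensor ρ hρ ht hinv hsk hr

/-- **Parity.** -/
theorem even_pairing {G : Type} [Group G] [Finite G] {χ ψ : G → ℂ} (ho : OrthRep χ)
    (hs : SympRep ψ) : ∃ k : ℕ, ∑ᶠ g, χ g * ψ g = 2 * k * Nat.card G := by
  classical
  have : Fintype G := Fintype.ofFinite G
  obtain ⟨V, _, _, _, σ, b, rfl, hsym, hinv, hnd, -⟩ := ho
  obtain ⟨W, _, _, _, τ, c, rfl, hsk, hinv', hnd'⟩ := hs
  let R := σ.tprod τ
  let B : (V ⊗[ℂ] W) →ₗ[ℂ] (V ⊗[ℂ] W) →ₗ[ℂ] ℂ := LinearMap.BilinForm.tensorDistrib ℂ ℂ (b ⊗ₜ c)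
  have hB : ∀ v w v' w', B (v ⊗ₜ w) (v' ⊗ₜ w') = c w w' * b v v' := fun v w v' w' => rfl
  have hBsk : ∀ x y, B x y = -B y x := by
    intro x y
    induction x using TensorProduct.induction_on with
    | zero => simp
    | add x x' hx hx' => rw [map_add, LinearMap.add_apply, hx, hx', map_add]; ring
    | tmul v w =>
      induction y using TensorProduct.induction_on with
      | zero => simp
      | add y y' hy hy' => rw [map_add, hy, hy', map_add, LinearMap.add_apply]; ring
      | tmul v' w' => rw [hB, hB, hsk w w', hsym v v']; ring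
  have hBinv : ∀ g x y, B (R g x) (R g y) = B x y := by
    intro g x y
    induction x using TensorProduct.induction_on with
    | zero => simp
    | add x x' hx hx' =>
      rw [map_add, map_add, LinearMap.add_apply, hx, hx', map_add, LinearMap.add_apply]
    | tmul v w =>
      induction y using TensorProduct.induction_on with
      | zero => simp
      | add y y' hy hy' => rw [map_add, map_add, hy, hy', map_add]
      | tmul v' w' =>
        change B (σ g v ⊗ₜ τ g w) (σ g v' ⊗ₜ τ g w') = _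
        rw [hB, hB, hinv, hinv']
  have hBnd : ∀ x, (∀ y, B x y = 0) → x = 0 := by
    intro x hx
    let e := Module.finBasis ℂ W
    let f := TensorProduct.equivFinsuppOfBasisRight (R := ℂ) (M := V) e
    have hx' : x = (f x).sum fun i m => m ⊗ₜ[ℂ] e i := by
      rw [← TensorProduct.equivFinsuppOfBasisRight_symm_apply]
      exact (f.symm_apply_apply x).symm
    have hzero : ∀ (v' : V) (i), b (f x i) v' = 0 := by
      intro v'
      have h1 : ∑ i, b (f x i) v' • e i = 0 := by
        apply hnd'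
        intro w'
        have h2 := hx (v' ⊗ₜ w')
        rw [hx', Finsupp.sum_fintype _ _ (by simp), map_sum, LinearMap.sum_apply] at h2
        rw [map_sum, LinearMap.sum_apply, ← h2]
        refine Finset.sum_congr rfl fun i _ => ?_
        rw [hB, map_smul, LinearMap.smul_apply, smul_eq_mul, mul_comm]
      exact Fintype.linearIndependent_iff.mp e.linearIndependent (fun i => b (f x i) v') h1
    have hfx : f x = 0 := by
      ext i
      exact hnd _ fun v' => hzero v' i
    exact f.map_eq_zero_iff.mp hfx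
  let β : invariants R →ₗ[ℂ] invariants R →ₗ[ℂ] ℂ :=
    LinearMap.mk₂ ℂ (fun v v' => B v v')
      (fun v₁ v₂ v' => by simp) (fun c v v' => by simp)
      (fun v v₁ v₂ => by simp) (fun c v v' => by simp)
  have hβ : ∀ v v' : invariants R, β v v' = B v v' := fun v v' => rfl
  have hG : (Nat.card G : ℂ) ≠ 0 := by exact_mod_cast Nat.card_pos.ne'
  have heven : Even (Module.finrank ℂ (invariants R)) := by
    refine even_of_skew β (fun v v' => by rw [hβ, hβ]; exact hBsk _ _) (fun v hv => ?_)
    apply Subtype.ext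
    change (v : V ⊗[ℂ] W) = 0
    apply hBnd
    intro y
    let u : V ⊗[ℂ] W := ∑ g : G, R g y
    have hu : u ∈ invariants R := by
      rw [mem_invariants]
      intro g
      change R g (∑ h : G, R h y) = ∑ h : G, R h y
      rw [map_sum, ← Equiv.sum_comp (Equiv.mulLeft g) (fun h => R h y)]
      refine Finset.sum_congr rfl fun h _ => ?_
      rw [Equiv.coe_mulLeft, map_mul, Module.End.mul_apply]
    have h1 := hv ⟨u, hu⟩
    rw [hβ] at h1
    change B v (∑ h : G, R h y) = 0 at h1
    have h2 : ∀ h : G, B v (R h y) = B v y := by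
      intro h
      have h3 := hBinv h v y
      have h4 : R h (v : V ⊗[ℂ] W) = v := (mem_invariants _ _).mp v.2 h
      rw [h4] at h3
      exact h3
    rw [map_sum, Finset.sum_congr rfl (fun h _ => h2 h), Finset.sum_const, Finset.card_univ,
      nsmul_eq_mul, ← Nat.card_eq_fintype_card] at h1
    exact (mul_eq_zero.mp h1).resolve_left hG
  obtain ⟨k, hk⟩ := heven
  refine ⟨k, ?_⟩
  have hinvt : Invertible (Nat.card G : ℂ) := invertibleOfNonzero hG
  have h1 := Representation.card_inv_mul_sum_char_eq_finrank R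
  rw [hk, inv_mul_eq_iff_eq_mul₀ hG, char_tensor] at h1
  rw [finsum_eq_sum_of_fintype]
  calc ∑ g : G, σ.character g * τ.character g = (Nat.card G : ℂ) * ((k + k : ℕ) : ℂ) := h1
    _ = _ := by push_cast; ring

end

end Pool.Agent.Q290.Schur
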