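import Mathlib
import Pool.Agent.Q290.Schur.Class3

/-!
# Twisted L-functions at real points
-/

set_option autoImplicit false
set_option linter.unusedSectionVars false

namespace Pool.Agent.Q290.Schur

open Pool.Agent.H302R2 Pool.Agent.H302R3 Pool.Agent.H541R3.ART Pool.Agent.W446.AS
  Pool.Agent.H302R5 Pool.Agent.H302R6 Pool.Agent.Q7.TZ Pool.Agent.Q7.SZ ComplexConjugate
  Filter Topology

/-- The property `L(E ⊗ χ̄, s) = conj L(E ⊗ χ, conj s)` of the twisted L-functions, near `s₀`. -/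
def Refl {G : Type} [Group G] {s₀ : ℂ} (A : TwistData G s₀) : Prop :=
  ∀ χ ∈ Irr G, A.L (fun g => conj (χ g)) =ᶠ[𝓝[≠] s₀] fun s => conj (A.L χ (conj s))

section

variable {G : Type} [Group G] [Finite G]

lemma theta_inv_of (n : (G → ℂ) → ℤ) (hn : ∀ χ ∈ Irr G, n (fun g => χ g⁻¹) = n χ) (g : G) :
    theta n g⁻¹ = theta n g := by
  classical
  unfold theta
  refine Finset.sum_nbij' (fun χ => fun g => χ g⁻¹) (fun χ => fun g => χ g⁻¹) ?_ ?_ ?_ ?_ ?_
  · intro χ hχ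
    rw [mem_irrF] at hχ ⊢
    exact Pool.Agent.Q7.DB.irr_inv hχ
  · intro χ hχ
    rw [mem_irrF] at hχ ⊢
    exact Pool.Agent.Q7.DB.irr_inv hχ
  · intro χ _
    funext g
    simp
  · intro χ _
    funext g
    simp
  · intro χ hχ
    rw [mem_irrF] at hχ
    rw [hn χ hχ]

lemma refl_ord {s₀ : ℂ} (hs : conj s₀ = s₀) {A : TwistData G s₀} (hA : Refl A) {χ : G → ℂ}
    (hχ : χ ∈ Irr G) : A.ord (fun g => χ g⁻¹) = A.ord χ := by
  have h1 : (fun g => χ g⁻¹) = fun g => conj (χ g) := by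
    funext g
    rw [heilbronn_star (irr_heilbronn hχ) g]
    rfl
  unfold TwistData.ord
  rw [h1, meromorphicOrderAt_congr (hA χ hχ),
    Pool.Agent.Q7.DB.order_reflect hs (A.mero χ hχ).1 (A.mero χ hχ).2]

/-- restriction to a subgroup -/
lemma restr (n : (G → ℂ) → ℤ) (H : Subgroup G) :
    ∃ n' : (H → ℂ) → ℤ, ∀ x : H, (theta n : G → ℂ) x = theta n' x := by
  obtain ⟨n', hn', -⟩ := virt_theta ((theta_virt n).comp H.subtype)
  exact ⟨n', fun x => congrFun hn' x⟩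

lemma lin_mult (n : (G → ℂ) → ℤ) (ψ : G →* ℂˣ) {k : ℤ}
    (hk : ∑ᶠ x : G, theta n x * (((ψ x)⁻¹ : ℂˣ) : ℂ) = (k : ℂ) * (Nat.card G : ℂ)) :
    n (fun g => ((ψ g : ℂˣ) : ℂ)) = k := by
  classical
  have : Fintype G := Fintype.ofFinite G
  have hG : (Nat.card G : ℂ) ≠ 0 := by exact_mod_cast Nat.card_pos.ne'
  have h1 := theta_pair n (irr_of_lin ψ)
  rw [finsum_eq_sum_of_fintype] at hk
  have h2 : ∑ g : G, theta n g * ((ψ g⁻¹ : ℂˣ) : ℂ) = (k : ℂ) * (Nat.card G : ℂ) := by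
    rw [← hk]
    refine Finset.sum_congr rfl fun g _ => ?_
    rw [map_inv]
  have h3 := mul_right_cancel₀ hG (h1.symm.trans h2)
  exact_mod_cast h3

/-- the orders of the L-functions of the linear characters of a subgroup -/
lemma lin_order {s₀ : ℂ} (A : TwistData G s₀) (H : Subgroup G) (ψ : H →* ℂˣ)
    {n' : (H → ℂ) → ℤ} (hn' : ∀ x : H, (theta A.ord : G → ℂ) x = theta n' x) :
    meromorphicOrderAt (A.Lin H ψ) s₀ = (n' (fun g => ((ψ g : ℂˣ) : ℂ)) : WithTop ℤ) := by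
  obtain ⟨k, hk1, hk2⟩ := A.order_mult H ψ
  rw [hk1]
  congr 1
  symm
  apply lin_mult
  rw [← hk2]
  exact finsum_congr fun x => by rw [hn']

lemma ind_lin (μ : G →* ℂˣ) (hμ : μ * μ = 1) :
    Ort (fun g => ((μ g : ℂˣ) : ℂ)) := by
  classical
  have : Fintype G := Fintype.ofFinite G
  constructor
  · intro g
    have h2 : μ g⁻¹ = μ g := by
      rw [map_inv, inv_eq_iff_mul_eq_one]
      exact DFunLike.congr_fun hμ g
    change ((μ g⁻¹ : ℂˣ) : ℂ) = ((μ g : ℂˣ) : ℂ)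
    rw [h2]
  · have h3 : ∀ g : G, ((μ (g ^ 2) : ℂˣ) : ℂ) = 1 := by
      intro g
      have h4 : μ (g ^ 2) = (μ * μ) g := by rw [sq, map_mul, MonoidHom.mul_apply]
      rw [h4, hμ, MonoidHom.one_apply, Units.val_one]
    rw [finsum_congr h3, finsum_eq_sum_of_fintype, Finset.sum_const, Finset.card_univ,
      nsmul_eq_mul, mul_one, ← Nat.card_eq_fintype_card]

lemma nu_eq {χ : G → ℂ} {ν ν' : ℤ} (h : ∑ᶠ g : G, χ (g ^ 2) = ν * Nat.card G)
    (h' : ∑ᶠ g : G, χ (g ^ 2) = ν' * Nat.card G) : ν = ν' := by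
  have hG : (Nat.card G : ℂ) ≠ 0 := by exact_mod_cast Nat.card_pos.ne'
  have := mul_right_cancel₀ hG (h.symm.trans h')
  exact_mod_cast this

/-- bounds for the single multiplicities -/
theorem bounds (n : (G → ℂ) → ℤ) (hθ : IsSolHeilbronn (theta n : G → ℂ)) {r : ℕ}
    (h1 : (theta n : G → ℂ) 1 = r) (hr : ∀ g : G, theta n g⁻¹ = theta n g) (h3 : 3 ≤ r) :
    (∃ μ : G →* ℂˣ, μ * μ = 1 ∧ n (fun g => ((μ g : ℂˣ) : ℂ)) = r ∧
        ∀ χ ∈ Irr G, χ ≠ (fun g => ((μ g : ℂˣ) : ℂ)) → n χ = 0) ∨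
      ∀ χ ∈ Irr G, (Ort χ → 2 - r ≤ n χ ∧ n χ ≤ r - 1) ∧ (Sy χ → 1 - r ≤ n χ ∧ n χ ≤ r - 2) ∧
        ((fun g => χ g⁻¹) ≠ χ → 2 * n χ ^ 2 < r * (r - 1)) := by
  classical
  choose! ν hν hνs using fun χ (hχ : χ ∈ Irr G) => nu_split hχ
  have hreal : ∀ χ ∈ Irr G, n (fun g => χ g⁻¹) = n χ := fun χ hχ => n_conj n hr hχ
  obtain ⟨-, -, hdich⟩ := real_ineqS n hθ h1 hreal ν hν
  rcases hdich with h | ⟨-, hlt⟩
  · exact Or.inl h
  right
  have hlt := hlt h3
  have h3' : (3 : ℤ) ≤ r := by exact_mod_cast h3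
  have hnn : ∀ χ ∈ irrF G, 0 ≤ n χ * (n χ - ν χ) := by
    intro χ hχ
    rcases hνs χ (mem_irrF.mp hχ) with ⟨h, -⟩ | ⟨h, -⟩ | ⟨h, -⟩ <;> rw [h]
    · rcases le_or_gt (n χ) 0 with h4 | h4
      · nlinarith
      · have : 0 ≤ n χ - 1 := by omega
        positivity
    · rcases le_or_gt 0 (n χ) with h4 | h4
      · nlinarith
      · nlinarith
    · nlinarith [sq_nonneg (n χ)]
  intro χ hχ
  have hone : n χ * (n χ - ν χ) < r * (r - 1) :=
    (Finset.single_le_sum hnn (mem_irrF.mpr hχ)).trans_lt hlt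
  refine ⟨fun h => ?_, fun h => ?_, fun h => ?_⟩
  · have h4 : ν χ = 1 := nu_eq (hν χ hχ) (by rw [h.2]; simp)
    rw [h4] at hone
    constructor
    · by_contra h5
      push Not at h5
      nlinarith
    · by_contra h5
      push Not at h5
      nlinarith
  · have h4 : ν χ = -1 := nu_eq (hν χ hχ) (by rw [h.2]; simp)
    rw [h4] at hone
    constructor
    · by_contra h5
      push Not at h5
      nlinarith
    · by_contra h5
      push Not at h5
      nlinarith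
  · have h4 : ν χ = 0 := by
      rcases hνs χ hχ with ⟨-, h5, -⟩ | ⟨-, h5, -⟩ | ⟨h5, -⟩
      · exact absurd (funext h5) h
      · exact absurd (funext h5) h
      · exact h5
    set χ' : G → ℂ := fun g => χ g⁻¹ with hχ'
    have hi : χ' ∈ Irr G := Pool.Agent.Q7.DB.irr_inv hχ
    have h5 : ν χ' = 0 := by
      apply nu_eq (hν χ' hi)
      have : Fintype G := Fintype.ofFinite G
      have h8 : ∑ᶠ g : G, χ' (g ^ 2) = ∑ᶠ g : G, χ (g ^ 2) := by
        rw [finsum_eq_sum_of_fintype, finsum_eq_sum_of_fintype]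
        rw [← Equiv.sum_comp (Equiv.inv G)]
        refine Finset.sum_congr rfl fun g _ => ?_
        rw [Equiv.inv_apply, inv_pow, hχ']
        simp
      rw [h8, hν χ hχ, h4]
    have h6 : ∑ ψ ∈ ({χ', χ} : Finset (G → ℂ)), n ψ * (n ψ - ν ψ)
        ≤ ∑ ψ ∈ irrF G, n ψ * (n ψ - ν ψ) := by
      apply Finset.sum_le_sum_of_subset_of_nonneg
      · intro ψ hψ
        rcases Finset.mem_insert.mp hψ with h | h
        · rw [h]; exact mem_irrF.mpr hi
        · rw [Finset.mem_singleton.mp h]; exact mem_irrF.mpr hχ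
      · intro ψ hψ _
        exact hnn ψ hψ
    rw [Finset.sum_pair h, h5, h4, hreal χ hχ] at h6
    have h7 := h6.trans_lt hlt
    linarith [show n χ * (n χ - 0) + n χ * (n χ - 0) = 2 * n χ ^ 2 by ring]

/-- **All fields between `K` and `M`, at real points** -/
theorem inter_fields {s₀ : ℂ} (A : TwistData G s₀)
    (hdual : ∀ χ ∈ Irr G, A.ord (fun g => χ g⁻¹) = A.ord χ) {r : ℕ}
    (hr : meromorphicOrderAt (A.Lin ⊥ 1) s₀ = (r : WithTop ℤ)) (H : Subgroup G) (ψ : H →* ℂˣ) :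
    ∃ k : ℤ, meromorphicOrderAt (A.Lin H ψ) s₀ = (k : WithTop ℤ) ∧ (r ≤ 2 → 0 ≤ k) ∧
      (ψ * ψ = 1 → -((r - 2 : ℕ) : ℤ) ≤ k) ∧
      (ψ * ψ ≠ 1 → 3 ≤ r → 2 * k ^ 2 < r * (r - 1)) := by
  classical
  obtain ⟨n', hn'⟩ := restr A.ord H
  have hord := lin_order A H ψ hn'
  set Ψ : H → ℂ := fun g => ((ψ g : ℂˣ) : ℂ) with hΨ
  have hΨI : Ψ ∈ Irr H := irr_of_lin ψ
  have hsmall : r ≤ 2 → 0 ≤ n' Ψ := by
    intro h2
    have h3 := (A.toArtin h2 hr).hecke H ψ
    have h4 : 0 ≤ meromorphicOrderAt (A.Lin H ψ) s₀ := h3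
    rw [hord] at h4
    exact_mod_cast h4
  refine ⟨n' Ψ, hord, hsmall, ?_⟩
  rcases Nat.lt_or_ge r 3 with hlt | hge
  · refine ⟨fun _ => ?_, fun _ h => absurd h (by omega)⟩
    have h3 : r - 2 = 0 := by omega
    rw [h3]
    have := hsmall (by omega)
    simpa using this
  have hθ' : IsSolHeilbronn (theta n' : H → ℂ) := by
    have h2 := A.isSol.comp H.subtype
    have h3 : (fun e : H => (theta A.ord : G → ℂ) (H.subtype e)) = theta n' := funext hn'
    rw [h3] at h2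
    exact h2
  have h1' : (theta n' : H → ℂ) 1 = r := by
    rw [← hn' 1]
    exact A.theta_one hr
  have hr' : ∀ x : H, (theta n' : H → ℂ) x⁻¹ = theta n' x := by
    intro x
    rw [← hn', ← hn']
    exact theta_inv_of A.ord hdual x
  rcases bounds n' hθ' h1' hr' hge with ⟨μ, hμ, h2, h3⟩ | h
  · have h4 : n' Ψ = r ∨ n' Ψ = 0 := by
      by_cases h : Ψ = fun g => ((μ g : ℂˣ) : ℂ)
      · left; rw [h]; exact h2
      · right; exact h3 Ψ hΨI h
    refine ⟨fun _ => ?_, fun h5 _ => ?_⟩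
    · rcases h4 with h | h <;> rw [h]
      · have : (0 : ℤ) ≤ ((r - 2 : ℕ) : ℤ) := Int.natCast_nonneg _
        have h6 : (0 : ℤ) ≤ r := Int.natCast_nonneg _
        linarith
      · have : (0 : ℤ) ≤ ((r - 2 : ℕ) : ℤ) := Int.natCast_nonneg _
        linarith
    · have h6 : n' Ψ = 0 := by
        apply h3 Ψ hΨI
        intro h
        apply h5
        have h7 : ψ = μ := by
          ext g
          exact congrFun h g
        rw [h7]
        exact hμ
      rw [h6]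
      have h7 : (3 : ℤ) ≤ r := by exact_mod_cast hge
      nlinarith
  · obtain ⟨ha, -, hc⟩ := h Ψ hΨI
    refine ⟨fun h5 => ?_, fun h5 _ => ?_⟩
    · have := (ha (ind_lin ψ h5)).1
      have h6 : ((r - 2 : ℕ) : ℤ) = (r : ℤ) - 2 := by
        have : 2 ≤ r := by omega
        push_cast [this]
        ring
      rw [h6]
      linarith
    · apply hc
      intro h
      apply h5
      ext g
      have h7 := congrFun h g
      have h8 : ψ g⁻¹ = ψ g := Units.ext h7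
      rw [MonoidHom.mul_apply, MonoidHom.one_apply]
      congr 1
      rw [map_inv] at h8
      calc ψ g * ψ g = (ψ g)⁻¹ * ψ g := by rw [h8]
        _ = 1 := inv_mul_cancel _

end

end Pool.Agent.Q290.Schur
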