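import Mathlib
import Pool.Agent.Q290.Schur.Class3
import Pool.Agent.Q290.Schur.TwReal
import Pool.Agent.Q290.Schur.LinTwo
import Pool.Agent.Q290.Schur.Frat
import Pool.Agent.Q290.Schur.Par

/-!
# Linear characters in real functions of degree three
-/

set_option autoImplicit false
set_option linter.unusedSectionVars false

namespace Pool.Agent.Q290.Schur

open Pool.Agent.H302R2 Pool.Agent.H302R3 Pool.Agent.H541R3.ART Pool.Agent.W446.AS
  Pool.Agent.H302R5 Pool.Agent.H302R6 Pool.Agent.Q7.TZ ComplexConjugate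

/-- a linear character, as a function -/
abbrev lc {G : Type} [Group G] (μ : G →* ℂˣ) : G → ℂ := fun g => ((μ g : ℂˣ) : ℂ)

section

variable {G : Type} [Group G] [Finite G]

lemma lc_inj {μ ν : G →* ℂˣ} (h : lc μ = lc ν) : μ = ν := by
  ext g
  exact congrFun h g

lemma lin_pair [Fintype G] (n : (G → ℂ) → ℤ) (μ : G →* ℂˣ) :
    ∑ g : G, theta n g * (((μ g)⁻¹ : ℂˣ) : ℂ) = n (lc μ) * Nat.card G := by
  rw [← theta_pair n (irr_of_lin μ)]
  refine Finset.sum_congr rfl fun g _ => ?_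
  rw [map_inv]

lemma lin_orth [Fintype G] (μ : G →* ℂˣ) (h : μ ≠ 1) : ∑ g : G, ((μ g : ℂˣ) : ℂ) = 0 := by
  have h1 := pair_ne (irr_of_lin μ) (irr_of_lin (1 : G →* ℂˣ)) (fun h2 => h (lc_inj h2))
  simpa using h1

lemma norm_lin (μ : G →* ℂˣ) (g : G) : ‖((μ g : ℂˣ) : ℂ)‖ = 1 := by
  have h : ((μ g : ℂˣ) : ℂ) ^ Nat.card G = 1 := by
    rw [← Units.val_pow_eq_pow_val, ← map_pow, pow_card_eq_one', map_one, Units.val_one]
  exact Complex.norm_eq_one_of_pow_eq_one h Nat.card_pos.ne'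

lemma re_lt_one {z : ℂ} (hz : ‖z‖ = 1) (h : z ≠ 1) : z.re < 1 := by
  rcases lt_or_eq_of_le ((Complex.re_le_norm z).trans_eq hz) with h1 | h1
  · exact h1
  · exfalso
    apply h
    have h2 : z.re ^ 2 + z.im ^ 2 = 1 := by
      have := Complex.sq_norm z
      rw [hz, Complex.normSq_apply] at this
      nlinarith
    apply Complex.ext
    · simpa using h1
    · rw [h1] at h2
      simp only [Complex.one_im]
      nlinarith

lemma real_val {θ : G → ℂ} (hθ : IsSolHeilbronn θ) (h1 : θ 1 = 3) (hr : ∀ g, θ g⁻¹ = θ g) (g : G) :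
    ∃ t : ℝ, θ g = t ∧ t ≤ 3 := by
  have h2 := real_conj hθ hr g
  obtain ⟨t, ht⟩ := Complex.conj_eq_iff_real.mp h2
  refine ⟨t, ht, ?_⟩
  obtain ⟨a, b, c, ha, hb, hc, hk, -⟩ := three_eig hθ h1 g
  have h3 := hk 1
  simp only [pow_one] at h3
  have h4 : t = a.re + b.re + c.re := by
    have := congrArg Complex.re (ht.symm.trans h3)
    simpa using this
  have := (Complex.re_le_norm a).trans_eq ha
  have := (Complex.re_le_norm b).trans_eq hb
  have := (Complex.re_le_norm c).trans_eq hc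
  linarith

/-- **Multiplicity two of the trivial character** -/
theorem no_two (n : (G → ℂ) → ℤ) (hθ : IsSolHeilbronn (theta n : G → ℂ))
    (h1 : (theta n : G → ℂ) 1 = 3) (hr : ∀ g : G, theta n g⁻¹ = theta n g)
    (h2 : n (lc 1) = 2) (l : G →* ℂˣ) : 0 ≤ n (lc l) := by
  classical
  have : Fintype G := Fintype.ofFinite G
  have hG : (Nat.card G : ℂ) ≠ 0 := by exact_mod_cast Nat.card_pos.ne'
  by_contra hneg
  push Not at hneg
  have hl1 : l ≠ 1 := by
    rintro rfl
    omega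
  choose t ht ht3 using real_val hθ h1 hr
  -- the sum
  have e1 : ∑ g : G, (3 - theta n g) * (1 - ((l g : ℂˣ) : ℂ))
      = (1 + n (lc l)) * (Nat.card G : ℂ) := by
    have h3 : ∑ g : G, theta n g = 2 * (Nat.card G : ℂ) := by
      have := lin_pair n (1 : G →* ℂˣ)
      rw [h2] at this
      simpa using this
    have h4 : ∑ g : G, theta n g * ((l g : ℂˣ) : ℂ) = n (lc l) * (Nat.card G : ℂ) := by
      rw [← lin_pair n l, ← Equiv.sum_comp (Equiv.inv G)]
      refine Finset.sum_congr rfl fun g _ => ?_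
      rw [Equiv.inv_apply, hr, map_inv]
    have h5 := lin_orth l hl1
    have h6 : ∀ g : G, (3 - theta n g) * (1 - ((l g : ℂˣ) : ℂ))
        = 3 - 3 * ((l g : ℂˣ) : ℂ) - theta n g + theta n g * ((l g : ℂˣ) : ℂ) := fun g => by ring
    rw [Finset.sum_congr rfl (fun g _ => h6 g), Finset.sum_add_distrib, Finset.sum_sub_distrib,
      Finset.sum_sub_distrib, ← Finset.mul_sum, h3, h4, h5, Finset.sum_const, Finset.card_univ,
      nsmul_eq_mul, ← Nat.card_eq_fintype_card]
    ring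
  have e2 : ∑ g : G, (3 - t g) * (1 - ((l g : ℂˣ) : ℂ).re) = (1 + n (lc l)) * (Nat.card G : ℝ) := by
    have := congrArg Complex.re e1
    rw [Complex.re_sum] at this
    have h7 : ((1 + (n (lc l) : ℂ)) * (Nat.card G : ℂ)).re
        = (1 + (n (lc l) : ℝ)) * (Nat.card G : ℝ) := by
      have : ((1 + (n (lc l) : ℂ)) * (Nat.card G : ℂ))
          = (((1 + (n (lc l) : ℝ)) * (Nat.card G : ℝ) : ℝ) : ℂ) := by push_cast; ring
      rw [this, Complex.ofReal_re]
    rw [h7] at this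
    rw [← this]
    refine Finset.sum_congr rfl fun g _ => ?_
    rw [ht, show (3 : ℂ) - (t g : ℂ) = ((3 - t g : ℝ) : ℂ) by push_cast; ring,
      Complex.re_ofReal_mul, Complex.sub_re, Complex.one_re]
  have hnn : ∀ g : G, 0 ≤ (3 - t g) * (1 - ((l g : ℂˣ) : ℂ).re) := by
    intro g
    have h3 := ht3 g
    have h4 := (Complex.re_le_norm ((l g : ℂˣ) : ℂ)).trans_eq (norm_lin l g)
    exact mul_nonneg (by linarith) (by linarith)
  have hle : ∑ g : G, (3 - t g) * (1 - ((l g : ℂˣ) : ℂ).re) ≤ 0 := by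
    rw [e2]
    have h3 : (1 : ℝ) + n (lc l) ≤ 0 := by
      have : n (lc l) ≤ -1 := by omega
      have h4 : (n (lc l) : ℝ) ≤ -1 := by exact_mod_cast this
      linarith
    exact mul_nonpos_of_nonpos_of_nonneg h3 (Nat.cast_nonneg _)
  have hz := (Finset.sum_eq_zero_iff_of_nonneg (fun g _ => hnn g)).mp
    (le_antisymm hle (Finset.sum_nonneg fun g _ => hnn g))
  obtain ⟨e₀, he₀⟩ : ∃ e, l e ≠ 1 := by
    by_contra hcon
    push Not at hcon
    exact hl1 (MonoidHom.ext hcon)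
  have hall := frat hθ l he₀ (fun g hg => by
    have h3 := hz g (Finset.mem_univ g)
    have h4 : ((l g : ℂˣ) : ℂ) ≠ 1 := fun h => hg (Units.ext (by rw [h, Units.val_one]))
    have h5 := re_lt_one (norm_lin l g) h4
    have h6 : t g = 3 := by
      rcases mul_eq_zero.mp h3 with h | h
      · linarith
      · linarith
    rw [ht g, h6, h1]
    norm_num)
  have h3 : ∑ g : G, theta n g = 2 * (Nat.card G : ℂ) := by
    have := lin_pair n (1 : G →* ℂˣ)
    rw [h2] at this
    simpa using this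
  rw [Finset.sum_congr rfl (fun g _ => (hall g).trans h1), Finset.sum_const, Finset.card_univ,
    nsmul_eq_mul, ← Nat.card_eq_fintype_card, mul_comm] at h3
  have h4 := mul_right_cancel₀ hG h3
  norm_num at h4

/-- sums over the kernel of a quadratic character -/
lemma sum_ker [Fintype G] (κ : G →* ℂˣ) (hκ : κ * κ = 1) [Fintype κ.ker] (F : G → ℂ) :
    2 * ∑ x : κ.ker, F x = ∑ g : G, F g * (1 + ((κ g : ℂˣ) : ℂ)) := by
  classical
  have hv : ∀ g : G, F g * (1 + ((κ g : ℂˣ) : ℂ)) = if g ∈ κ.ker then 2 * F g else 0 := by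
    intro g
    have h1 : κ g * κ g = 1 := DFunLike.congr_fun hκ g
    split_ifs with h
    · rw [MonoidHom.mem_ker.mp h, Units.val_one]
      ring
    · have h2 : ((κ g : ℂˣ) : ℂ) * ((κ g : ℂˣ) : ℂ) = 1 := by
        rw [← Units.val_mul, h1, Units.val_one]
      rcases mul_self_eq_one_iff.mp h2 with h3 | h3
      · exact absurd (MonoidHom.mem_ker.mpr (Units.ext h3)) h
      · rw [h3]
        ring
  rw [Finset.sum_congr rfl (fun g _ => hv g), ← Finset.sum_filter, Finset.mul_sum]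
  symm
  exact Finset.sum_subtype _ (by simp) (fun g => 2 * F g)

/-- restriction to the kernel of a quadratic character -/
lemma ker_mult [Fintype G] (n : (G → ℂ) → ℤ) (κ : G →* ℂˣ) (hκ : κ * κ = 1) (hκ1 : κ ≠ 1)
    {n' : (κ.ker → ℂ) → ℤ} (hn' : ∀ x : κ.ker, (theta n : G → ℂ) x = theta n' x) (ψ : G →* ℂˣ) :
    n' (lc (ψ.comp κ.ker.subtype)) = n (lc ψ) + n (lc (ψ * κ)) := by
  classical
  have : Fintype κ.ker := Fintype.ofFinite _
  have hG : (Nat.card G : ℂ) ≠ 0 := by exact_mod_cast Nat.card_pos.ne'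
  have hc : 2 * (Nat.card κ.ker : ℂ) = Nat.card G := by
    have h1 := sum_ker κ hκ (fun _ => (1 : ℂ))
    have h2 := lin_orth κ hκ1
    simp only [one_mul, Finset.sum_add_distrib, h2, Finset.sum_const, Finset.card_univ,
      nsmul_eq_mul, mul_one, add_zero, ← Nat.card_eq_fintype_card] at h1
    exact h1
  have h1 := lin_pair n' (ψ.comp κ.ker.subtype)
  have h2 := sum_ker κ hκ (fun g => theta n g * (((ψ g)⁻¹ : ℂˣ) : ℂ))
  have h3 : ∑ x : κ.ker, theta n' x * ((((ψ.comp κ.ker.subtype) x)⁻¹ : ℂˣ) : ℂ)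
      = ∑ x : κ.ker, theta n (x : G) * (((ψ x)⁻¹ : ℂˣ) : ℂ) :=
    Finset.sum_congr rfl fun x _ => by rw [hn']; rfl
  rw [← h3, h1] at h2
  have h4 : ∀ g : G, theta n g * (((ψ g)⁻¹ : ℂˣ) : ℂ) * (1 + ((κ g : ℂˣ) : ℂ))
      = theta n g * (((ψ g)⁻¹ : ℂˣ) : ℂ) + theta n g * ((((ψ * κ) g)⁻¹ : ℂˣ) : ℂ) := by
    intro g
    have h5 : (κ g)⁻¹ = κ g := by
      rw [inv_eq_iff_mul_eq_one]
      exact DFunLike.congr_fun hκ g
    rw [MonoidHom.mul_apply, mul_inv, h5, Units.val_mul]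
    ring
  rw [Finset.sum_congr rfl (fun g _ => h4 g), Finset.sum_add_distrib, lin_pair, lin_pair,
    ← add_mul] at h2
  have h5 : (n' (lc (ψ.comp κ.ker.subtype)) : ℂ) * Nat.card G
      = (n (lc ψ) + n (lc (ψ * κ)) : ℂ) * Nat.card G := by
    rw [← h2, ← hc]
    ring
  have h6 := mul_right_cancel₀ hG h5
  exact_mod_cast h6

/-- the multiplicities of the powers of a linear character -/
lemma sum_powers [Fintype G] (n : (G → ℂ) → ℤ) (l : G →* ℂˣ) [Fintype l.ker] :
    (∑ j ∈ Finset.range (orderOf l), n (lc (l ^ j)) : ℂ) * Nat.card G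
      = orderOf l * ∑ x : l.ker, theta n (x : G) := by
  classical
  have hm : l ^ orderOf l = 1 := pow_orderOf_eq_one l
  have h1 : ∀ g : G, ∑ j ∈ Finset.range (orderOf l), (((l ^ j) g)⁻¹ : ℂˣ).val
      = if g ∈ l.ker then (orderOf l : ℂ) else 0 := by
    intro g
    have h2 : ∀ j, (((l ^ j) g)⁻¹ : ℂˣ).val = ((((l g)⁻¹ : ℂˣ)) : ℂ) ^ j := by
      intro j
      rw [MonoidHom.pow_apply, ← inv_pow, Units.val_pow_eq_pow_val]
    rw [Finset.sum_congr rfl (fun j _ => h2 j)]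
    split_ifs with h
    · rw [MonoidHom.mem_ker.mp h]
      simp
    · have h3 : (((l g)⁻¹ : ℂˣ) : ℂ) ≠ 1 := by
        intro h4
        apply h
        rw [MonoidHom.mem_ker]
        have h5 : (l g)⁻¹ = 1 := Units.ext h4
        exact inv_eq_one.mp h5
      rw [geom_sum_eq h3]
      have h4 : (((l g)⁻¹ : ℂˣ) : ℂ) ^ orderOf l = 1 := by
        rw [← Units.val_pow_eq_pow_val, inv_pow, ← MonoidHom.pow_apply, hm, MonoidHom.one_apply,
          inv_one, Units.val_one]
      rw [h4, sub_self, zero_div]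
  have h2 : ∀ j, (n (lc (l ^ j)) : ℂ) * Nat.card G
      = ∑ g : G, theta n g * (((l ^ j) g)⁻¹ : ℂˣ).val := fun j => (lin_pair n (l ^ j)).symm
  rw [Finset.sum_mul, Finset.sum_congr rfl (fun j _ => h2 j), Finset.sum_comm]
  have h3 : ∀ g : G, ∑ j ∈ Finset.range (orderOf l), theta n g * (((l ^ j) g)⁻¹ : ℂˣ).val
      = if g ∈ l.ker then (orderOf l : ℂ) * theta n g else 0 := by
    intro g
    rw [← Finset.mul_sum, h1]
    split_ifs
    · ring
    · ring
  rw [Finset.sum_congr rfl (fun g _ => h3 g), ← Finset.sum_filter, Finset.mul_sum]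
  exact Finset.sum_subtype _ (by simp) (fun g => (orderOf l : ℂ) * theta n g)

end

end Pool.Agent.Q290.Schur
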