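import Mathlib
import Pool.Agent.Q290.Schur.NegA

/-!
# Linear characters in real functions of degree three, II
-/

set_option autoImplicit false
set_option linter.unusedSectionVars false

namespace Pool.Agent.Q290.Schur

open Pool.Agent.H302R2 Pool.Agent.H302R3 Pool.Agent.H541R3.ART Pool.Agent.W446.AS
  Pool.Agent.H302R5 Pool.Agent.H302R6 Pool.Agent.Q7.TZ ComplexConjugate

section

variable {G : Type} [Group G] [Finite G]

lemma low_val {θ : G → ℂ} (hθ : IsSolHeilbronn θ) (h1 : θ 1 = 3) (hr : ∀ g, θ g⁻¹ = θ g)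
    (htt : ∀ g, tt θ g = 1) (g : G) : ∃ t : ℝ, θ g = t ∧ -1 ≤ t ∧ t ≤ 3 := by
  obtain ⟨t, ht, ht3⟩ := real_val hθ h1 hr g
  obtain ⟨u, hu, hu3⟩ := real_val hθ h1 hr (g ^ 2)
  refine ⟨t, ht, ?_, ht3⟩
  have h2 := tt_rel hθ h1 hr g
  rw [hr, htt, ht, hu] at h2
  have h3 : t * t = u + 2 * (1 * t) := by exact_mod_cast h2
  by_contra h
  push Not at h
  nlinarith

lemma dual_lin (n : (G → ℂ) → ℤ) (hr : ∀ g : G, theta n g⁻¹ = theta n g) (l : G →* ℂˣ) :
    n (lc l⁻¹) = n (lc l) := by
  have h1 := n_conj n hr (irr_of_lin l)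
  rw [← h1]
  congr 1
  funext g
  change (((l⁻¹ : G →* ℂˣ) g : ℂˣ) : ℂ) = ((l g⁻¹ : ℂˣ) : ℂ)
  rw [map_inv]
  rfl

lemma ker_real (l : G →* ℂˣ) (h : ∀ g, lc l g⁻¹ = lc l g) : l * l = 1 := by
  ext g
  have h2 : l g⁻¹ = l g := Units.ext (h g)
  rw [MonoidHom.mul_apply, MonoidHom.one_apply]
  congr 1
  rw [map_inv] at h2
  calc l g * l g = (l g)⁻¹ * l g := by rw [h2]
    _ = 1 := inv_mul_cancel _

lemma mh_inv {a b : G →* ℂˣ} (h : a * b = 1) : a = b⁻¹ := by
  apply MonoidHom.ext
  intro g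
  have h2 : a g * b g = 1 := DFunLike.congr_fun h g
  rw [MonoidHom.inv_apply]
  exact eq_inv_of_mul_eq_one_left h2

/-- the sum of the multiplicities of the powers -/
lemma sum_powers_nonneg (n : (G → ℂ) → ℤ) (hθ : IsSolHeilbronn (theta n : G → ℂ))
    (h1 : (theta n : G → ℂ) 1 = 3) (hr : ∀ g : G, theta n g⁻¹ = theta n g)
    (htt : ∀ g : G, tt (theta n) g = 1) (l : G →* ℂˣ) :
    0 ≤ ∑ j ∈ Finset.range (orderOf l), n (lc (l ^ j)) := by
  classical
  have : Fintype G := Fintype.ofFinite G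
  have : Fintype l.ker := Fintype.ofFinite _
  have hG : (0 : ℝ) < (Nat.card G : ℝ) := by exact_mod_cast Nat.card_pos
  have hpos : 0 < orderOf l := by
    rw [orderOf_pos_iff, isOfFinOrder_iff_pow_eq_one]
    refine ⟨Nat.card G, Nat.card_pos, ?_⟩
    ext g
    rw [MonoidHom.pow_apply, ← map_pow, pow_card_eq_one', map_one]
    rfl
  choose t ht ht1 ht3 using low_val hθ h1 hr htt
  -- the constant function
  let e : (G → ℂ) → ℤ := fun χ => if χ = lc (1 : G →* ℂˣ) then 1 else 0
  have he : ∀ g : G, theta e g = 1 := by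
    intro g
    unfold theta
    rw [Finset.sum_eq_single (lc (1 : G →* ℂˣ))]
    · simp [e]
    · intro χ _ hne
      simp [e, hne]
    · intro h
      exact absurd (mem_irrF.mpr (irr_of_lin (1 : G →* ℂˣ))) h
  have h2 := sum_powers n l
  have h3 := sum_powers e l
  have h4 : (∑ j ∈ Finset.range (orderOf l), e (lc (l ^ j)) : ℂ) = 1 := by
    rw [Finset.sum_eq_single 0]
    · have h5 : lc (l ^ 0) = lc (1 : G →* ℂˣ) := congrArg lc (pow_zero l)
      simp only [e, if_pos h5]
      norm_num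
    · intro j hj hj0
      have : lc (l ^ j) ≠ lc (1 : G →* ℂˣ) := by
        intro h
        have h5 := lc_inj h
        have h6 := orderOf_dvd_of_pow_eq_one (x := l) (n := j) h5
        have h7 := Nat.le_of_dvd (Nat.pos_of_ne_zero hj0) h6
        have h8 := Finset.mem_range.mp hj
        omega
      simp only [e, if_neg this]
      norm_num
    · intro h
      exact absurd (Finset.mem_range.mpr hpos) h
  rw [h4] at h3
  have h5 : ((∑ j ∈ Finset.range (orderOf l), n (lc (l ^ j)) : ℤ) + 1 : ℂ) * Nat.card G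
      = orderOf l * ∑ x : l.ker, ((t (x : G) + 1 : ℝ) : ℂ) := by
    have h6 : ∀ x : l.ker, ((t (x : G) + 1 : ℝ) : ℂ) = theta n (x : G) + theta e (x : G) := by
      intro x
      rw [ht, he]
      push_cast
      ring
    rw [Finset.sum_congr rfl (fun x _ => h6 x), Finset.sum_add_distrib, mul_add, ← h2, ← h3]
    push_cast
    ring
  have h7 : ((∑ j ∈ Finset.range (orderOf l), n (lc (l ^ j)) : ℤ) + 1 : ℝ) * Nat.card G
      = orderOf l * ∑ x : l.ker, (t (x : G) + 1) := by exact_mod_cast h5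
  have h8 : 0 < ∑ x : l.ker, (t (x : G) + 1) := by
    apply Finset.sum_pos'
    · intro x _
      have := ht1 (x : G)
      linarith
    · refine ⟨1, Finset.mem_univ _, ?_⟩
      have h9 : (t 1 : ℂ) = (3 : ℝ) := by
        rw [← ht 1, h1]
        norm_num
      have h10 : t 1 = 3 := by exact_mod_cast h9
      rw [Subgroup.coe_one, h10]
      norm_num
  have h9 : (0 : ℝ) < orderOf l := by exact_mod_cast hpos
  have h10 : 0 < ((∑ j ∈ Finset.range (orderOf l), n (lc (l ^ j)) : ℤ) + 1 : ℝ) := by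
    by_contra hcon
    push Not at hcon
    have := mul_nonpos_of_nonpos_of_nonneg hcon hG.le
    rw [h7] at this
    have := mul_pos h9 h8
    linarith
  have h11 : 0 < (∑ j ∈ Finset.range (orderOf l), n (lc (l ^ j))) + 1 := by exact_mod_cast h10
  omega

/-- **Multiplicity one of the trivial character, complex linear characters** -/
theorem no_one_complex (n : (G → ℂ) → ℤ) (hθ : IsSolHeilbronn (theta n : G → ℂ))
    (h1 : (theta n : G → ℂ) 1 = 3) (hr : ∀ g : G, theta n g⁻¹ = theta n g)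
    (htt : ∀ g : G, tt (theta n) g = 1) (h11 : n (lc 1) = 1) (l : G →* ℂˣ) (hl : l * l ≠ 1)
    (hneg : n (lc l) = -1)
    (hlight : ∀ χ ∈ Irr G, χ ≠ lc 1 → χ ≠ lc l → χ ≠ lc l⁻¹ → Light n χ) : False := by
  classical
  have : Fintype G := Fintype.ofFinite G
  have hneg' : n (lc l⁻¹) = -1 := by rw [dual_lin n hr, hneg]
  have hl1 : l ≠ 1 := by
    rintro rfl
    exact hl (mul_one (1 : G →* ℂˣ))
  have hpos : 0 < orderOf l := by
    rw [orderOf_pos_iff, isOfFinOrder_iff_pow_eq_one]
    refine ⟨Nat.card G, Nat.card_pos, ?_⟩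
    ext g
    rw [MonoidHom.pow_apply, ← map_pow, pow_card_eq_one', map_one]
    rfl
  have hm1 : orderOf l ≠ 1 := fun h => hl1 (orderOf_eq_one_iff.mp h)
  have hm2 : orderOf l ≠ 2 := by
    intro h
    apply hl
    have h2 : l ^ orderOf l = 1 := pow_orderOf_eq_one l
    rw [h] at h2
    exact (sq l).symm.trans h2
  have hm : 3 ≤ orderOf l := by omega
  set m := orderOf l with hmdef
  have hp0 : l ^ 0 = 1 := pow_zero l
  have hp1 : l ^ 1 = l := pow_one l
  have hinv : l ^ (m - 1) = l⁻¹ := by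
    apply mh_inv
    have h2 : l ^ (m - 1) * l = l ^ (m - 1 + 1) := (pow_succ l (m - 1)).symm
    rw [h2, Nat.sub_add_cancel hpos]
    exact pow_orderOf_eq_one l
  -- a positive multiplicity
  obtain ⟨j, hjm, hj0, hj1, hj2, hjpos⟩ : ∃ j, j < m ∧ j ≠ 0 ∧ j ≠ 1 ∧ j ≠ m - 1 ∧
      0 < n (lc (l ^ j)) := by
    by_contra hcon
    push Not at hcon
    have h2 := sum_powers_nonneg n hθ h1 hr htt l
    have h3 : ∑ j ∈ Finset.range m, n (lc (l ^ j))
        ≤ ∑ j ∈ Finset.range m, ((if j = 0 then 1 else 0) - (if j = 1 then 1 else 0)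
          - (if j = m - 1 then 1 else 0) : ℤ) := by
      apply Finset.sum_le_sum
      intro j hj
      rw [Finset.mem_range] at hj
      rcases eq_or_ne j 0 with h4 | h4
      · rw [if_pos h4, if_neg (by omega), if_neg (by omega), h4, hp0, h11]
        norm_num
      rcases eq_or_ne j 1 with h5 | h5
      · rw [if_neg h4, if_pos h5, if_neg (by omega), h5, hp1, hneg]
        norm_num
      rcases eq_or_ne j (m - 1) with h6 | h6
      · rw [if_neg h4, if_neg h5, if_pos h6, h6, hinv, hneg']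
        norm_num
      · rw [if_neg h4, if_neg h5, if_neg h6]
        have := hcon j hj h4 h5 h6
        omega
    rw [Finset.sum_sub_distrib, Finset.sum_sub_distrib, Finset.sum_ite_eq', Finset.sum_ite_eq',
      Finset.sum_ite_eq', if_pos (Finset.mem_range.mpr (by omega)),
      if_pos (Finset.mem_range.mpr (by omega)), if_pos (Finset.mem_range.mpr (by omega))] at h3
    have h4 := h2.trans h3
    omega
  set κ := l ^ j with hκ
  have hinj : ∀ a b, a < m → b < m → l ^ a = l ^ b → a = b := by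
    intro a b ha hb h
    exact pow_injOn_Iio_orderOf ha hb h
  have hκ1 : κ ≠ 1 := by
    intro h
    exact hj0 (hinj j 0 hjm (by omega) (by rw [hp0]; exact h))
  have hκl : κ ≠ l := by
    intro h
    exact hj1 (hinj j 1 hjm (by omega) (by rw [hp1]; exact h))
  have hκi : κ ≠ l⁻¹ := by
    intro h
    exact hj2 (hinj j (m - 1) hjm (by omega) (by rw [hinv]; exact h))
  have hL := hlight (lc κ) (irr_of_lin κ) (fun h => hκ1 (lc_inj h)) (fun h => hκl (lc_inj h))
    (fun h => hκi (lc_inj h))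
  have hκn : n (lc κ) = 1 ∧ κ * κ = 1 := by
    rcases hL with h | ⟨h, h'⟩ | ⟨-, h⟩
    · omega
    · exact ⟨h', ker_real κ h.1⟩
    · omega
  obtain ⟨hκn, hκκ⟩ := hκn
  -- the other multiplicity
  have hle : n (lc (l * κ)) ≤ 0 := by
    by_contra hcon
    push Not at hcon
    have ha : l * κ ≠ 1 := by
      intro h
      apply hκi
      apply mh_inv
      apply MonoidHom.ext
      intro g
      have h2 : l g * κ g = 1 := DFunLike.congr_fun h g
      change κ g * l g = 1
      rw [mul_comm, h2]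
    have hb : l * κ ≠ l := by
      intro h
      apply hκ1
      apply MonoidHom.ext
      intro g
      have h2 : l g * κ g = l g := DFunLike.congr_fun h g
      exact mul_eq_left.mp h2
    have hc : l * κ ≠ l⁻¹ := by
      intro h
      rw [h, hneg'] at hcon
      omega
    rcases hlight (lc (l * κ)) (irr_of_lin _) (fun h => ha (lc_inj h)) (fun h => hb (lc_inj h))
      (fun h => hc (lc_inj h)) with h | ⟨h, -⟩ | ⟨-, h⟩
    · omega
    · have h2 := ker_real (l * κ) h.1
      apply hl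
      apply MonoidHom.ext
      intro g
      have h3 : l g * κ g * (l g * κ g) = 1 := DFunLike.congr_fun h2 g
      have h4 : κ g * κ g = 1 := DFunLike.congr_fun hκκ g
      change l g * l g = 1
      rw [mul_mul_mul_comm, h4, mul_one] at h3
      exact h3
    · omega
  obtain ⟨n', hn'⟩ := restr n κ.ker
  have h3 := ker_mult n κ hκκ hκ1 hn' 1
  have h4 := ker_mult n κ hκκ hκ1 hn' l
  have h5 : (1 : G →* ℂˣ).comp κ.ker.subtype = 1 := rfl
  have h6 : (1 : G →* ℂˣ) * κ = κ := one_mul κ
  rw [h5, h6, h11, hκn] at h3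
  have hθ' : IsSolHeilbronn (theta n' : κ.ker → ℂ) := by
    have h2 := hθ.comp κ.ker.subtype
    have h3 : (fun e : κ.ker => (theta n : G → ℂ) (κ.ker.subtype e)) = theta n' := funext hn'
    rw [h3] at h2
    exact h2
  have h6 := no_two n' hθ' (by rw [← hn']; exact h1) (fun x => by rw [← hn', ← hn']; exact hr x)
    (by rw [h3]; norm_num) (l.comp κ.ker.subtype)
  rw [h4, hneg] at h6
  omega

end

end Pool.Agent.Q290.Schur
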