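import Mathlib
import Pool.Agent.Q290.Schur.NegB
import Pool.Agent.Q7.SZ.Pat

/-!
# Linear characters in real functions of degree three, III: parity
-/

set_option autoImplicit false
set_option linter.unusedSectionVars false

open Representation

namespace Pool.Agent.Q290.Schur

open Pool.Agent.H302R2 Pool.Agent.H302R3 Pool.Agent.H541R3.ART Pool.Agent.W446.AS
  Pool.Agent.H302R5 Pool.Agent.H302R6 Pool.Agent.Q7.TZ Pool.Agent.Y788.V ComplexConjugate

section

variable {G : Type} [Group G] [Finite G]

lemma ort_rep {χ : G → ℂ} (hχ : χ ∈ Irr G) (h : Ort χ) : OrthRep χ := by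
  have hG : (Nat.card G : ℂ) ≠ 0 := by exact_mod_cast Nat.card_pos.ne'
  rcases trichotomy hχ with ⟨-, h2 | h2⟩ | ⟨h2, -⟩
  · exact h2.1
  · exfalso
    rw [h.2] at h2
    apply hG
    have h3 : (2 : ℂ) * (Nat.card G : ℂ) = 0 := by linear_combination h2
    exact (mul_eq_zero.mp h3).resolve_left two_ne_zero
  · exfalso
    obtain ⟨g, hg⟩ := h2
    exact hg (h.1 g)

/-- twists of characters of representations -/
lemma repchar_twist (n : (G → ℂ) → ℤ) (hn : ∀ χ ∈ Irr G, 0 ≤ n χ) (μ : G →* ℂˣ) :
    IsRepChar G (fun g => theta n g * ((μ g : ℂˣ) : ℂ)) := by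
  classical
  have h : (fun g => theta n g * ((μ g : ℂˣ) : ℂ))
      = ∑ χ ∈ irrF G, (n χ).toNat • fun g => χ g * ((μ g : ℂˣ) : ℂ) := by
    funext g
    rw [Finset.sum_apply, theta, Finset.sum_mul]
    refine Finset.sum_congr rfl fun χ hχ => ?_
    rw [Pi.smul_apply, nsmul_eq_mul]
    have h2 : ((n χ).toNat : ℂ) = (n χ : ℂ) := by
      have h3 : (((n χ).toNat : ℤ) : ℂ) = (n χ : ℂ) := by
        rw [Int.toNat_of_nonneg (hn χ (mem_irrF.mp hχ))]
      exact_mod_cast h3
    rw [h2]
    ring
  rw [h]
  refine IsRepChar.sum _ _ fun χ hχ => IsRepChar.nsmul ?_ _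
  obtain ⟨m, ρ, -, h3⟩ := exists_rep (irr_mul (mem_irrF.mp hχ) μ)
  exact ⟨Fin m → ℂ, inferInstance, inferInstance, inferInstance, ρ, h3.symm⟩

/-- the character of a representation with a nonzero invariant vector, minus one -/
lemma sub_one_heil {U : Type} [Group U] [Finite U] {f : U → ℂ} (hf : IsRepChar U f)
    (h : ∃ k : ℕ, 0 < k ∧ ∑ᶠ u, f u = k * (Nat.card U : ℂ)) : IsHeilbronn (fun u => f u - 1) := by
  classical
  have : Fintype U := Fintype.ofFinite U
  obtain ⟨V, _, _, _, σ, rfl⟩ := hf
  obtain ⟨k, hk0, hk⟩ := h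
  have hU : (Nat.card U : ℂ) ≠ 0 := by exact_mod_cast Nat.card_pos.ne'
  have hi : Invertible (Nat.card U : ℂ) := invertibleOfNonzero hU
  have h1 := Representation.card_inv_mul_sum_char_eq_finrank σ
  rw [finsum_eq_sum_of_fintype] at hk
  rw [hk, ← mul_assoc, mul_comm _ (k : ℂ), mul_assoc, inv_mul_cancel₀ hU, mul_one] at h1
  have h2 : Module.finrank ℂ (invariants σ) = k := by exact_mod_cast h1.symm
  constructor
  · intro g x
    have : σ.character (x * g * x⁻¹) = σ.character g := σ.char_conj g x
    simp only [this]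
  · intro H ψ
    have : Fintype H := Fintype.ofFinite H
    have hH : (Nat.card H : ℂ) ≠ 0 := by exact_mod_cast Nat.card_pos.ne'
    have hi' : Invertible (Nat.card H : ℂ) := invertibleOfNonzero hH
    rw [finsum_eq_sum_of_fintype]
    rcases eq_or_ne ψ 1 with rfl | hψ
    · let τ : Representation ℂ H V := σ.comp H.subtype
      have h3 := Representation.card_inv_mul_sum_char_eq_finrank τ
      rw [inv_mul_eq_iff_eq_mul₀ hH] at h3
      have h4 : Module.finrank ℂ (invariants σ) ≤ Module.finrank ℂ (invariants τ) := by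
        apply Submodule.finrank_mono
        intro v hv
        rw [mem_invariants] at hv ⊢
        intro x
        exact hv x
      obtain ⟨d, hd⟩ : ∃ d, Module.finrank ℂ (invariants τ) = d + 1 := ⟨_,
        (Nat.sub_add_cancel (by omega : 1 ≤ Module.finrank ℂ (invariants τ))).symm⟩
      refine ⟨d, ?_⟩
      have h5 : ∀ x : H, (σ.character (x : U) - 1) * ((((1 : H →* ℂˣ) x)⁻¹ : ℂˣ) : ℂ)
          = τ.character x - 1 := by
        intro x
        simp only [MonoidHom.one_apply, inv_one, Units.val_one, mul_one]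
        rfl
      rw [Finset.sum_congr rfl (fun x _ => h5 x), Finset.sum_sub_distrib, h3, hd, Finset.sum_const,
        Finset.card_univ, nsmul_eq_mul, ← Nat.card_eq_fintype_card]
      push_cast
      ring
    · have h3 : IsHeilbronn σ.character := by
        constructor
        · intro g x
          exact σ.char_conj g x
        · intro H ψ
          have : Fintype H := Fintype.ofFinite H
          have hH : (Nat.card H : ℂ) ≠ 0 := by exact_mod_cast Nat.card_pos.ne'
          have : Invertible (Nat.card H : ℂ) := invertibleOfNonzero hH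
          let τ : Representation ℂ H V := σ.comp H.subtype
          have h := Representation.card_inv_mul_sum_char_mul_char_eq_finrank (linRep ψ) τ
          refine ⟨Module.finrank ℂ (Representation.IntertwiningMap (linRep ψ) τ), ?_⟩
          rw [← h, finsum_eq_sum_of_fintype]
          have h2 : ∀ x : H, τ.character x * (linRep ψ).character x⁻¹
              = σ.character (x : U) * (((ψ x)⁻¹ : ℂˣ) : ℂ) := by
            intro x
            rw [linRep_char, map_inv]
            rfl
          rw [Finset.sum_congr rfl (fun x _ => h2 x)]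
          field_simp
      obtain ⟨m, hm⟩ := h3.mult H ψ
      refine ⟨m, ?_⟩
      rw [finsum_eq_sum_of_fintype] at hm
      have h4 : ∑ x : H, (((ψ x)⁻¹ : ℂˣ) : ℂ) = 0 := by
        have h5 : ψ⁻¹ ≠ 1 := by
          intro h6
          apply hψ
          apply MonoidHom.ext
          intro x
          have h7 : (ψ x)⁻¹ = 1 := DFunLike.congr_fun h6 x
          exact inv_eq_one.mp h7
        exact lin_orth ψ⁻¹ h5
      rw [← hm]
      simp only [sub_mul, one_mul]
      rw [Finset.sum_sub_distrib, h4, sub_zero]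

/-- **Multiplicity one of the trivial character, quadratic characters** -/
theorem no_one_real (n : (G → ℂ) → ℤ) (hθ : IsSolHeilbronn (theta n : G → ℂ))
    (h1 : (theta n : G → ℂ) 1 = 3) (hr : ∀ g : G, theta n g⁻¹ = theta n g)
    (htt : ∀ g : G, tt (theta n) g = 1) (h11 : n (lc 1) = 1) (l : G →* ℂˣ) (hl : l * l = 1)
    (hneg : n (lc l) = -1)
    (hrest : ∀ χ ∈ Irr G, χ ≠ lc 1 → χ ≠ lc l → 0 ≤ n χ) : False := by
  classical
  have : Fintype G := Fintype.ofFinite G
  have hl1 : l ≠ 1 := by
    rintro rfl
    omega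
  have hll : ∀ g, ((l g : ℂˣ) : ℂ) * ((l g : ℂˣ) : ℂ) = 1 := by
    intro g
    have : l g * l g = 1 := DFunLike.congr_fun hl g
    rw [← Units.val_mul, this, Units.val_one]
  have hlinv : ∀ g, (((l g)⁻¹ : ℂˣ) : ℂ) = ((l g : ℂˣ) : ℂ) := by
    intro g
    have : l g * l g = 1 := DFunLike.congr_fun hl g
    rw [inv_eq_of_mul_eq_one_right this]
  -- the other part of `θ`
  let m : (G → ℂ) → ℤ := fun χ => n χ - (if χ = lc 1 then 1 else 0) + (if χ = lc l then 1 else 0)
  have hne : lc (1 : G →* ℂˣ) ≠ lc l := fun h => hl1 (lc_inj h).symm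
  have hm0 : ∀ χ ∈ Irr G, 0 ≤ m χ := by
    intro χ hχ
    change 0 ≤ n χ - (if χ = lc 1 then 1 else 0) + (if χ = lc l then 1 else 0)
    rcases eq_or_ne χ (lc 1) with rfl | ha
    · rw [if_pos rfl, if_neg hne, h11]
      norm_num
    rcases eq_or_ne χ (lc l) with rfl | hb
    · rw [if_neg ha, if_pos rfl, hneg]
      norm_num
    · rw [if_neg ha, if_neg hb]
      have := hrest χ hχ ha hb
      omega
  have hmv : ∀ g : G, theta m g = theta n g - 1 + ((l g : ℂˣ) : ℂ) := by
    intro g
    have e1 : ∑ χ ∈ irrF G, ((if χ = lc 1 then 1 else 0 : ℤ) : ℂ) * χ g = 1 := by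
      rw [Finset.sum_eq_single (lc (1 : G →* ℂˣ))]
      · simp
      · intro χ _ h
        simp [h]
      · intro h
        exact absurd (mem_irrF.mpr (irr_of_lin (1 : G →* ℂˣ))) h
    have e2 : ∑ χ ∈ irrF G, ((if χ = lc l then 1 else 0 : ℤ) : ℂ) * χ g = ((l g : ℂˣ) : ℂ) := by
      rw [Finset.sum_eq_single (lc l)]
      · simp
      · intro χ _ h
        simp [h]
      · intro h
        exact absurd (mem_irrF.mpr (irr_of_lin l)) h
    have e3 : theta m g = theta n g - ∑ χ ∈ irrF G, ((if χ = lc 1 then 1 else 0 : ℤ) : ℂ) * χ g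
        + ∑ χ ∈ irrF G, ((if χ = lc l then 1 else 0 : ℤ) : ℂ) * χ g := by
      unfold theta
      rw [← Finset.sum_sub_distrib, ← Finset.sum_add_distrib]
      refine Finset.sum_congr rfl fun χ _ => ?_
      simp only [m]
      push_cast
      ring
    rw [e3, e1, e2]
  have hrep := repchar_twist m hm0 l
  -- values
  have hlt : ∀ g : G, l g = 1 ∨ ((l g : ℂˣ) : ℂ) = -1 := by
    intro g
    rcases mul_self_eq_one_iff.mp (hll g) with h | h
    · exact Or.inl (Units.ext h)
    · exact Or.inr h
  -- parity
  have hEven : Even (3 : ℤ) := by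
    refine even_of_hyper (G := G)
      (Φ := fun g => (1 - ((l g : ℂˣ) : ℂ)) * (theta n g - 1) + 2) (fun g h => ?_) (fun g => ?_)
      (fun U hU => ?_) ?_
    · have h2 : l (h * g * h⁻¹) = l g := by
        rw [map_mul, map_mul, map_inv, mul_comm (l h), mul_inv_cancel_right]
      rw [h2, hθ.conj]
    · have ht := hθ.isIntegral g
      have h2 : IsIntegral ℤ ((l g : ℂˣ) : ℂ) := by
        rcases hlt g with h | h
        · rw [h, Units.val_one]
          exact isIntegral_one
        · rw [h]
          exact isIntegral_one.neg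
      have h3 : IsIntegral ℤ (2 : ℂ) := by
        have : (2 : ℂ) = algebraMap ℤ ℂ 2 := by simp
        rw [this]
        exact isIntegral_algebraMap
      exact ((isIntegral_one.sub h2).mul (ht.sub isIntegral_one)).add h3
    · have : Fintype U := Fintype.ofFinite U
      rw [finsum_eq_sum_of_fintype]
      by_cases hUl : ∀ u : U, l (u : G) = 1
      · refine ⟨1, ?_⟩
        have h2 : ∀ u : U, (1 - ((l (u : G) : ℂˣ) : ℂ)) * (theta n (u : G) - 1) + 2 = 2 := by
          intro u
          rw [hUl u, Units.val_one]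
          ring
        rw [Finset.sum_congr rfl (fun u _ => h2 u), Finset.sum_const, Finset.card_univ,
          nsmul_eq_mul, ← Nat.card_eq_fintype_card]
        push_cast
        ring
      · set lU : U →* ℂˣ := l.comp U.subtype with hlU
        have hlU1 : lU ≠ 1 := by
          intro h
          apply hUl
          intro u
          exact DFunLike.congr_fun h u
        -- the function of degree two
        let h : U → ℂ := fun u => ((l (u : G) : ℂˣ) : ℂ) * (theta n (u : G) - 1)
        have hf : IsRepChar U (fun u => theta m (u : G) * ((l (u : G) : ℂˣ) : ℂ)) := by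
          obtain ⟨V, _, _, _, σ, hσ⟩ := hrep
          exact ⟨V, inferInstance, inferInstance, inferInstance, σ.comp U.subtype, funext fun u =>
            congrFun hσ (u : G)⟩
        have hsumlU := lin_orth lU hlU1
        obtain ⟨k, hk⟩ := hθ.mult U (Hyp.solvable hU) lU
        rw [finsum_eq_sum_of_fintype] at hk
        have hk2 : ∃ k : ℕ, 0 < k ∧ ∑ᶠ u : U, theta m (u : G) * ((l (u : G) : ℂˣ) : ℂ)
            = k * (Nat.card U : ℂ) := by
          refine ⟨k + 1, Nat.succ_pos k, ?_⟩
          rw [finsum_eq_sum_of_fintype]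
          have h2 : ∀ u : U, theta m (u : G) * ((l (u : G) : ℂˣ) : ℂ)
              = theta n (u : G) * (((lU u)⁻¹ : ℂˣ) : ℂ) - ((lU u : ℂˣ) : ℂ) + 1 := by
            intro u
            have h3 : (((lU u)⁻¹ : ℂˣ) : ℂ) = ((l (u : G) : ℂˣ) : ℂ) := hlinv (u : G)
            have h4 : ((lU u : ℂˣ) : ℂ) = ((l (u : G) : ℂˣ) : ℂ) := rfl
            rw [hmv, h3, h4]
            linear_combination hll (u : G)
          rw [Finset.sum_congr rfl (fun u _ => h2 u), Finset.sum_add_distrib,
            Finset.sum_sub_distrib, hk, hsumlU, Finset.sum_const, Finset.card_univ, nsmul_eq_mul,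
            ← Nat.card_eq_fintype_card]
          push_cast
          ring
        have hh : IsHeilbronn h := by
          have h2 := sub_one_heil hf hk2
          have h3 : (fun u : U => theta m (u : G) * ((l (u : G) : ℂˣ) : ℂ) - 1) = h := by
            funext u
            simp only [h]
            rw [hmv]
            linear_combination hll (u : G)
          rw [h3] at h2
          exact h2
        have hh1 : h 1 = 2 := by
          simp only [h, Subgroup.coe_one, map_one, Units.val_one, h1]
          norm_num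
        have hhd : ∀ u, dd h u = 1 := by
          intro u
          unfold dd
          have h2 := tt_rel hθ h1 hr (u : G)
          rw [hr, htt] at h2
          have h3 : ((l ((u ^ 2 : U) : G) : ℂˣ) : ℂ) = 1 := by
            rw [Subgroup.coe_pow, map_pow, Units.val_pow_eq_pow_val, sq, hll]
          simp only [h]
          rw [h3, Subgroup.coe_pow]
          linear_combination (1 / 2 : ℂ) * h2 + (theta n (u : G) - 1) ^ 2 / 2 * hll (u : G)
        have hstr := hyp_str _ U rfl hU h hh hh1 hhd
        obtain ⟨V₁, _, _, _, σ₁, b₁, hσ₁, hsym₁, hinv₁, hnd₁, hreal₁⟩ :=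
          ort_rep (irr_of_lin (1 : U →* ℂˣ)) (ind_lin 1 (mul_one (1 : U →* ℂˣ)))
        obtain ⟨V₂, _, _, _, σ₂, b₂, hσ₂, hsym₂, hinv₂, hnd₂, hreal₂⟩ :=
          ort_rep (irr_of_lin lU) (ind_lin lU (by
            apply MonoidHom.ext
            intro u
            exact DFunLike.congr_fun hl (u : G)))
        obtain ⟨k₁, hk₁⟩ := even_pair σ₁ b₁ hsym₁ hinv₁ hnd₁ (fun u => by
          rw [hσ₁]; exact hreal₁ u) hstr
        obtain ⟨k₂, hk₂⟩ := even_pair σ₂ b₂ hsym₂ hinv₂ hnd₂ (fun u => by
          rw [hσ₂]; exact hreal₂ u) hstr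
        rw [hσ₁] at hk₁
        rw [hσ₂] at hk₂
        have hU0 : (0 : ℝ) < Nat.card U := by exact_mod_cast Nat.card_pos
        have hk1 : k₁ ≤ 1 := by
          have h2 : ‖∑ u : U, h u * ((((1 : U →* ℂˣ) u) : ℂˣ) : ℂ)‖ ≤ ∑ u : U, (2 : ℝ) := by
            refine (norm_sum_le _ _).trans (Finset.sum_le_sum fun u _ => ?_)
            rw [MonoidHom.one_apply, Units.val_one, mul_one]
            have := hh.toSol.norm_le u
            rw [hh1] at this
            simpa using this
          rw [hk₁, Finset.sum_const, Finset.card_univ, nsmul_eq_mul, ← Nat.card_eq_fintype_card,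
            norm_mul, norm_mul, Complex.norm_natCast, Complex.norm_natCast,
            Complex.norm_ofNat] at h2
          have h3 : (k₁ : ℝ) ≤ 1 := by nlinarith
          exact_mod_cast h3
        refine ⟨k₂ + 1 - k₁, ?_⟩
        have h2 : ∀ u : U, (1 - ((l (u : G) : ℂˣ) : ℂ)) * (theta n (u : G) - 1) + 2
            = h u * ((lU u : ℂˣ) : ℂ) - h u * ((((1 : U →* ℂˣ) u) : ℂˣ) : ℂ) + 2 := by
          intro u
          have h4 : ((lU u : ℂˣ) : ℂ) = ((l (u : G) : ℂˣ) : ℂ) := rfl
          simp only [h, h4, MonoidHom.one_apply, Units.val_one]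
          linear_combination (-(theta n (u : G) - 1)) * hll (u : G)
        rw [Finset.sum_congr rfl (fun u _ => h2 u), Finset.sum_add_distrib,
          Finset.sum_sub_distrib, hk₁, hk₂, Finset.sum_const, Finset.card_univ, nsmul_eq_mul,
          ← Nat.card_eq_fintype_card]
        have h5 : ((k₂ + 1 - k₁ : ℕ) : ℂ) = (k₂ : ℂ) + 1 - k₁ := by
          rw [Nat.cast_sub (by omega)]
          push_cast
          ring
        rw [h5]
        ring
    · rw [finsum_eq_sum_of_fintype]
      have e1 : ∑ g : G, theta n g = (Nat.card G : ℂ) := by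
        have := lin_pair n (1 : G →* ℂˣ)
        rw [h11] at this
        simpa using this
      have e2 : ∑ g : G, theta n g * ((l g : ℂˣ) : ℂ) = -(Nat.card G : ℂ) := by
        have := lin_pair n l
        rw [hneg] at this
        simp only [hlinv] at this
        rw [this]
        push_cast
        ring
      have e3 := lin_orth l hl1
      have h2 : ∀ g : G, (1 - ((l g : ℂˣ) : ℂ)) * (theta n g - 1) + 2
          = theta n g - theta n g * ((l g : ℂˣ) : ℂ) + ((l g : ℂˣ) : ℂ) + 1 := fun g => by ring
      rw [Finset.sum_congr rfl (fun g _ => h2 g), Finset.sum_add_distrib, Finset.sum_add_distrib,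
        Finset.sum_sub_distrib, e1, e2, e3, Finset.sum_const, Finset.card_univ, nsmul_eq_mul,
        ← Nat.card_eq_fintype_card]
      push_cast
      ring
  exact absurd hEven (by decide)

end

end Pool.Agent.Q290.Schur
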