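import Mathlib
import Pool.Agent.Q290.Schur.NegC

/-!
# Linear characters in real functions of degree three, IV
-/

set_option autoImplicit false
set_option linter.unusedSectionVars false

open Representation

namespace Pool.Agent.Q290.Schur

open Pool.Agent.H302R2 Pool.Agent.H302R3 Pool.Agent.H541R3.ART Pool.Agent.W446.AS
  Pool.Agent.H302R5 Pool.Agent.H302R6 Pool.Agent.Q7.TZ Pool.Agent.Y788.V ComplexConjugate

section

variable {G : Type} [Group G] [Finite G]

lemma not_sy_lin (l : G →* ℂˣ) : ¬ Sy (lc l) := by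
  classical
  have : Fintype G := Fintype.ofFinite G
  have hG : (Nat.card G : ℂ) ≠ 0 := by exact_mod_cast Nat.card_pos.ne'
  intro h
  have h2 := (ind_lin l (ker_real l h.1)).2
  rw [h.2] at h2
  apply hG
  have h3 : (2 : ℂ) * (Nat.card G : ℂ) = 0 := by linear_combination -h2
  exact (mul_eq_zero.mp h3).resolve_left two_ne_zero

/-- twisting the multiplicities -/
lemma twist_mult (n : (G → ℂ) → ℤ) (ε : G →* ℂˣ) :
    ∃ n' : (G → ℂ) → ℤ, (∀ g : G, theta n' g = theta n g * (((ε g)⁻¹ : ℂˣ) : ℂ)) ∧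
      ∀ χ ∈ Irr G, n' χ = n (fun g => χ g * ((ε g : ℂˣ) : ℂ)) := by
  classical
  have : Fintype G := Fintype.ofFinite G
  have hG : (Nat.card G : ℂ) ≠ 0 := by exact_mod_cast Nat.card_pos.ne'
  obtain ⟨n', hn', -⟩ := virt_theta (virt_mul_inv (theta_virt n) ε)
  refine ⟨n', fun g => (congrFun hn' g).symm, fun χ hχ => ?_⟩
  have h1 := theta_pair n' hχ
  have h2 := theta_pair n (irr_mul hχ ε)
  have h3 : ∀ g : G, theta n' g * χ g⁻¹ = theta n g * (χ g⁻¹ * ((ε g⁻¹ : ℂˣ) : ℂ)) := by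
    intro g
    rw [← hn', map_inv]
    ring
  rw [Finset.sum_congr rfl (fun g _ => h3 g), h2] at h1
  have h4 := mul_right_cancel₀ hG h1
  exact_mod_cast h4.symm

/-- the linear characters occur with nonnegative multiplicities, determinant one -/
theorem lin_nonneg_one (n : (G → ℂ) → ℤ) (hθ : IsSolHeilbronn (theta n : G → ℂ))
    (h1 : (theta n : G → ℂ) 1 = 3) (hr : ∀ g : G, theta n g⁻¹ = theta n g)
    (htt : ∀ g : G, tt (theta n) g = 1) (hev : ∀ χ ∈ Irr G, Sy χ → Even (n χ)) (l : G →* ℂˣ) :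
    0 ≤ n (lc l) := by
  classical
  have hlight : ∀ χ ∈ Irr G, Light n χ → n χ = 0 ∨ (Ort χ ∧ n χ = 1) := by
    intro χ hχ h
    rcases h with h | h | ⟨h, h'⟩
    · exact Or.inl h
    · exact Or.inr h
    · exfalso
      have := hev χ hχ h
      rw [h'] at this
      exact absurd this (by decide)
  have hlnn : ∀ χ ∈ Irr G, Light n χ → 0 ≤ n χ := by
    intro χ hχ h
    rcases hlight χ hχ h with h | ⟨-, h⟩ <;> omega
  obtain ⟨ε, hε, -, hcase⟩ := three_class n hθ h1 hr
  have hε1 : ε = 1 := by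
    ext g
    rw [hε, htt]
    rfl
  subst hε1
  rcases hcase with ⟨h3, h0⟩ | ⟨h0, hL, -⟩ | ⟨h3, μ, -, -, hμ, h0⟩ | h | h
  · by_cases h : lc l = lc (1 : G →* ℂˣ)
    · rw [h]
      have : n (lc (1 : G →* ℂˣ)) = 3 := h3
      omega
    · rw [h0 (lc l) (irr_of_lin l) h]
  · exact hlnn _ (irr_of_lin l) (hL _ (irr_of_lin l))
  · by_cases h : lc l = lc (1 : G →* ℂˣ)
    · rw [h]
      have : n (lc (1 : G →* ℂˣ)) = 1 := h3
      omega
    by_cases h' : lc l = lc μ
    · rw [h']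
      have : n (lc μ) = 2 := hμ
      omega
    · rw [h0 (lc l) (irr_of_lin l) h h']
  · obtain ⟨h12, χ₀, hχ₀, hne, hc, hL, -⟩ := h
    by_contra hneg
    push Not at hneg
    have hl1 : lc l ≠ lc (1 : G →* ℂˣ) := by
      intro h
      rw [h] at hneg
      rcases h12 with h12 | h12
      · have : n (lc (1 : G →* ℂˣ)) = 1 := h12
        omega
      · have : n (lc (1 : G →* ℂˣ)) = 2 := h12
        omega
    have hl0 : lc l = χ₀ := by
      by_contra h
      have h2 : 0 ≤ n (lc l) := hlnn _ (irr_of_lin l) (hL _ (irr_of_lin l) hl1 h)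
      omega
    rcases h12 with h12 | h12
    · rw [← hl0] at hc hL
      rcases hc with ⟨ho, hc⟩ | ⟨-, hc⟩
      · exact no_one_real n hθ h1 hr htt h12 l (ker_real l ho.1) hc (fun χ hχ ha hb =>
          hlnn χ hχ (hL χ hχ ha hb))
      · omega
    · have := no_two n hθ h1 hr h12 l
      omega
  · obtain ⟨h12, χ₀, hχ₀, hne, hd, hc, hL, -⟩ := h
    by_contra hneg
    push Not at hneg
    have hl1 : lc l ≠ lc (1 : G →* ℂˣ) := by
      intro h
      rw [h] at hneg
      rcases h12 with h12 | h12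
      · have : n (lc (1 : G →* ℂˣ)) = 1 := h12
        omega
      · have : n (lc (1 : G →* ℂˣ)) = 2 := h12
        omega
    have hl0 : lc l = χ₀ ∨ lc l = fun g => χ₀ g⁻¹ := by
      by_contra h
      push Not at h
      have h2 : 0 ≤ n (lc l) := hlnn _ (irr_of_lin l) (hL _ (irr_of_lin l) hl1 h.1 h.2)
      omega
    have hli : (fun g => lc l g⁻¹) = lc l⁻¹ := by
      funext g
      change ((l g⁻¹ : ℂˣ) : ℂ) = (((l g)⁻¹ : ℂˣ) : ℂ)
      rw [map_inv]
    have hset : ∀ χ : G → ℂ, χ ≠ lc l → χ ≠ lc l⁻¹ → χ ≠ χ₀ ∧ χ ≠ fun g => χ₀ g⁻¹ := by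
      intro χ ha hb
      rcases hl0 with h | h
      · constructor
        · rw [← h]; exact ha
        · rw [← h, hli]; exact hb
      · have h2 : χ₀ = lc l⁻¹ := by
          rw [← hli, h]
          funext g
          simp
        constructor
        · rw [h2]; exact hb
        · rw [← h]; exact ha
    rcases h12 with h12 | h12
    · have hn : n (lc l) = -1 := by
        rcases hl0 with h | h
        · rw [h] at hneg ⊢
          rcases hc with h4 | h4 <;> omega
        · rw [h] at hneg ⊢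
          rw [hd] at hneg ⊢
          rcases hc with h4 | h4 <;> omega
      refine no_one_complex n hθ h1 hr htt h12 l ?_ hn (fun χ hχ ha hb hb' => ?_)
      · intro h
        apply hne
        have h2 : ∀ g, lc l g⁻¹ = lc l g := (ind_lin l h).1
        rcases hl0 with h3 | h3
        · rw [← h3]
          exact funext h2
        · have h4 : χ₀ = lc l := by
            funext g
            have h5 := congrFun h3 g⁻¹
            rw [inv_inv] at h5
            rw [← h5]
            exact h2 g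
          rw [h4]
          exact funext h2
      · obtain ⟨h2, h3⟩ := hset χ hb hb'
        exact hL χ hχ ha h2 h3
    · have := no_two n hθ h1 hr h12 l
      omega

/-- **Linear characters occur with nonnegative multiplicities.** -/
theorem lin_nonneg_three (n : (G → ℂ) → ℤ) (hθ : IsSolHeilbronn (theta n : G → ℂ))
    (h1 : (theta n : G → ℂ) 1 = 3) (hr : ∀ g : G, theta n g⁻¹ = theta n g)
    (hev : ∀ χ ∈ Irr G, Sy χ → Even (n χ)) (l : G →* ℂˣ) : 0 ≤ n (lc l) := by
  classical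
  obtain ⟨ε, hε⟩ := exists_tt hθ (theta_virt n) h1
  have hεε : ∀ g, ((ε g : ℂˣ) : ℂ) * ((ε g : ℂˣ) : ℂ) = 1 := by
    intro g
    rw [hε, tt_sq hθ h1 hr]
  have hεu : ∀ g, ε g * ε g = 1 := by
    intro g
    apply Units.ext
    rw [Units.val_mul, hεε, Units.val_one]
  have hεi : ∀ g, (ε g)⁻¹ = ε g := fun g => inv_eq_of_mul_eq_one_right (hεu g)
  obtain ⟨n', hv, hm⟩ := twist_mult n ε
  have hv' : ∀ g : G, theta n' g = theta n g * ((ε g : ℂˣ) : ℂ) := by
    intro g
    rw [hv, hεi]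
  have hθ' : IsSolHeilbronn (theta n' : G → ℂ) := by
    have h := hθ.twist ε
    have h2 : (fun g => theta n g * (((ε g)⁻¹ : ℂˣ) : ℂ)) = theta n' := funext fun g => (hv g).symm
    rw [h2] at h
    exact h
  have h1' : (theta n' : G → ℂ) 1 = 3 := by
    rw [hv', h1, map_one, Units.val_one, mul_one]
  have hr' : ∀ g : G, theta n' g⁻¹ = theta n' g := by
    intro g
    rw [hv', hv', hr, map_inv, hεi]
  have htt' : ∀ g : G, tt (theta n') g = 1 := by
    intro g
    have h2 : tt (theta n') g = tt (theta n) g * ((ε g : ℂˣ) : ℂ) ^ 3 := by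
      unfold tt
      rw [hv', hv', hv', map_pow, map_pow, Units.val_pow_eq_pow_val, Units.val_pow_eq_pow_val]
      ring
    rw [h2, ← hε]
    have h3 := hεε g
    calc ((ε g : ℂˣ) : ℂ) * ((ε g : ℂˣ) : ℂ) ^ 3
        = (((ε g : ℂˣ) : ℂ) * ((ε g : ℂˣ) : ℂ)) ^ 2 := by ring
      _ = 1 := by rw [h3, one_pow]
  have hev' : ∀ χ ∈ Irr G, Sy χ → Even (n' χ) := by
    intro χ hχ hs
    rw [hm χ hχ]
    apply hev _ (irr_mul hχ ε)
    constructor
    · intro g
      change χ g⁻¹ * ((ε g⁻¹ : ℂˣ) : ℂ) = χ g * ((ε g : ℂˣ) : ℂ)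
      rw [hs.1, map_inv, hεi]
    · rw [← hs.2]
      refine finsum_congr fun g => ?_
      change χ (g ^ 2) * ((ε (g ^ 2) : ℂˣ) : ℂ) = χ (g ^ 2)
      rw [map_pow, Units.val_pow_eq_pow_val, sq ((ε g : ℂˣ) : ℂ), hεε, mul_one]
  have h2 := lin_nonneg_one n' hθ' h1' hr' htt' hev' (l * ε)
  rw [hm _ (irr_of_lin (l * ε))] at h2
  have h3 : (fun g => lc (l * ε) g * ((ε g : ℂˣ) : ℂ)) = lc l := by
    funext g
    change (((l g * ε g : ℂˣ)) : ℂ) * ((ε g : ℂˣ) : ℂ) = ((l g : ℂˣ) : ℂ)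
    rw [Units.val_mul, mul_assoc, hεε, mul_one]
  rw [h3] at h2
  exact h2

lemma orth_restrict {χ : G → ℂ} (h : OrthRep χ) (H : Subgroup G) :
    OrthRep (fun x : H => χ x) := by
  obtain ⟨V, _, _, _, σ, b, rfl, hsym, hinv, hnd, hreal⟩ := h
  exact ⟨V, inferInstance, inferInstance, inferInstance, σ.comp H.subtype, b, rfl, hsym,
    fun g v w => hinv g v w, hnd, fun g => hreal g⟩

/-- **Parity passes to subgroups.** -/
theorem even_restr (n : (G → ℂ) → ℤ) (hd : ∀ χ ∈ Irr G, n (fun g => χ g⁻¹) = n χ)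
    (hev : ∀ χ ∈ Irr G, Sy χ → Even (n χ)) (H : Subgroup G) (n' : (H → ℂ) → ℤ)
    (hn' : ∀ x : H, (theta n : G → ℂ) x = theta n' x) {ψ : H → ℂ} (hψ : ψ ∈ Irr H) (hs : Sy ψ) :
    Even (n' ψ) := by
  classical
  have : Fintype G := Fintype.ofFinite G
  have : Fintype H := Fintype.ofFinite H
  have hH : (Nat.card H : ℂ) ≠ 0 := by exact_mod_cast Nat.card_pos.ne'
  -- the multiplicities of `ψ`
  have hmex : ∀ χ ∈ Irr G, ∃ k : ℤ, ∑ x : H, χ (x : G) * ψ x = k * (Nat.card H : ℂ) := by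
    intro χ hχ
    have hvχ : Virt χ := AddSubgroup.subset_closure hχ
    obtain ⟨m, hm, -⟩ := virt_theta (hvχ.comp H.subtype)
    refine ⟨m ψ, ?_⟩
    rw [← theta_pair m hψ, ← hm]
    refine Finset.sum_congr rfl fun x _ => ?_
    rw [hs.1]
    rfl
  choose! m hm using hmex
  have h1 : n' ψ = ∑ χ ∈ irrF G, n χ * m χ := by
    have h2 := theta_pair n' hψ
    have h3 : ∀ x : H, theta n' x * ψ x⁻¹ = ∑ χ ∈ irrF G, (n χ : ℂ) * (χ (x : G) * ψ x) := by
      intro x
      rw [← hn', hs.1, theta, Finset.sum_mul]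
      refine Finset.sum_congr rfl fun χ _ => by ring
    rw [Finset.sum_congr rfl (fun x _ => h3 x), Finset.sum_comm] at h2
    have h4 : ∀ χ ∈ irrF G, ∑ x : H, (n χ : ℂ) * (χ (x : G) * ψ x)
        = ((n χ * m χ : ℤ) : ℂ) * (Nat.card H : ℂ) := by
      intro χ hχ
      rw [← Finset.mul_sum, hm χ (mem_irrF.mp hχ)]
      push_cast
      ring
    rw [Finset.sum_congr rfl h4, ← Finset.sum_mul] at h2
    have h5 := mul_right_cancel₀ hH h2
    exact_mod_cast h5.symm
  rw [h1, ← ZMod.intCast_eq_zero_iff_even, Int.cast_sum]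
  have hinv : ∀ χ ∈ Irr G, (fun g => χ g⁻¹) ∈ Irr G := fun χ hχ => Pool.Agent.Q7.DB.irr_inv hχ
  have hminv : ∀ χ ∈ Irr G, m (fun g => χ g⁻¹) = m χ := by
    intro χ hχ
    have h2 := hm _ (hinv χ hχ)
    rw [← Equiv.sum_comp (Equiv.inv H)] at h2
    have h3 : ∀ x : H, χ ((((Equiv.inv H) x : H) : G))⁻¹ * ψ ((Equiv.inv H) x)
        = χ (x : G) * ψ x := by
      intro x
      rw [Equiv.inv_apply, hs.1, Subgroup.coe_inv, inv_inv]
    rw [Finset.sum_congr rfl (fun x _ => h3 x), hm χ hχ] at h2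
    have h5 := mul_right_cancel₀ hH h2
    exact_mod_cast h5.symm
  refine Finset.sum_involution (fun χ _ => fun g => χ g⁻¹) ?_ ?_ ?_ ?_
  · intro χ hχ
    rw [mem_irrF] at hχ
    rw [hd χ hχ, hminv χ hχ, ← two_mul]
    have : (2 : ZMod 2) = 0 := rfl
    rw [this, zero_mul]
  · intro χ hχ hne h
    rw [mem_irrF] at hχ
    apply hne
    rw [ZMod.intCast_eq_zero_iff_even]
    obtain ⟨ν, -, hν⟩ := nu_split hχ
    rcases hν with ⟨-, ho⟩ | ⟨-, hsy⟩ | ⟨-, hc⟩
    · apply Even.mul_left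
      obtain ⟨k, hk⟩ := even_pairing (orth_restrict (ort_rep hχ ho) H) (symp_rep hψ hs)
      rw [finsum_eq_sum_of_fintype, hm χ hχ] at hk
      have h5 := mul_right_cancel₀ hH hk
      refine ⟨k, ?_⟩
      have h6 : m χ = 2 * (k : ℤ) := by exact_mod_cast h5
      omega
    · exact (hev χ hχ hsy).mul_right _
    · exact absurd h hc
  · intro χ hχ
    rw [mem_irrF] at hχ ⊢
    exact hinv χ hχ
  · intro χ hχ
    funext g
    simp

end

end Pool.Agent.Q290.Schur
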