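import Mathlib
import Pool.Agent.Q290.Schur.NegD
import Pool.Agent.Q7.DB.Real
import Pool.Agent.Q7.SZ.Cen

/-!
# Real functions of degree at most three on solvable groups
-/

set_option autoImplicit false
set_option linter.unusedSectionVars false

open scoped commutatorElement

namespace Pool.Agent.Q290.Schur

open Pool.Agent.H302R2 Pool.Agent.H302R3 Pool.Agent.H541R3.ART Pool.Agent.W446.AS
  Pool.Agent.H302R5 Pool.Agent.H302R6 Pool.Agent.Q7.TZ Pool.Agent.Q7.DB ComplexConjugate

/-- symplectic characters occur with even multiplicities -/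
def EvP {G : Type} [Group G] (θ : G → ℂ) : Prop :=
  ∀ χ ∈ Irr G, Sy χ → ∃ k : ℤ, pr θ χ = 2 * k

section

variable {G : Type} [Group G] [Finite G] {θ : G → ℂ}

lemma EvP.pushed [Fintype G] {Y : Type} [Group Y] [Finite Y] {π : G →* Y}
    (hπ : Function.Surjective π) (h : EvP θ) : EvP (push π θ) := by
  classical
  intro ψ hψ hs
  have : Fintype Y := Fintype.ofFinite Y
  rw [pr_push hπ]
  apply h _ (infl_irr hπ hψ)
  constructor
  · intro g
    change ψ (π g⁻¹) = ψ (π g)
    rw [map_inv, hs.1]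
  · have h1 := hs.2
    rw [finsum_eq_sum_of_fintype] at h1 ⊢
    have h2 : ∀ g : G, ψ (π (g ^ 2)) = (fun y => ψ (y ^ 2)) (π g) := by
      intro g
      rw [map_pow]
    change ∑ g : G, ψ (π (g ^ 2)) = _
    rw [Finset.sum_congr rfl (fun g _ => h2 g), sum_comp_surj π hπ (fun y => ψ (y ^ 2)), h1]
    have h3 : Nat.card G = Nat.card π.ker * Nat.card Y := by
      rw [Subgroup.card_eq_card_quotient_mul_card_subgroup π.ker, mul_comm,
        Nat.card_congr (QuotientGroup.quotientKerEquivOfSurjective π hπ).toEquiv]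
    rw [h3]
    push_cast
    ring

lemma EvP.restr (hv : Virt θ) (hr : ∀ g, θ g⁻¹ = θ g) (h : EvP θ) (H : Subgroup G) :
    EvP (fun x : H => θ x) := by
  classical
  obtain ⟨n, hn, hp⟩ := virt_theta hv
  obtain ⟨n', hn', hp'⟩ := virt_theta (hv.comp H.subtype)
  intro ψ hψ hs
  have h1 := hp' ψ hψ
  have h2 : Even (n' ψ) := by
    refine even_restr n (fun χ hχ => n_conj n (fun g => ?_) hχ) (fun χ hχ hsχ => ?_) H n' ?_ hψ hs
    · rw [← hn, hr]
    · obtain ⟨k, hk⟩ := h χ hχ hsχ
      rw [hp χ hχ] at hk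
      have h3 : n χ = 2 * k := by exact_mod_cast hk
      exact ⟨k, by omega⟩
    · intro x
      rw [← hn, ← hn']
      rfl
  obtain ⟨k, hk⟩ := h2
  refine ⟨k, ?_⟩
  change pr (fun x : H => θ (H.subtype x)) ψ = _
  rw [h1, hk]
  push_cast
  ring

/-- degree at most one -/
lemma nat_of_le_one {τ : G → ℂ} (hτ : IsHeilbronn τ) {a : ℕ} (ha : τ 1 = a) (ha1 : a ≤ 1)
    {χ : G → ℂ} (hχ : χ ∈ Irr G) : ∃ k : ℕ, pr τ χ = k := by
  classical
  rcases Nat.le_one_iff_eq_zero_or_eq_one.mp ha1 with h | h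
  · refine ⟨0, ?_⟩
    have h1 : τ = 0 := by
      funext g
      have h2 := hτ.norm_le g
      rw [ha, h] at h2
      simpa using h2
    rw [h1, pr_zero_left]
    simp
  · obtain ⟨ψ, hψ⟩ := hτ.deg_one (by rw [ha, h]; simp)
    have h1 : τ = lc ψ := funext hψ
    by_cases h2 : lc ψ = χ
    · refine ⟨1, ?_⟩
      rw [h1, h2, pr_self hχ]
      simp
    · refine ⟨0, ?_⟩
      rw [h1, pr_ne (irr_of_lin ψ) hχ h2]
      simp

/-- degree at most two -/
lemma nat_of_le_two {τ : G → ℂ} (hτ : IsHeilbronn τ) (hv : Virt τ) (hr : ∀ g, τ g⁻¹ = τ g)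
    (hev : EvP τ) {a : ℕ} (ha : τ 1 = a) (ha1 : a ≤ 2) {χ : G → ℂ} (hχ : χ ∈ Irr G) :
    ∃ k : ℕ, pr τ χ = k := by
  classical
  rcases Nat.lt_or_ge a 2 with h | h
  · exact nat_of_le_one hτ ha (by omega) hχ
  · have h2 : a = 2 := by omega
    subst h2
    obtain ⟨n, hn, hp⟩ := virt_theta hv
    obtain ⟨-, -, -, hnn, -⟩ := Pool.Agent.Q7.SZ.central_nonneg n (by rw [← hn]; exact hτ.toSol)
      (by rw [← hn, ha]; norm_num) (by rw [← hn]; exact hr) (fun χ hχ hs => by
        obtain ⟨k, hk⟩ := hev χ hχ hs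
        rw [hp χ hχ] at hk
        have h3 : n χ = 2 * k := by exact_mod_cast hk
        exact ⟨k, by omega⟩)
    have h3 := hnn χ hχ
    obtain ⟨k, hk⟩ := Int.eq_ofNat_of_zero_le h3
    exact ⟨k, by rw [hp χ hχ, hk]; simp⟩

/-- in a solvable nonabelian group there is a nontrivial abelian normal subgroup inside the
commutator subgroup -/
lemma exists_abel_comm (hsol : Group.IsSolvable G) (hZ : Subgroup.center G ≠ ⊤) :
    ∃ A : Subgroup G, A.Normal ∧ (∀ a ∈ A, ∀ b ∈ A, a * b = b * a) ∧ A ≠ ⊥ ∧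
      A ≤ commutator G := by
  classical
  obtain ⟨N, hN⟩ := hsol.solvable
  have hex : ∃ k, derivedSeries G k = ⊥ := ⟨N, hN⟩
  set k := Nat.find hex with hk
  have hk0 : derivedSeries G k = ⊥ := Nat.find_spec hex
  have h1 : commutator G ≠ ⊥ := by
    intro h
    apply hZ
    rw [eq_top_iff]
    intro x _
    rw [Subgroup.mem_center_iff]
    intro g
    have h2 : ⁅g, x⁆ ∈ commutator G := by
      rw [commutator_def]
      exact Subgroup.commutator_mem_commutator (Subgroup.mem_top _) (Subgroup.mem_top _)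
    rw [h, Subgroup.mem_bot, commutatorElement_eq_one_iff_mul_comm] at h2
    exact h2
  have hk2 : 2 ≤ k := by
    by_contra hcon
    have h3 : k = 0 ∨ k = 1 := by omega
    rcases h3 with h3 | h3
    · rw [h3, derivedSeries_zero] at hk0
      apply h1
      rw [eq_bot_iff, ← hk0]
      exact le_top
    · rw [h3] at hk0
      apply h1
      rw [← derivedSeries_one]
      exact hk0
  refine ⟨derivedSeries G (k - 1), inferInstance, ?_, ?_, ?_⟩
  · intro a ha b hb
    have h2 : ⁅a, b⁆ ∈ derivedSeries G (k - 1 + 1) := by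
      rw [derivedSeries_succ]
      exact Subgroup.commutator_mem_commutator ha hb
    rw [Nat.sub_add_cancel (by omega), hk0, Subgroup.mem_bot,
      commutatorElement_eq_one_iff_mul_comm] at h2
    exact h2
  · exact Nat.find_min hex (by omega)
  · rw [← derivedSeries_one]
    exact derivedSeries_antitone G (by omega)

theorem solmain : ∀ (N : ℕ) (G : Type) [Group G] [Finite G], Nat.card G = N →
    Group.IsSolvable G → ∀ θ : G → ℂ, IsHeilbronn θ → Virt θ →
    (∀ g, θ g⁻¹ = θ g) → (∃ a : ℕ, a ≤ 3 ∧ θ 1 = a) → EvP θ →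
    ∀ χ ∈ Irr G, ∃ k : ℕ, pr θ χ = k := by
  classical
  intro N
  induction N using Nat.strong_induction_on with
  | _ N ih =>
  intro G _ _ hN hsol θ hθ hvirt hreal hdeg hev χ hχ
  have : Fintype G := Fintype.ofFinite G
  obtain ⟨m, ρ, hρ, rfl⟩ := exists_rep hχ
  obtain ⟨s, hsr, hs⟩ := hdeg
  -- the kernel
  by_cases hfaith : ∀ g, ρ g = 1 → g = 1
  swap
  · push Not at hfaith
    obtain ⟨g, hg, hg1⟩ := hfaith
    let Nk : Subgroup G := MonoidHom.ker ρ
    let π : G →* G ⧸ Nk := QuotientGroup.mk' Nk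
    have hπ : Function.Surjective π := QuotientGroup.mk'_surjective Nk
    have hker : π.ker = Nk := QuotientGroup.ker_mk' Nk
    obtain ⟨ψ, hψ, h1⟩ := descend_irr hπ hρ (by
      intro x hx
      rw [hker] at hx
      exact hx)
    have hcard : Nat.card (G ⧸ Nk) < N := by
      rw [← hN, Subgroup.card_eq_card_quotient_mul_card_subgroup Nk]
      have h2 : 1 < Nat.card Nk := by
        have : Nontrivial Nk := ⟨⟨g, hg⟩, 1, fun h => hg1 (congrArg Subtype.val h)⟩
        exact Finite.one_lt_card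
      have h3 : 0 < Nat.card (G ⧸ Nk) := Nat.card_pos
      nlinarith
    obtain ⟨k, hk⟩ := ih _ hcard (G ⧸ Nk) rfl inferInstance (push π θ)
      (push_isHeilbronn hπ hθ) (Virt.push hπ hvirt) (push_real π hreal) (by
        obtain ⟨r', h2, h3⟩ := push_one_nat_le hπ hθ hs
        exact ⟨r', h2.trans hsr, h3⟩) (hev.pushed hπ) ψ hψ
    refine ⟨k, ?_⟩
    rw [← hk, pr_push hπ]
    congr 1
    funext g
    exact h1 g
  -- Clifford
  by_cases hab : ∀ A : Subgroup G, A.Normal → (∀ a ∈ A, ∀ b ∈ A, a * b = b * a) →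
      A ≤ Subgroup.center G
  swap
  · push Not at hab
    obtain ⟨A, hAn, hAc, hA⟩ := hab
    obtain ⟨H, hH, ψ, hψ, h1⟩ := clifford hρ hfaith A
      (fun a b => Subtype.ext (hAc a a.2 b b.2)) hA
    have hcard : Nat.card H < N := by
      rw [← hN]
      refine lt_of_le_of_ne (Subgroup.card_le_card_group H) fun h2 => hH ?_
      exact Subgroup.eq_top_of_card_eq H h2
    obtain ⟨k, hk⟩ := ih _ hcard H rfl inferInstance (fun x => θ x)
      (hθ.comp H.subtype) (hvirt.comp H.subtype) (fun g => hreal g) ⟨s, hsr, by simpa using hs⟩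
      (hev.restr hvirt hreal H) ψ hψ
    obtain ⟨a, b, ha, hb, hab⟩ := h1 θ hθ.conj
    obtain ⟨l, hl⟩ := hvirt.pr_int hχ
    rw [hl, hk] at hab
    have h2 : (a : ℤ) * l = b * k := by exact_mod_cast hab
    have h3 : 0 ≤ l := by
      by_contra hcon
      push Not at hcon
      have h4 : (0 : ℤ) < a := by exact_mod_cast ha
      have h5 : (0 : ℤ) ≤ b * k := by positivity
      nlinarith
    obtain ⟨l', hl'⟩ := Int.eq_ofNat_of_zero_le h3
    exact ⟨l', by rw [hl, hl']; simp⟩
  -- all abelian normal subgroups are central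
  by_cases hZ : Subgroup.center G = ⊤
  · exact abelian_case hZ hθ hχ
  obtain ⟨ω, hω⟩ := hρ.central
  have hωi : Function.Injective ω := by
    rw [injective_iff_map_eq_one]
    intro z hz
    apply Subtype.ext
    apply hfaith
    refine LinearMap.ext fun v => ?_
    rw [hω z v, hz, Units.val_one, one_smul, Module.End.one_apply]
  have hχω : ∀ (g : G) (z : Subgroup.center G),
      ρ.character (g * z) = ((ω z : ℂˣ) : ℂ) * ρ.character g := by
    intro g z
    have h1 : ρ (g * z) = ((ω z : ℂˣ) : ℂ) • ρ g := by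
      refine LinearMap.ext fun v => ?_
      rw [map_mul, Module.End.mul_apply, hω, map_smul, LinearMap.smul_apply]
    change LinearMap.trace ℂ _ (ρ (g * z)) = _ * LinearMap.trace ℂ _ (ρ g)
    rw [h1, map_smul, smul_eq_mul]
  let τ : G → ℂ := lam (Subgroup.center G) ω θ
  have hτH : IsHeilbronn τ := lam_heilbronn le_rfl hθ
  have hτV : Virt τ := hvirt.lam le_rfl
  have hτpr : pr τ ρ.character = pr θ ρ.character := pr_lam hvirt le_rfl hχ hχω
  obtain ⟨a, har, ha⟩ := lam_one_le (μ := ω) le_rfl hθ hs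
  have ha' : τ 1 = a := ha
  rw [← hτpr]
  by_cases hωω : ω = ω⁻¹
  swap
  · have h2 := two_part hθ hreal hs hωω ha
    exact nat_of_le_one hτH ha' (by omega) hχ
  have : Fintype (Subgroup.center G) := Fintype.ofFinite _
  have hω2 : ∀ z, ω z * ω z = 1 := by
    intro z
    have h3 := DFunLike.congr_fun hωω z
    rw [MonoidHom.inv_apply] at h3
    nth_rw 1 [h3]
    exact inv_mul_cancel _
  have hωinv : ∀ z, (ω z)⁻¹ = ω z := fun z => inv_eq_of_mul_eq_one_right (hω2 z)
  rcases Nat.lt_or_ge a 3 with ha3 | ha3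
  · -- degree at most two
    refine nat_of_le_two hτH hτV ?_ ?_ ha' (by omega) hχ
    · intro g
      change (Nat.card (Subgroup.center G) : ℂ)⁻¹ *
          ∑ᶠ z : Subgroup.center G, θ (g⁻¹ * z) * (((ω z)⁻¹ : ℂˣ) : ℂ)
        = (Nat.card (Subgroup.center G) : ℂ)⁻¹ *
          ∑ᶠ z : Subgroup.center G, θ (g * z) * (((ω z)⁻¹ : ℂˣ) : ℂ)
      rw [finsum_eq_sum_of_fintype, finsum_eq_sum_of_fintype, ← Equiv.sum_comp (Equiv.inv _)]
      congr 1
      refine Finset.sum_congr rfl fun z _ => ?_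
      have h1 : g⁻¹ * (((Equiv.inv (Subgroup.center G)) z : Subgroup.center G) : G)
          = (g * (z : G))⁻¹ := by
        rw [Equiv.inv_apply, Subgroup.coe_inv, mul_inv_rev]
        exact (Subgroup.mem_center_iff.mp (inv_mem z.2) g⁻¹)
      rw [h1, hreal, Equiv.inv_apply, map_inv, hωinv, hωinv]
    · intro χ' hχ' hs'
      have hK := pr_restrict (μ := ω) le_rfl hvirt (K := ⊤) le_top
        (ψ := fun x : (⊤ : Subgroup G) => χ' x)
        (infl_irr (π := (⊤ : Subgroup G).subtype) (fun x => ⟨⟨x, trivial⟩, rfl⟩) hχ')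
      have htop : ∀ f : G → ℂ, pr (fun x : (⊤ : Subgroup G) => f x)
          (fun x : (⊤ : Subgroup G) => χ' x) = pr f χ' := by
        intro f
        have : Fintype (⊤ : Subgroup G) := Fintype.ofFinite _
        rw [pr_eq, pr_eq]
        have h1 : Nat.card (⊤ : Subgroup G) = Nat.card G :=
          Nat.card_congr Subgroup.topEquiv.toEquiv
        rw [h1]
        congr 1
        exact Fintype.sum_equiv Subgroup.topEquiv.toEquiv _ _ fun _ => rfl
      rcases hK with ⟨h1, -⟩ | h1
      · obtain ⟨k, hk⟩ := hev χ' hχ' hs'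
        refine ⟨k, ?_⟩
        rw [← hk, ← htop τ, ← htop θ]
        exact h1
      · refine ⟨0, ?_⟩
        rw [← htop τ]
        rw [h1]
        simp
  · -- degree three
    exfalso
    have hs3 : s = 3 := by omega
    have ha33 : a = 3 := by omega
    subst hs3
    subst ha33
    obtain ⟨A, hAn, hAc, hA1, hAcomm⟩ := exists_abel_comm hsol hZ
    have hAZ := hab A hAn hAc
    obtain ⟨z, hzA, hz1⟩ : ∃ z : G, z ∈ A ∧ z ≠ 1 := by
      by_contra hcon
      push Not at hcon
      exact hA1 ((Subgroup.eq_bot_iff_forall A).mpr hcon)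
    set zz : Subgroup.center G := ⟨z, hAZ hzA⟩ with hzz
    have hzz1 : zz ≠ 1 := fun h => hz1 (congrArg Subtype.val h)
    have hωz : ((ω zz : ℂˣ) : ℂ) = -1 := by
      have h1 : ((ω zz : ℂˣ) : ℂ) * ((ω zz : ℂˣ) : ℂ) = 1 := by
        rw [← Units.val_mul, hω2, Units.val_one]
      rcases mul_self_eq_one_iff.mp h1 with h2 | h2
      · exfalso
        apply hzz1
        apply hωi
        rw [map_one]
        exact Units.ext h2
      · exact h2
    have hz2 : z * z = 1 := by
      have h1 : zz * zz = 1 := by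
        apply hωi
        rw [map_mul, hω2, map_one]
      exact congrArg Subtype.val h1
    -- the value at `z`
    have hval : θ z = -3 := by
      have h1 : (Nat.card (Subgroup.center G) : ℂ)⁻¹ *
          ∑ z : Subgroup.center G, θ z * (((ω z)⁻¹ : ℂˣ) : ℂ) = 3 := by
        have h2 : (Nat.card (Subgroup.center G) : ℂ)⁻¹ *
          ∑ᶠ z : Subgroup.center G, θ (1 * z) * (((ω z)⁻¹ : ℂˣ) : ℂ) = ((3 : ℕ) : ℂ) := ha'
        simp only [one_mul] at h2
        rw [finsum_eq_sum_of_fintype] at h2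
        rw [h2]
        norm_num
      have hZ0 : (Nat.card (Subgroup.center G) : ℂ) ≠ 0 := by exact_mod_cast Nat.card_pos.ne'
      rw [inv_mul_eq_iff_eq_mul₀ hZ0] at h1
      have h2 : ∑ z : Subgroup.center G, (3 - (θ z * (((ω z)⁻¹ : ℂˣ) : ℂ)).re) = 0 := by
        rw [Finset.sum_sub_distrib, Finset.sum_const, Finset.card_univ, nsmul_eq_mul,
          ← Nat.card_eq_fintype_card, ← Complex.re_sum, h1]
        have : ((Nat.card (Subgroup.center G) : ℂ) * 3).re
            = (Nat.card (Subgroup.center G) : ℝ) * 3 := by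
          have h3 : ((Nat.card (Subgroup.center G) : ℂ) * 3)
            = (((Nat.card (Subgroup.center G) : ℝ) * 3 : ℝ) : ℂ) := by push_cast; ring
          rw [h3, Complex.ofReal_re]
        rw [this]
        ring
      have hno : ∀ z : Subgroup.center G, ‖θ z * (((ω z)⁻¹ : ℂˣ) : ℂ)‖ ≤ 3 := by
        intro z
        have h3 := hθ.norm_le (z : G)
        rw [hs] at h3
        rw [norm_mul, Units.val_inv_eq_inv_val, norm_inv, norm_lin ω z]
        simpa using h3
      have hnn : ∀ z ∈ (Finset.univ : Finset (Subgroup.center G)),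
          0 ≤ 3 - (θ z * (((ω z)⁻¹ : ℂˣ) : ℂ)).re := by
        intro z _
        have := (Complex.re_le_norm (θ z * (((ω z)⁻¹ : ℂˣ) : ℂ))).trans (hno z)
        linarith
      have h3 := (Finset.sum_eq_zero_iff_of_nonneg hnn).mp h2 zz (Finset.mem_univ _)
      have h4 : (θ z).re = -3 := by
        have h5 : θ (zz : G) * (((ω zz)⁻¹ : ℂˣ) : ℂ) = - θ z := by
          rw [hωinv, hωz]
          ring
        rw [h5, Complex.neg_re] at h3
        linarith
      have h5 := real_conj hθ.toSol hreal z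
      obtain ⟨t, ht⟩ := Complex.conj_eq_iff_real.mp h5
      rw [ht] at h4 ⊢
      rw [Complex.ofReal_re] at h4
      rw [h4]
      norm_num
    have hs' : θ 1 = 3 := by rw [hs]; norm_num
    obtain ⟨ε, hε⟩ := exists_tt hθ.toSol hvirt hs'
    have hεz : ε z = 1 := by
      have h1 := Abelianization.commutator_subset_ker ε (hAcomm hzA)
      exact MonoidHom.mem_ker.mp h1
    have h1 := hε z
    rw [hεz, Units.val_one] at h1
    unfold tt at h1
    have h2 : z ^ 2 = 1 := by rw [sq, hz2]
    have h3 : z ^ 3 = z := by rw [pow_succ, h2, one_mul]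
    rw [h2, h3, hs', hval] at h1
    norm_num at h1

end

end Pool.Agent.Q290.Schur
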