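import Mathlib
import Pool.Agent.Q290.Schur.Sol3
import Pool.Agent.Q7.SZ.Ell

/-!
# Twisted L-functions of an elliptic curve at the centre, order three
-/

set_option autoImplicit false
set_option linter.unusedSectionVars false

namespace Pool.Agent.Q290.Schur

open Pool.Agent.H302R2 Pool.Agent.H302R3 Pool.Agent.H541R3.ART Pool.Agent.W446.AS
  Pool.Agent.H302R5 Pool.Agent.H302R6 Pool.Agent.Q7.TZ Pool.Agent.Q7.SZ ComplexConjugate

open Classical in
/-- `χ` is the character of `G` induced from the function `ψ` on the subgroup `H` -/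
def IsInduced {G : Type} [Group G] (H : Subgroup G) (ψ : H → ℂ) (χ : G → ℂ) : Prop :=
  ∀ g : G, (Nat.card H : ℂ) * χ g
    = ∑ᶠ x : G, if h : x⁻¹ * g * x ∈ H then ψ ⟨x⁻¹ * g * x, h⟩ else 0

section

variable {G : Type} [Group G] [Finite G]

/-- Frobenius reciprocity -/
lemma reciprocity (n : (G → ℂ) → ℤ) {H : Subgroup G} {ψ : H → ℂ} {χ : G → ℂ} (hχ : χ ∈ Irr G)
    (h : IsInduced H ψ χ) : ∑ᶠ x : H, theta n ((x : G)⁻¹) * ψ x = (n χ : ℂ) * Nat.card H := by
  classical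
  have : Fintype G := Fintype.ofFinite G
  have : Fintype H := Fintype.ofFinite H
  have hG : (Nat.card G : ℂ) ≠ 0 := by exact_mod_cast Nat.card_pos.ne'
  rw [finsum_eq_sum_of_fintype]
  let F : G → ℂ := fun y => if h : y ∈ H then ψ ⟨y, h⟩ else 0
  have hF : ∀ g : G, (Nat.card H : ℂ) * χ g = ∑ x : G, F (x⁻¹ * g * x) := by
    intro g
    rw [h g, finsum_eq_sum_of_fintype]
  have hconj : ∀ g x : G, theta n (x * g * x⁻¹) = theta n g := by
    intro g x
    unfold theta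
    exact Finset.sum_congr rfl fun χ hχ => by rw [Irr.conj (mem_irrF.mp hχ)]
  have e1 : ∑ g : G, theta n g⁻¹ * ((Nat.card H : ℂ) * χ g)
      = (Nat.card G : ℂ) * ∑ y : G, theta n y⁻¹ * F y := by
    simp_rw [hF, Finset.mul_sum]
    rw [Finset.sum_comm]
    have e2 : ∀ x : G, ∑ g : G, theta n g⁻¹ * F (x⁻¹ * g * x) = ∑ y : G, theta n y⁻¹ * F y := by
      intro x
      rw [← Equiv.sum_comp (MulAut.conj x).toEquiv (fun g => theta n g⁻¹ * F (x⁻¹ * g * x))]
      refine Finset.sum_congr rfl fun y _ => ?_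
      have e3 : (MulAut.conj x).toEquiv y = x * y * x⁻¹ := rfl
      have e4 : (x * y * x⁻¹)⁻¹ = x * y⁻¹ * x⁻¹ := by group
      have e5 : x⁻¹ * (x * y * x⁻¹) * x = y := by group
      rw [e3, e4, e5, hconj]
    rw [Finset.sum_congr rfl (fun x _ => e2 x), Finset.sum_const, Finset.card_univ, nsmul_eq_mul,
      ← Nat.card_eq_fintype_card, Finset.mul_sum]
  have e6 : ∑ y : G, theta n y⁻¹ * F y = ∑ x : H, theta n ((x : G)⁻¹) * ψ x := by
    have e7 : ∑ y ∈ Finset.univ.filter (fun y => y ∈ H), theta n y⁻¹ * F y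
        = ∑ y : G, theta n y⁻¹ * F y := by
      refine Finset.sum_subset (Finset.filter_subset _ _) fun y _ hy => ?_
      have hy' : y ∉ H := fun h => hy (Finset.mem_filter.mpr ⟨Finset.mem_univ _, h⟩)
      have : F y = 0 := dif_neg hy'
      rw [this, mul_zero]
    rw [← e7, Finset.sum_subtype (p := fun y => y ∈ H) _ (by simp) (fun y => theta n y⁻¹ * F y)]
    refine Finset.sum_congr rfl fun x _ => ?_
    have : F (x : G) = ψ x := dif_pos x.2
    rw [this]
  have e8 : ∑ g : G, theta n g⁻¹ * ((Nat.card H : ℂ) * χ g)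
      = (Nat.card H : ℂ) * ((n χ : ℂ) * Nat.card G) := by
    rw [← theta_pair n hχ, ← Equiv.sum_comp (Equiv.inv G), Finset.mul_sum]
    refine Finset.sum_congr rfl fun g _ => ?_
    rw [Equiv.inv_apply, inv_inv]
    ring
  rw [e8, e6] at e1
  have e9 : (∑ x : H, theta n ((x : G)⁻¹) * ψ x) * (Nat.card G : ℂ)
      = (n χ : ℂ) * Nat.card H * (Nat.card G : ℂ) := by linear_combination -e1
  exact mul_right_cancel₀ hG e9

lemma order_prod {s₀ : ℂ} (A : TwistData G s₀) (m : (G → ℂ) → ℕ) :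
    meromorphicOrderAt (fun s => ∏ᶠ χ ∈ Irr G, A.L χ s ^ m χ) s₀
      = ((∑ χ ∈ irrF G, (m χ : ℤ) * A.ord χ : ℤ) : WithTop ℤ) := by
  classical
  have h1 : (fun s => ∏ᶠ χ ∈ Irr G, A.L χ s ^ m χ)
      = fun s => ∏ χ ∈ irrF G, (A.L χ ^ m χ) s := by
    funext s
    rw [finprod_mem_eq_finite_toFinset_prod _ (irr_finite (G := G))]
    rfl
  rw [h1, meromorphicOrderAt_fun_prod (fun χ hχ => ((A.mero χ (mem_irrF.mp hχ)).1).pow _)]
  rw [WithTop.coe_sum]
  refine Finset.sum_congr rfl fun χ hχ => ?_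
  rw [meromorphicOrderAt_pow ((A.mero χ (mem_irrF.mp hχ)).1), ← A.coe_ord (mem_irrF.mp hχ)]
  push_cast
  rfl

section

variable {A : TwistData G 1} (F : FunEq A)

include F in
/-- linear characters of all subgroups -/
theorem three_lin (hr : meromorphicOrderAt (A.Lin ⊥ 1) 1 = ((3 : ℕ) : WithTop ℤ))
    (H : Subgroup G) (ψ : H →* ℂˣ) : 0 ≤ meromorphicOrderAt (A.Lin H ψ) 1 := by
  classical
  obtain ⟨n', hn'⟩ := restr A.ord H
  have hθ' : IsSolHeilbronn (theta n' : H → ℂ) := by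
    have h2 := A.isSol.comp H.subtype
    have h3 : (fun e : H => (theta A.ord : G → ℂ) (H.subtype e)) = theta n' := funext hn'
    rw [h3] at h2
    exact h2
  have h1' : (theta n' : H → ℂ) 1 = 3 := by
    rw [← hn' 1]
    have := A.theta_one hr
    push_cast at this
    exact this
  have hr' : ∀ x : H, (theta n' : H → ℂ) x⁻¹ = theta n' x := by
    intro x
    rw [← hn', ← hn']
    exact F.theta_real x
  have h2 := lin_nonneg_three n' hθ' h1' hr' (fun χ hχ hs =>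
    even_restr A.ord (fun χ hχ => F.ord_inv hχ) (fun χ hχ h => F.ord_even hχ h) H n' hn' hχ hs) ψ
  rw [lin_order A H ψ hn']
  exact_mod_cast h2

include F in
/-- irreducible characters of solvable subgroups -/
theorem three_sol (hr : meromorphicOrderAt (A.Lin ⊥ 1) 1 = ((3 : ℕ) : WithTop ℤ))
    (H : Subgroup G) (hH : Group.IsSolvable H) {ψ : H → ℂ} (hψ : ψ ∈ Irr H) :
    ∃ k : ℕ, pr (fun x : H => (theta A.ord : G → ℂ) x) ψ = k := by
  classical
  have hv : Virt (theta A.ord : G → ℂ) := theta_virt _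
  have hev : EvP (theta A.ord : G → ℂ) := by
    intro χ hχ hs
    obtain ⟨k, hk⟩ := F.ord_even hχ hs
    refine ⟨k, ?_⟩
    rw [pr_theta A.ord hχ, hk]
    push_cast
    ring
  refine solmain _ H rfl hH _ (A.isSol.comp_sol hH H.subtype) (hv.comp H.subtype)
    (fun g => F.theta_real g) ⟨3, le_rfl, ?_⟩ (hev.restr hv F.theta_real H) ψ hψ
  have := A.theta_one hr
  simpa using this

include F in
theorem three_prod (hr : meromorphicOrderAt (A.Lin ⊥ 1) 1 = ((3 : ℕ) : WithTop ℤ))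
    (H : Subgroup G) (hH : Group.IsSolvable H) {ψ : H → ℂ} (hψ : ψ ∈ Irr H) (m : (G → ℂ) → ℕ)
    (hm : ∀ χ ∈ Irr G, ∑ᶠ h : H, χ h * ψ h⁻¹ = (m χ : ℂ) * (Nat.card H : ℂ)) :
    0 ≤ meromorphicOrderAt (fun s => ∏ᶠ χ ∈ Irr G, A.L χ s ^ m χ) 1 := by
  classical
  have : Fintype H := Fintype.ofFinite H
  have hHc : (Nat.card H : ℂ) ≠ 0 := by exact_mod_cast Nat.card_pos.ne'
  obtain ⟨k, hk⟩ := three_sol F hr H hH hψ
  rw [order_prod]
  have h1 : ((∑ χ ∈ irrF G, (m χ : ℤ) * A.ord χ : ℤ) : ℂ) = k := by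
    rw [← hk, pr_eq, eq_inv_mul_iff_mul_eq₀ hHc]
    have h2 : ∀ x : H, (theta A.ord : G → ℂ) x * ψ x⁻¹
        = ∑ χ ∈ irrF G, (A.ord χ : ℂ) * (χ (x : G) * ψ x⁻¹) := by
      intro x
      rw [theta, Finset.sum_mul]
      exact Finset.sum_congr rfl fun χ _ => by ring
    rw [Finset.sum_congr rfl (fun x _ => h2 x), Finset.sum_comm]
    push_cast
    rw [Finset.mul_sum]
    refine Finset.sum_congr rfl fun χ hχ => ?_
    have h3 := hm χ (mem_irrF.mp hχ)
    rw [finsum_eq_sum_of_fintype] at h3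
    rw [← Finset.mul_sum, h3]
    ring
  have h2 : (∑ χ ∈ irrF G, (m χ : ℤ) * A.ord χ : ℤ) = (k : ℤ) := by exact_mod_cast h1
  rw [h2]
  exact_mod_cast Int.natCast_nonneg k

include F in
/-- monomial characters -/
theorem three_mono (hr : meromorphicOrderAt (A.Lin ⊥ 1) 1 = ((3 : ℕ) : WithTop ℤ))
    {χ : G → ℂ} (hχ : χ ∈ Irr G) {H : Subgroup G} (ψ : H →* ℂˣ)
    (h : IsInduced H (fun x => ((ψ x : ℂˣ) : ℂ)) χ) : 0 ≤ A.ord χ := by
  classical
  have : Fintype H := Fintype.ofFinite H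
  have hHc : (Nat.card H : ℂ) ≠ 0 := by exact_mod_cast Nat.card_pos.ne'
  obtain ⟨k, hk1, hk2⟩ := A.order_mult H ψ
  have h1 := three_lin F hr H ψ
  rw [hk1] at h1
  have h2 : 0 ≤ k := by exact_mod_cast h1
  have h3 := reciprocity A.ord hχ h
  have h4 : ∑ᶠ x : H, (theta A.ord : G → ℂ) ((x : G)⁻¹) * ((ψ x : ℂˣ) : ℂ)
      = ∑ᶠ x : H, (theta A.ord : G → ℂ) x * (((ψ x)⁻¹ : ℂˣ) : ℂ) := by
    rw [finsum_eq_sum_of_fintype, finsum_eq_sum_of_fintype, ← Equiv.sum_comp (Equiv.inv H)]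
    refine Finset.sum_congr rfl fun x _ => ?_
    rw [Equiv.inv_apply, Subgroup.coe_inv, inv_inv, map_inv]
  rw [h4, hk2] at h3
  have h5 := mul_right_cancel₀ hHc h3
  have h6 : k = A.ord χ := by exact_mod_cast h5
  rw [← h6]
  exact h2

end

end

end Pool.Agent.Q290.Schur
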