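import Mathlib
import Pool.Agent.Q7.GR.Gal

/-!
# Integral valued characters: the index of the kernel (Schur)
-/

set_option autoImplicit false
set_option linter.unusedSectionVars false

namespace Pool.Agent.Q290.Schur

open Pool.Agent.H302R2 Pool.Agent.H302R3 Pool.Agent.H541R3.ART Pool.Agent.W446.AS
  Pool.Agent.H302R5 Pool.Agent.Q7.TZ Pool.Agent.Q7.SZ Pool.Agent.Q7.GR

section virt

variable {G : Type} [Group G] [Finite G]

lemma virt_irr {χ : G → ℂ} (h : χ ∈ Irr G) : Virt χ := AddSubgroup.subset_closure h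

lemma virt_mul {a b : G → ℂ} (ha : Virt a) (hb : Virt b) : Virt (a * b) := by
  unfold Virt at ha hb ⊢
  induction ha using AddSubgroup.closure_induction with
  | mem x hx =>
    induction hb using AddSubgroup.closure_induction with
    | mem y hy =>
      obtain ⟨n, ρ, -, rfl⟩ := hx
      obtain ⟨m, σ, -, rfl⟩ := hy
      rw [← Representation.char_tensor]
      exact char_mem _ _ rfl
    | zero => rw [mul_zero]; exact AddSubgroup.zero_mem _
    | add y z _ _ hy hz => rw [mul_add]; exact AddSubgroup.add_mem _ hy hz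
    | neg y _ hy => rw [mul_neg]; exact AddSubgroup.neg_mem _ hy
  | zero => rw [zero_mul]; exact AddSubgroup.zero_mem _
  | add x y _ _ hx hy => rw [add_mul]; exact AddSubgroup.add_mem _ hx hy
  | neg x _ hx => rw [neg_mul]; exact AddSubgroup.neg_mem _ hx

lemma virt_const (t : ℤ) : Virt (fun _ : G => (t : ℂ)) := by
  have h1 : Virt (fun g : G => (((1 : G →* ℂˣ) g : ℂˣ) : ℂ)) := virt_irr (lin_irr 1)
  have h2 : (fun _ : G => (t : ℂ)) = t • (fun g : G => (((1 : G →* ℂˣ) g : ℂˣ) : ℂ)) := by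
    funext g
    simp
  rw [h2]
  exact AddSubgroup.zsmul_mem _ h1 t

lemma virt_prod {θ : G → ℂ} (hθ : Virt θ) (T : Finset ℤ) :
    Virt (fun g => ∏ t ∈ T, (θ g - t)) := by
  classical
  induction T using Finset.induction_on with
  | empty =>
    have := virt_const (G := G) 1
    simpa using this
  | insert t T ht ih =>
    have h1 : (fun g => ∏ t ∈ insert t T, (θ g - t)) =
        (θ - fun _ => (t : ℂ)) * (fun g => ∏ t ∈ T, (θ g - t)) := by
      funext g
      rw [Finset.prod_insert ht]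
      rfl
    rw [h1]
    exact virt_mul (AddSubgroup.sub_mem _ hθ (virt_const t)) ih

lemma virt_sum {θ : G → ℂ} (hθ : Virt θ) : ∃ k : ℤ, ∑ᶠ g, θ g = k * Nat.card G := by
  classical
  have : Fintype G := Fintype.ofFinite G
  obtain ⟨l, hl⟩ := hθ.pr_int (lin_irr 1)
  refine ⟨l, ?_⟩
  rw [← hl, ← sum_eq_pr, finsum_eq_sum_of_fintype]
  refine Finset.sum_congr rfl fun h _ => ?_
  simp

/-- **Blichfeldt.** -/
theorem card_dvd {θ : G → ℂ} (hθ : Virt θ) {r : ℤ} (S : Set G) (T : Finset ℤ)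
    (hS : ∀ g ∈ S, θ g = r) (hT : ∀ g, g ∉ S → ∃ t ∈ T, θ g = (t : ℂ)) :
    (Nat.card G : ℤ) ∣ Nat.card S * ∏ t ∈ T, (r - t) := by
  classical
  have : Fintype G := Fintype.ofFinite G
  obtain ⟨k, hk⟩ := virt_sum (virt_prod hθ T)
  rw [finsum_eq_sum_of_fintype] at hk
  have h1 : ∑ g : G, ∏ t ∈ T, (θ g - t) = ∑ g ∈ Finset.univ.filter (fun g => g ∈ S),
      ∏ t ∈ T, (θ g - t) := by
    symm
    refine Finset.sum_subset (Finset.filter_subset _ _) fun g _ hg => ?_
    have hg' : g ∉ S := fun h => hg (Finset.mem_filter.mpr ⟨Finset.mem_univ _, h⟩)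
    obtain ⟨t, ht, h2⟩ := hT g hg'
    exact Finset.prod_eq_zero ht (by rw [h2, sub_self])
  have h2 : ∀ g ∈ Finset.univ.filter (fun g => g ∈ S), ∏ t ∈ T, (θ g - t) =
      ((∏ t ∈ T, (r - t) : ℤ) : ℂ) := by
    intro g hg
    push_cast
    refine Finset.prod_congr rfl fun t _ => ?_
    rw [hS g (Finset.mem_filter.mp hg).2]
  rw [h1, Finset.sum_congr rfl h2, Finset.sum_const, nsmul_eq_mul] at hk
  have h3 : (Finset.univ.filter (fun g => g ∈ S)).card = Nat.card S := by
    rw [← Fintype.card_subtype, ← Nat.card_eq_fintype_card]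
  rw [h3] at hk
  refine ⟨k, ?_⟩
  have h4 : ((Nat.card S * ∏ t ∈ T, (r - t) : ℤ) : ℂ) = ((Nat.card G * k : ℤ) : ℂ) := by
    push_cast at hk ⊢
    rw [hk]
    ring
  exact_mod_cast h4

lemma irr_heil {χ : G → ℂ} (hχ : χ ∈ Irr G) : IsHeilbronn χ where
  conj g h := Irr.conj hχ g h
  mult H ψ := exists_mult hχ H ψ

/-- a combination with nonnegative coefficients takes the value at `1` only on the kernel -/
lemma mem_ker_of_eq {n : (G → ℂ) → ℤ} (hn : ∀ χ ∈ Irr G, 0 ≤ n χ) {x : G}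
    (hx : (theta n : G → ℂ) x = theta n 1) : x ∈ KerS (theta n : G → ℂ) := by
  classical
  rw [mem_kerS]
  intro χ hχ hp
  rw [pr_theta n hχ] at hp
  have hp' : n χ ≠ 0 := by
    intro h
    rw [h] at hp
    exact hp (by simp)
  have hpos : 0 < n χ := lt_of_le_of_ne (hn χ hχ) (Ne.symm hp')
  have hle : ∀ φ ∈ irrF G, (n φ : ℝ) * (φ x).re ≤ (n φ : ℝ) * (φ 1).re := by
    intro φ hφ
    have h1 := (irr_heil (mem_irrF.mp hφ)).norm_le x
    have h2 : (0 : ℝ) ≤ n φ := by exact_mod_cast hn φ (mem_irrF.mp hφ)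
    exact mul_le_mul_of_nonneg_left ((Complex.re_le_norm _).trans h1) h2
  have hre : ∀ y : G, ((theta n : G → ℂ) y).re = ∑ φ ∈ irrF G, (n φ : ℝ) * (φ y).re := by
    intro y
    rw [theta, Complex.re_sum]
    refine Finset.sum_congr rfl fun φ _ => ?_
    have : ((n φ : ℤ) : ℂ) = (((n φ : ℤ) : ℝ) : ℂ) := by push_cast; rfl
    rw [this, Complex.re_ofReal_mul]
  have heq : ∑ φ ∈ irrF G, (n φ : ℝ) * (φ x).re = ∑ φ ∈ irrF G, (n φ : ℝ) * (φ 1).re := by
    rw [← hre, ← hre, hx]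
  have h3 := (Finset.sum_eq_sum_iff_of_le hle).mp heq χ (mem_irrF.mpr hχ)
  have h4 : (0 : ℝ) < n χ := by exact_mod_cast hpos
  have h5 := mul_left_cancel₀ h4.ne' h3
  exact (irr_heil hχ).eq_deg_of_re h5.ge

end virt

end Pool.Agent.Q290.Schur
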