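import Mathlib
import Pool.Agent.Q290.Schur.Mink

/-!
# Characters invariant under power maps: values on elements of prime power order
-/

set_option autoImplicit false
set_option linter.unusedSectionVars false

namespace Pool.Agent.Q290.Schur

open Pool.Agent.H302R2 Pool.Agent.H302R3 Pool.Agent.H541R3.ART Pool.Agent.W446.AS
  Pool.Agent.H302R5 Pool.Agent.Q7.TZ Pool.Agent.Q7.SZ Pool.Agent.Q7.GR

variable {G : Type} [Group G] [Finite G]

/-- sums over cyclic groups -/
lemma sum_zpow (f : G → ℂ) (x : G) :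
    ∑ᶠ h : Subgroup.zpowers x, f h = ∑ i ∈ Finset.range (orderOf x), f (x ^ i) := by
  classical
  have : Fintype (Subgroup.zpowers x) := Fintype.ofFinite _
  have hfin : IsOfFinOrder x := isOfFinOrder_of_finite x
  rw [finsum_eq_sum_of_fintype, ← (finEquivZPowers hfin).sum_comp]
  simp only [finEquivZPowers_apply]
  rw [Fin.sum_univ_eq_sum_range (fun k => f (x ^ k))]

/-- the sum of a Heilbronn function over a cyclic group -/
lemma cyc_mult {θ : G → ℂ} (hθ : IsSolHeilbronn θ) {r : ℕ} (h1 : θ 1 = r) (x : G) :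
    ∃ a : ℕ, a ≤ r ∧ ∑ i ∈ Finset.range (orderOf x), θ (x ^ i) = (a : ℂ) * orderOf x := by
  classical
  obtain ⟨a, ha⟩ := hθ.mult (Subgroup.zpowers x) (sol_of_comm (zpowers_comm x)) 1
  have h2 : ∑ᶠ h : Subgroup.zpowers x, θ h * (((((1 : Subgroup.zpowers x →* ℂˣ) h)⁻¹ : ℂˣ)) : ℂ) =
      ∑ᶠ h : Subgroup.zpowers x, θ h := finsum_congr fun h => by simp
  rw [h2, sum_zpow, Nat.card_zpowers] at ha
  refine ⟨a, ?_, ha⟩
  have hpos : 0 < orderOf x := orderOf_pos x
  have h3 : ‖∑ i ∈ Finset.range (orderOf x), θ (x ^ i)‖ ≤ (r : ℝ) * orderOf x := by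
    refine (norm_sum_le _ _).trans ?_
    have h4 : ∀ i ∈ Finset.range (orderOf x), ‖θ (x ^ i)‖ ≤ (r : ℝ) := by
      intro i _
      have := hθ.norm_le (x ^ i)
      rwa [h1, Complex.natCast_re] at this
    refine (Finset.sum_le_sum h4).trans ?_
    rw [Finset.sum_const, Finset.card_range, nsmul_eq_mul, mul_comm]
  rw [ha, norm_mul, Complex.norm_natCast, Complex.norm_natCast] at h3
  have h5 : (0 : ℝ) < orderOf x := by exact_mod_cast hpos
  have h6 := le_of_mul_le_mul_right h3 h5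
  exact_mod_cast h6

/-- the value of a power invariant function at an element of prime power order -/
theorem val_pp {θ : G → ℂ} (hθ : IsSolHeilbronn θ) {r : ℕ} (h1 : θ 1 = r)
    (hpow : ∀ (g : G) (k : ℕ), k.Coprime (orderOf g) → θ (g ^ k) = θ g) {p K : ℕ} (hp : p.Prime)
    {g : G} (hg : orderOf g = p ^ K) :
    ∃ t : ℤ, θ g = t ∧ t ≤ r ∧ -(r : ℤ) ≤ (p - 1) * t := by
  classical
  have hp2 := hp.two_le
  have hbound : ∀ t : ℤ, θ g = t → t ≤ r := by
    intro t ht
    have h2 := hθ.norm_le g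
    rw [h1, Complex.natCast_re, ht, Complex.norm_intCast] at h2
    have h3 : |t| ≤ (r : ℤ) := by exact_mod_cast h2
    exact (le_abs_self t).trans h3
  rcases Nat.eq_zero_or_pos K with hK | hK
  · rw [hK, pow_zero, orderOf_eq_one_iff] at hg
    refine ⟨r, by rw [hg, h1]; simp, le_rfl, ?_⟩
    have : (1 : ℤ) ≤ (p : ℤ) - 1 := by
      have : (2 : ℤ) ≤ p := by exact_mod_cast hp2
      omega
    nlinarith [Int.natCast_nonneg r]
  obtain ⟨K, rfl⟩ : ∃ K', K = K' + 1 := ⟨K - 1, by omega⟩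
  obtain ⟨a, ha, ha'⟩ := cyc_mult hθ h1 g
  obtain ⟨b, hb, hb'⟩ := cyc_mult hθ h1 (g ^ p)
  have hog : orderOf (g ^ p) = p ^ K := by
    rw [orderOf_pow' g hp.ne_zero, hg, pow_succ, Nat.gcd_eq_right (Dvd.intro_left _ rfl),
      Nat.mul_div_cancel _ hp.pos]
  rw [hg] at ha'
  rw [hog] at hb'
  -- split the sum
  have hsplit : ∑ i ∈ Finset.range (p ^ (K + 1)), θ (g ^ i) =
      ∑ i ∈ (Finset.range (p ^ (K + 1))).filter (fun i => p ∣ i), θ (g ^ i) +
      ∑ i ∈ (Finset.range (p ^ (K + 1))).filter (fun i => ¬ p ∣ i), θ (g ^ i) :=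
    (Finset.sum_filter_add_sum_filter_not _ _ _).symm
  have himg : (Finset.range (p ^ (K + 1))).filter (fun i => p ∣ i) =
      (Finset.range (p ^ K)).image (fun j => p * j) := by
    ext i
    simp only [Finset.mem_filter, Finset.mem_range, Finset.mem_image]
    constructor
    · rintro ⟨h2, j, rfl⟩
      refine ⟨j, ?_, rfl⟩
      rw [pow_succ, mul_comm] at h2
      exact Nat.lt_of_mul_lt_mul_right h2
    · rintro ⟨j, hj, rfl⟩
      refine ⟨?_, Dvd.intro _ rfl⟩
      rw [pow_succ, mul_comm]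
      exact Nat.mul_lt_mul_of_pos_right hj hp.pos
  have hinj : Set.InjOn (fun j => p * j) (Finset.range (p ^ K) : Set ℕ) := by
    intro i _ j _ hij
    exact Nat.eq_of_mul_eq_mul_left hp.pos hij
  have e1 : ∑ i ∈ (Finset.range (p ^ (K + 1))).filter (fun i => p ∣ i), θ (g ^ i) =
      (b : ℂ) * (p ^ K : ℕ) := by
    rw [himg, Finset.sum_image hinj, ← hb']
    refine Finset.sum_congr rfl fun j _ => ?_
    rw [pow_mul]
  have hcard : ((Finset.range (p ^ (K + 1))).filter (fun i => ¬ p ∣ i)).card + p ^ K =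
      p ^ (K + 1) := by
    have h2 := Finset.card_filter_add_card_filter_not (s := Finset.range (p ^ (K + 1)))
      (p := fun i => p ∣ i)
    rw [himg, Finset.card_image_of_injOn hinj, Finset.card_range, Finset.card_range] at h2
    omega
  have e2 : ∑ i ∈ (Finset.range (p ^ (K + 1))).filter (fun i => ¬ p ∣ i), θ (g ^ i) =
      (((Finset.range (p ^ (K + 1))).filter (fun i => ¬ p ∣ i)).card : ℂ) * θ g := by
    rw [Finset.sum_congr rfl (g := fun _ => θ g), Finset.sum_const, nsmul_eq_mul]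
    intro i hi
    apply hpow
    rw [hg]
    exact ((Nat.Prime.coprime_iff_not_dvd hp).mpr (Finset.mem_filter.mp hi).2).symm.pow_right _
  set c := ((Finset.range (p ^ (K + 1))).filter (fun i => ¬ p ∣ i)).card with hc
  have hcc : (c : ℂ) = (p ^ K : ℕ) * ((p : ℂ) - 1) := by
    have h2 : ((c + p ^ K : ℕ) : ℂ) = ((p ^ (K + 1) : ℕ) : ℂ) := by rw [hcard]
    push_cast at h2 ⊢
    rw [pow_succ] at h2
    linear_combination h2
  have hpK : ((p ^ K : ℕ) : ℂ) ≠ 0 := by
    exact_mod_cast (pow_pos hp.pos K).ne'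
  have key : ((p : ℂ) - 1) * θ g = (p : ℂ) * a - b := by
    apply mul_left_cancel₀ hpK
    have h2 := hsplit
    rw [e1, e2, ha', hcc] at h2
    push_cast at h2 ⊢
    rw [pow_succ] at h2
    linear_combination -h2
  -- rational, so integral
  have hp1 : ((p : ℂ) - 1) ≠ 0 := by
    intro h
    have h2 : (p : ℂ) = 1 := sub_eq_zero.mp h
    have h3 : p = 1 := by exact_mod_cast h2
    exact hp.ne_one h3
  have hq : θ g = ((((p : ℚ) * a - b) / ((p : ℚ) - 1) : ℚ) : ℂ) := by
    push_cast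
    field_simp
    linear_combination key
  have hint := hθ.isIntegral g
  rw [hq] at hint
  have h4 : IsIntegral ℤ (((p : ℚ) * a - b) / ((p : ℚ) - 1) : ℚ) := by
    have h5 : ((((p : ℚ) * a - b) / ((p : ℚ) - 1) : ℚ) : ℂ) =
      algebraMap ℚ ℂ (((p : ℚ) * a - b) / ((p : ℚ) - 1)) := rfl
    rw [h5, isIntegral_algebraMap_iff (algebraMap ℚ ℂ).injective] at hint
    exact hint
  obtain ⟨t, ht⟩ := IsIntegrallyClosed.isIntegral_iff.mp h4
  have ht' : θ g = (t : ℂ) := by
    rw [hq, ← ht]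
    simp
  refine ⟨t, ht', hbound t ht', ?_⟩
  have h5 : ((p : ℤ) - 1) * t = p * a - b := by
    rw [ht'] at key
    exact_mod_cast key
  rw [h5]
  have h6 : (b : ℤ) ≤ r := by exact_mod_cast hb
  have h7 : (0 : ℤ) ≤ p * a := by positivity
  omega

end Pool.Agent.Q290.Schur
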