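import Mathlib
import Pool.Agent.Q290.Schur.MinkB

/-!
# Schur's bound for the index of the kernel
-/

set_option autoImplicit false
set_option linter.unusedSectionVars false

namespace Pool.Agent.Q290.Schur

open Pool.Agent.H302R2 Pool.Agent.H302R3 Pool.Agent.H541R3.ART Pool.Agent.W446.AS
  Pool.Agent.H302R5 Pool.Agent.Q7.TZ Pool.Agent.Q7.SZ Pool.Agent.Q7.GR

lemma prod_fact (r m : ℕ) :
    ∏ t ∈ (Finset.range (r + m)).image (fun j : ℕ => (r : ℤ) - 1 - j), ((r : ℤ) - t) =
      ((r + m).factorial : ℤ) := by
  classical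
  rw [Finset.prod_image (by
    intro i _ j _ hij
    simp only at hij
    omega), ← Finset.prod_range_add_one_eq_factorial]
  push_cast
  refine Finset.prod_congr rfl fun j _ => by ring

variable {G : Type} [Group G] [Finite G]

/-- **Schur's bound**, the `p`-part -/
theorem schur_part {n : (G → ℂ) → ℤ} (hn : ∀ χ ∈ Irr G, 0 ≤ n χ)
    (hθ : IsSolHeilbronn (theta n : G → ℂ)) {r : ℕ} (h1 : (theta n : G → ℂ) 1 = r)
    (hpow : ∀ (g : G) (k : ℕ), k.Coprime (orderOf g) →
      (theta n : G → ℂ) (g ^ k) = theta n g) {p : ℕ} (hp : p.Prime) :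
    (KerS (theta n : G → ℂ)).index.factorization p ≤
      (r + r / (p - 1)).factorial.factorization p := by
  classical
  have : Fact p.Prime := ⟨hp⟩
  have hp2 := hp.two_le
  set N := KerS (theta n : G → ℂ) with hN
  let P : Sylow p G := default
  set m := r / (p - 1) with hm
  -- values
  have hval : ∀ g : (P : Subgroup G), (g : G) ∉ N → ∃ t ∈ (Finset.range (r + m)).image
      (fun j : ℕ => (r : ℤ) - 1 - j), (theta n : G → ℂ) g = (t : ℂ) := by
    intro g hg
    obtain ⟨K, hK⟩ := (IsPGroup.iff_orderOf.mp P.isPGroup') g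
    have hK' : orderOf (g : G) = p ^ K := by rw [Subgroup.orderOf_coe, hK]
    obtain ⟨t, ht, htr, htl⟩ := val_pp hθ h1 hpow hp hK'
    refine ⟨t, ?_, ht⟩
    have hne : t ≠ r := by
      intro h
      apply hg
      apply mem_ker_of_eq hn
      rw [ht, h, h1]
      simp
    have hlow : -(m : ℤ) ≤ t := by
      by_contra hcon
      push Not at hcon
      have h2 : ((m : ℤ) + 1) ≤ -t := by omega
      have h3 : ((p : ℤ) - 1) * (m + 1) ≤ ((p : ℤ) - 1) * (-t) :=
        mul_le_mul_of_nonneg_left h2 (by
          have : (2 : ℤ) ≤ p := by exact_mod_cast hp2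
          omega)
      have h4 : r < (p - 1) * (m + 1) := by
        rw [hm]
        exact Nat.lt_mul_div_succ r (by omega)
      have h5 : (r : ℤ) < ((p : ℤ) - 1) * (m + 1) := by
        have h6 : ((p - 1 : ℕ) : ℤ) = (p : ℤ) - 1 := by
          rw [Nat.cast_sub (by omega)]
          simp
        rw [← h6]
        exact_mod_cast h4
      have h6 : ((p : ℤ) - 1) * (-t) = -(((p : ℤ) - 1) * t) := by ring
      omega
    rw [Finset.mem_image]
    refine ⟨(r - 1 - t).toNat, ?_, ?_⟩
    · rw [Finset.mem_range]
      omega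
    · have h2 : (0 : ℤ) ≤ r - 1 - t := by omega
      rw [Int.toNat_of_nonneg h2]
      ring
  have hmem : ∀ g ∈ {g : (P : Subgroup G) | (g : G) ∈ N}, (theta n : G → ℂ) g = ((r : ℤ) : ℂ) := by
    intro g hg
    have h2 := theta_kerS (theta_virt n) 1 (show (g : G) ∈ KerS (theta n : G → ℂ) from hg)
    rw [one_mul, h1] at h2
    rw [h2]
    simp
  have hvirt : Virt (fun g : (P : Subgroup G) => (theta n : G → ℂ) g) :=
    (theta_virt n).comp (P : Subgroup G).subtype
  have hdvd := card_dvd hvirt {g : (P : Subgroup G) | (g : G) ∈ N} _ hmem (fun g hg => hval g hg)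
  rw [prod_fact] at hdvd
  have hdvd' : Nat.card (P : Subgroup G) ∣
      Nat.card {g : (P : Subgroup G) | (g : G) ∈ N} * (r + m).factorial := by
    exact_mod_cast hdvd
  have hsub : Nat.card {g : (P : Subgroup G) | (g : G) ∈ N} ∣ Nat.card N := by
    have h2 : Nat.card {g : (P : Subgroup G) | (g : G) ∈ N} =
        Nat.card (N.subgroupOf (P : Subgroup G)) := rfl
    rw [h2]
    let f : (N.subgroupOf (P : Subgroup G)) →* N :=
      { toFun := fun x => ⟨((x : (P : Subgroup G)) : G), x.2⟩
        map_one' := rfl
        map_mul' := fun _ _ => rfl }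
    refine Subgroup.card_dvd_of_injective f ?_
    intro a b hab
    apply Subtype.ext
    apply Subtype.ext
    have h3 : ((f a : N) : G) = ((f b : N) : G) := by rw [hab]
    exact h3
  have h2 : p ^ (Nat.card G).factorization p ∣ Nat.card N * (r + m).factorial := by
    rw [← P.card_eq_multiplicity]
    exact hdvd'.trans (mul_dvd_mul_right hsub _)
  have hN0 : Nat.card N ≠ 0 := Nat.card_pos.ne'
  have hf0 : (r + m).factorial ≠ 0 := Nat.factorial_ne_zero _
  have hi0 : N.index ≠ 0 := Subgroup.index_ne_zero_of_finite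
  have h3 := (hp.pow_dvd_iff_le_factorization (mul_ne_zero hN0 hf0)).mp h2
  rw [← N.card_mul_index, Nat.factorization_mul hN0 hi0, Nat.factorization_mul hN0 hf0,
    Finsupp.add_apply, Finsupp.add_apply] at h3
  omega

lemma fac_eq {p a b n : ℕ} (hp : p.Prime) (hn : n = p ^ a * b) (hb : ¬ p ∣ b) :
    n.factorization p = a := by
  have hb0 : b ≠ 0 := fun h => hb (by rw [h]; exact dvd_zero p)
  rw [hn, Nat.factorization_mul (pow_ne_zero _ hp.ne_zero) hb0, Finsupp.add_apply,
    Nat.factorization_eq_zero_of_not_dvd hb, hp.factorization_pow]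
  simp

/-- Schur's numbers for `r ≤ 5` -/
theorem schur_small {N : Subgroup G} {r : ℕ} (hr : r ≤ 5)
    (h : ∀ p : ℕ, p.Prime → N.index.factorization p ≤
      (r + r / (p - 1)).factorial.factorization p) :
    N.index ∣ ([1, 2, 24, 48, 5760, 11520].getD r 0) := by
  classical
  have hi0 : N.index ≠ 0 := Subgroup.index_ne_zero_of_finite
  have big : ∀ p : ℕ, p.Prime → 7 ≤ p → N.index.factorization p = 0 := by
    intro p hp h7
    have h2 := h p hp
    have h3 : r / (p - 1) = 0 := Nat.div_eq_of_lt (by omega)
    rw [h3, add_zero, Nat.factorization_factorial_eq_zero_of_lt (by omega)] at h2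
    omega
  have main : ∀ B : ℕ, B ≠ 0 → (r + r / 1).factorial.factorization 2 ≤ B.factorization 2 →
      (r + r / 2).factorial.factorization 3 ≤ B.factorization 3 →
      (r + r / 4).factorial.factorization 5 ≤ B.factorization 5 → N.index ∣ B := by
    intro B hB e2 e3 e5
    rw [← Nat.factorization_prime_le_iff_dvd hi0 hB]
    intro p hp
    rcases Nat.lt_or_ge p 7 with h7 | h7
    · have hp2 := hp.two_le
      interval_cases p
      · exact (h 2 Nat.prime_two).trans e2
      · exact (h 3 Nat.prime_three).trans e3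
      · exact absurd hp (by norm_num)
      · exact (h 5 Nat.prime_five).trans e5
      · exact absurd hp (by norm_num)
    · rw [big p hp h7]
      exact Nat.zero_le _
  interval_cases r
  · exact main 1 (by norm_num) (by simp) (by simp) (by simp)
  · refine main 2 (by norm_num) ?_ ?_ ?_
    · rw [fac_eq (a := 1) (b := 1) Nat.prime_two (by decide) (by decide),
        fac_eq (a := 1) (b := 1) Nat.prime_two (by decide) (by decide)]
    · rw [fac_eq (a := 0) (b := 1) Nat.prime_three (by decide) (by decide)]
      exact Nat.zero_le _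
    · rw [fac_eq (a := 0) (b := 1) Nat.prime_five (by decide) (by decide)]
      exact Nat.zero_le _
  · refine main 24 (by norm_num) ?_ ?_ ?_
    · rw [fac_eq (a := 3) (b := 3) Nat.prime_two (by decide) (by decide),
        fac_eq (a := 3) (b := 3) Nat.prime_two (by decide) (by decide)]
    · rw [fac_eq (a := 1) (b := 2) Nat.prime_three (by decide) (by decide),
        fac_eq (a := 1) (b := 8) Nat.prime_three (by decide) (by decide)]
    · rw [fac_eq (a := 0) (b := 2) Nat.prime_five (by decide) (by decide)]
      exact Nat.zero_le _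
  · refine main 48 (by norm_num) ?_ ?_ ?_
    · rw [fac_eq (a := 4) (b := 45) Nat.prime_two (by decide) (by decide),
        fac_eq (a := 4) (b := 3) Nat.prime_two (by decide) (by decide)]
    · rw [fac_eq (a := 1) (b := 8) Nat.prime_three (by decide) (by decide),
        fac_eq (a := 1) (b := 16) Nat.prime_three (by decide) (by decide)]
    · rw [fac_eq (a := 0) (b := 6) Nat.prime_five (by decide) (by decide)]
      exact Nat.zero_le _
  · refine main 5760 (by norm_num) ?_ ?_ ?_
    · rw [fac_eq (a := 7) (b := 315) Nat.prime_two (by norm_num [Nat.factorial]) (by norm_num),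
        fac_eq (a := 7) (b := 45) Nat.prime_two (by norm_num) (by norm_num)]
    · rw [fac_eq (a := 2) (b := 80) Nat.prime_three (by norm_num [Nat.factorial]) (by norm_num),
        fac_eq (a := 2) (b := 640) Nat.prime_three (by norm_num) (by norm_num)]
    · rw [fac_eq (a := 1) (b := 24) Nat.prime_five (by norm_num [Nat.factorial]) (by norm_num),
        fac_eq (a := 1) (b := 1152) Nat.prime_five (by norm_num) (by norm_num)]
  · refine main 11520 (by norm_num) ?_ ?_ ?_
    · rw [fac_eq (a := 8) (b := 14175) Nat.prime_two (by norm_num [Nat.factorial]) (by norm_num),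
        fac_eq (a := 8) (b := 45) Nat.prime_two (by norm_num) (by norm_num)]
    · rw [fac_eq (a := 2) (b := 560) Nat.prime_three (by norm_num [Nat.factorial]) (by norm_num),
        fac_eq (a := 2) (b := 1280) Nat.prime_three (by norm_num) (by norm_num)]
    · rw [fac_eq (a := 1) (b := 144) Nat.prime_five (by norm_num [Nat.factorial]) (by norm_num),
        fac_eq (a := 1) (b := 2304) Nat.prime_five (by norm_num) (by norm_num)]

end Pool.Agent.Q290.Schur
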