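import Mathlib
import Pool.Agent.Q290.Schur.MinkC
import Pool.Agent.Q290.Schur.CenThree

/-!
# Invariance under power maps from the nonvanishing of central values
-/

set_option autoImplicit false
set_option linter.unusedSectionVars false

namespace Pool.Agent.Q290.Schur

open Pool.Agent.H302R2 Pool.Agent.H302R3 Pool.Agent.H541R3.ART Pool.Agent.W446.AS
  Pool.Agent.H302R5 Pool.Agent.Q7.TZ Pool.Agent.Q7.SZ Pool.Agent.Q7.GR

/-- the `k`-th power of a linear character, `h ↦ (ψ h) ^ k` -/
def pwL {H : Type} [Group H] (k : ℕ) (ψ : H →* ℂˣ) : H →* ℂˣ := (powMonoidHom k).comp ψ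

section abel

variable {C : Type} [CommGroup C] [Finite C]

omit [Finite C] in
lemma char_pow_card (ψ : C →* ℂˣ) (x : C) : ψ x ^ Nat.card C = 1 := by
  rw [← map_pow, pow_card_eq_one', map_one]

lemma pow_inj {k : ℕ} (hk : k.Coprime (Nat.card C)) {α β : C →* ℂˣ} (h : pwL k α = pwL k β) :
    α = β := by
  apply MonoidHom.ext
  intro x
  have h0 : α x ^ k = β x ^ k := DFunLike.congr_fun h x
  have h1 : (α x * (β x)⁻¹) ^ k = 1 := by rw [mul_pow, inv_pow, h0, mul_inv_cancel]
  have h2 : orderOf (α x * (β x)⁻¹) ∣ k := orderOf_dvd_of_pow_eq_one h1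
  have h3 : orderOf (α x * (β x)⁻¹) ∣ Nat.card C := by
    apply orderOf_dvd_of_pow_eq_one
    rw [mul_pow, inv_pow, char_pow_card, char_pow_card, inv_one, mul_one]
  have h4 := Nat.dvd_gcd h2 h3
  rw [hk] at h4
  have h5 : α x * (β x)⁻¹ = 1 := orderOf_eq_one_iff.mp (Nat.dvd_one.mp h4)
  exact mul_inv_eq_one.mp h5

/-- a real function on a cyclic group of small degree, whose support on the dual group is stable
under power maps, has power invariant multiplicities -/
theorem mult_pow [Fintype (C →* ℂˣ)] {a : (C →* ℂˣ) → ℤ} (h0 : ∀ ψ, 0 ≤ a ψ)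
    (hreal : ∀ ψ, a ψ⁻¹ = a ψ) (hsum : ∑ ψ : C →* ℂˣ, a ψ ≤ 5) {k : ℕ}
    (hk : k.Coprime (Nat.card C)) (hsupp : ∀ ψ, a ψ = 0 ↔ a (pwL k ψ) = 0) (ψ : C →* ℂˣ) :
    a (pwL k ψ) = a ψ := by
  classical
  by_contra hne
  set φ := pwL k ψ with hφ
  have hpos : 1 ≤ a ψ := by
    have h1 := h0 ψ
    by_contra h2
    have h3 : a ψ = 0 := by omega
    have h4 := (hsupp ψ).mp h3
    exact hne (by rw [← hφ] at h4; omega)
  have hpos' : 1 ≤ a φ := by
    have h1 := h0 φ
    by_contra h2
    have h3 : a φ = 0 := by omega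
    have h4 := (hsupp ψ).mpr h3
    exact hne (by omega)
  have e1 : ψ ≠ φ := fun h => hne (by rw [← h])
  have e2 : ψ ≠ ψ⁻¹ := by
    intro h
    apply e1
    apply MonoidHom.ext
    intro x
    have h0 : ψ x = (ψ x)⁻¹ := DFunLike.congr_fun h x
    have h1 : ψ x ^ 2 = 1 := by
      rw [sq]
      nth_rw 2 [h0]
      exact mul_inv_cancel _
    change ψ x = ψ x ^ k
    have h2 : orderOf (ψ x) ∣ 2 := orderOf_dvd_of_pow_eq_one h1
    have h3 : orderOf (ψ x) ∣ Nat.card C := orderOf_dvd_of_pow_eq_one (char_pow_card ψ x)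
    have h4 : k.Coprime (orderOf (ψ x)) := Nat.Coprime.coprime_dvd_right h3 hk
    rcases (Nat.dvd_prime Nat.prime_two).mp h2 with h5 | h5
    · have h6 := orderOf_eq_one_iff.mp h5
      rw [h6, one_pow]
    · rw [h5] at h4
      have h6 : Odd k := Nat.coprime_two_right.mp h4
      obtain ⟨j, hj⟩ := h6
      rw [hj, pow_succ, pow_mul, h1, one_pow, one_mul]
  have e3 : φ ≠ φ⁻¹ := by
    intro h
    apply e2
    apply pow_inj hk
    rw [← hφ, h, hφ]
    apply MonoidHom.ext
    intro x
    change (ψ x ^ k)⁻¹ = ((ψ x)⁻¹) ^ k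
    rw [inv_pow]
  have e4 : ψ ≠ φ⁻¹ := by
    intro h
    apply hne
    rw [← hreal φ, ← h]
  have e5 : ψ⁻¹ ≠ φ := fun h => by
    apply hne
    rw [← h, hreal]
  have e6 : ψ⁻¹ ≠ φ⁻¹ := by
    intro h
    apply e1
    apply MonoidHom.ext
    intro x
    have h0 : (ψ x)⁻¹ = (φ x)⁻¹ := DFunLike.congr_fun h x
    exact inv_injective h0
  have h1 : ∑ χ ∈ ({ψ, φ, ψ⁻¹, φ⁻¹} : Finset (C →* ℂˣ)), a χ ≤ ∑ χ : C →* ℂˣ, a χ :=
    Finset.sum_le_sum_of_subset_of_nonneg (Finset.subset_univ _) fun χ _ _ => h0 χ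
  rw [Finset.sum_insert (by simp [e1, e2, e4]), Finset.sum_insert (by simp [e5.symm, e3]),
    Finset.sum_insert (by simp [e6]), Finset.sum_singleton, hreal, hreal] at h1
  omega

end abel

section main

variable {G : Type} [Group G] [Finite G]

/-- from the multiplicities on cyclic groups to the values -/
lemma theta_pow_of {A : TwistData G 1} {k : ℕ} {g : G} (hk : k.Coprime (orderOf g))
    (h : ∀ ψ : Subgroup.zpowers g →* ℂˣ,
      meromorphicOrderAt (A.Lin (Subgroup.zpowers g) (pwL k ψ)) 1 =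
        meromorphicOrderAt (A.Lin (Subgroup.zpowers g) ψ) 1) :
    (theta A.ord : G → ℂ) (g ^ k) = (theta A.ord : G → ℂ) g := by
  classical
  set C := Subgroup.zpowers g with hC
  have hcC : ∀ a b : C, a * b = b * a := zpowers_comm g
  let _ : CommGroup C := { (inferInstance : Group C) with mul_comm := hcC }
  have := finite_dual C
  have : Fintype (C →* ℂˣ) := Fintype.ofFinite _
  have : Fintype C := Fintype.ofFinite C
  choose a ha1 ha2 using fun ψ : C →* ℂˣ => A.order_mult C ψ
  have hinv := fun c : C => inversion (η := fun c : C => (theta A.ord : G → ℂ) c) ha2 c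
  have hcard : Nat.card C = orderOf g := Nat.card_zpowers g
  have hk' : k.Coprime (Nat.card C) := by rw [hcard]; exact hk
  have ha : ∀ ψ, a (pwL k ψ) = a ψ := by
    intro ψ
    have h1 := h ψ
    rw [ha1, ha1] at h1
    exact WithTop.coe_injective h1
  let c : C := ⟨g, Subgroup.mem_zpowers g⟩
  have h2 : (theta A.ord : G → ℂ) (g ^ k) =
      ∑ ψ : C →* ℂˣ, (a ψ : ℂ) * ((ψ (c ^ k) : ℂˣ) : ℂ) := hinv (c ^ k)
  have h3 : (theta A.ord : G → ℂ) g = ∑ ψ : C →* ℂˣ, (a ψ : ℂ) * ((ψ c : ℂˣ) : ℂ) := hinv c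
  have hbij : Function.Bijective (fun ψ : C →* ℂˣ => pwL k ψ) := by
    rw [Fintype.bijective_iff_injective_and_card]
    exact ⟨fun α β h => pow_inj hk' h, rfl⟩
  rw [h2, h3, ← (Equiv.ofBijective _ hbij).sum_comp (fun ψ : C →* ℂˣ =>
    (a ψ : ℂ) * ((ψ c : ℂˣ) : ℂ))]
  refine Finset.sum_congr rfl fun ψ _ => ?_
  rw [Equiv.ofBijective_apply, ha, map_pow]
  rfl

/-- **Power invariance** from the nonvanishing of central values -/
theorem theta_pow {A : TwistData G 1} (F : FunEq A) {r : ℕ} (hr5 : r ≤ 5)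
    (hr : meromorphicOrderAt (A.Lin ⊥ 1) 1 = (r : WithTop ℤ)) {g : G} {k : ℕ}
    (hk : k.Coprime (orderOf g))
    (hsh : ∀ ψ : Subgroup.zpowers g →* ℂˣ,
      meromorphicOrderAt (A.Lin (Subgroup.zpowers g) ψ) 1 = 0 ↔
        meromorphicOrderAt (A.Lin (Subgroup.zpowers g) (pwL k ψ)) 1 = 0) :
    ∀ ψ : Subgroup.zpowers g →* ℂˣ,
      meromorphicOrderAt (A.Lin (Subgroup.zpowers g) (pwL k ψ)) 1 =
        meromorphicOrderAt (A.Lin (Subgroup.zpowers g) ψ) 1 := by
  classical
  have h1 := A.theta_one hr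
  set C := Subgroup.zpowers g with hC
  have hcC : ∀ a b : C, a * b = b * a := zpowers_comm g
  let _ : CommGroup C := { (inferInstance : Group C) with mul_comm := hcC }
  have := finite_dual C
  have : Fintype (C →* ℂˣ) := Fintype.ofFinite _
  have : Fintype C := Fintype.ofFinite C
  choose a ha1 ha2 using fun ψ : C →* ℂˣ => A.order_mult C ψ
  have hinv := fun c : C => inversion (η := fun c : C => (theta A.ord : G → ℂ) c) ha2 c
  have h0 : ∀ ψ, 0 ≤ a ψ := by
    intro ψ
    have h2 := A.hol C ψ (sol_of_comm hcC)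
    rw [ha1] at h2
    exact_mod_cast h2
  have hreal : ∀ ψ, a ψ⁻¹ = a ψ := by
    intro ψ
    have h2 := ha2 ψ⁻¹
    have h3 := ha2 ψ
    rw [finsum_eq_sum_of_fintype] at h2 h3
    have h4 : ∑ c : C, (theta A.ord : G → ℂ) c * (((ψ⁻¹ c)⁻¹ : ℂˣ) : ℂ) =
        ∑ c : C, (theta A.ord : G → ℂ) c * (((ψ c)⁻¹ : ℂˣ) : ℂ) := by
      rw [← Equiv.sum_comp (Equiv.inv C)]
      refine Finset.sum_congr rfl fun c _ => ?_
      rw [Equiv.inv_apply, Subgroup.coe_inv, F.theta_real, MonoidHom.inv_apply, map_inv, inv_inv]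
    rw [h4, h3] at h2
    have h5 : (Nat.card C : ℂ) ≠ 0 := card_ne
    exact_mod_cast (mul_right_cancel₀ h5 h2).symm
  have hsum : ∑ ψ : C →* ℂˣ, a ψ ≤ 5 := by
    have h2 := hinv 1
    have h3 : (theta A.ord : G → ℂ) ((1 : C) : G) = r := h1
    rw [h3] at h2
    have h4 : ((∑ ψ : C →* ℂˣ, a ψ : ℤ) : ℂ) = ((r : ℤ) : ℂ) := by
      push_cast
      rw [h2]
      refine Finset.sum_congr rfl fun ψ _ => ?_
      rw [map_one, Units.val_one, mul_one]
    have h5 : ∑ ψ : C →* ℂˣ, a ψ = (r : ℤ) := by exact_mod_cast h4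
    rw [h5]
    exact_mod_cast hr5
  have hsupp : ∀ ψ, a ψ = 0 ↔ a (pwL k ψ) = 0 := by
    intro ψ
    have h2 : meromorphicOrderAt (A.Lin C ψ) 1 = 0 ↔
      meromorphicOrderAt (A.Lin C (pwL k ψ)) 1 = 0 := hsh ψ
    rw [ha1, ha1] at h2
    constructor
    · intro h3
      exact_mod_cast h2.mp (by rw [h3]; rfl)
    · intro h3
      exact_mod_cast h2.mpr (by rw [h3]; rfl)
  have hcard : Nat.card C = orderOf g := Nat.card_zpowers g
  have hk' : k.Coprime (Nat.card C) := by rw [hcard]; exact hk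
  intro ψ
  have h2 := mult_pow h0 hreal hsum hk' hsupp ψ
  rw [ha1 ψ]
  exact (ha1 (pwL k ψ)).trans (by rw [h2])

/-- no poles for solvable groups and orders at most three, or orders at most two -/
theorem ord_nonneg {A : TwistData G 1} (F : FunEq A) {r : ℕ}
    (hr : meromorphicOrderAt (A.Lin ⊥ 1) 1 = (r : WithTop ℤ))
    (hcase : r ≤ 2 ∨ (r = 3 ∧ Group.IsSolvable G)) : ∀ χ ∈ Irr G, 0 ≤ A.ord χ := by
  classical
  have h1 := A.theta_one hr
  rcases hcase with h | ⟨rfl, hG⟩
  · rcases Nat.lt_or_ge r 2 with h2 | h2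
    · exact small_nonneg A.ord A.isSol (by omega) h1
    · have h3 : r = 2 := le_antisymm h h2
      rw [h3] at h1
      obtain ⟨D, -, -, h4, -⟩ := central_nonneg A.ord A.isSol (by rw [h1]; norm_num)
        (fun g => F.theta_real g) (fun χ hχ hs => F.ord_even hχ hs)
      exact h4
  · intro χ hχ
    have hv : Virt (theta A.ord : G → ℂ) := theta_virt _
    have hev : EvP (theta A.ord : G → ℂ) := by
      intro χ hχ hs
      obtain ⟨k, hk⟩ := F.ord_even hχ hs
      refine ⟨k, ?_⟩
      rw [pr_theta A.ord hχ, hk]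
      push_cast
      ring
    obtain ⟨k, hk⟩ := solmain _ G rfl hG _ (A.isSol.comp_sol hG (MonoidHom.id G)) hv
      (fun g => F.theta_real g) ⟨3, le_rfl, by rw [MonoidHom.id_apply, h1]⟩ hev χ hχ
    have h2 : pr (theta A.ord) χ = k := hk
    rw [pr_theta A.ord hχ] at h2
    have h3 : A.ord χ = k := by exact_mod_cast h2
    rw [h3]
    exact Int.natCast_nonneg k

/-- degree two: the index of the kernel is at most twelve -/
theorem index_two {A : TwistData G 1} (F : FunEq A)
    (hr : meromorphicOrderAt (A.Lin ⊥ 1) 1 = ((2 : ℕ) : WithTop ℤ))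
    (hpow : ∀ (g : G) (k : ℕ), k.Coprime (orderOf g) →
      (theta A.ord : G → ℂ) (g ^ k) = theta A.ord g) :
    (KerS (theta A.ord : G → ℂ)).index ≤ 12 := by
  classical
  have h1 := A.theta_one hr
  have hquad : ∀ μ : G →* ℂˣ, μ * μ = 1 → μ.ker.index ≤ 2 := fun μ h => index_ker_le μ h
  rcases central_frame A.ord A.isSol (by rw [h1]; norm_num) (fun g => F.theta_real g)
    (fun χ hχ hs => F.ord_even hχ hs) with ⟨μ, ν, hμ, hν, -, hc⟩ | ⟨B, l, hB, -, hl, -, hc⟩
  · have hle : μ.ker ⊓ ν.ker ≤ KerS (theta A.ord : G → ℂ) := by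
      intro x hx
      rw [mem_kerS]
      intro χ hχ hp
      rw [pr_theta A.ord hχ] at hp
      have hp' : A.ord χ ≠ 0 := by
        intro h
        rw [h] at hp
        exact hp (by simp)
      have hx1 : μ x = 1 := MonoidHom.mem_ker.mp hx.1
      have hx2 : ν x = 1 := MonoidHom.mem_ker.mp hx.2
      rcases hc χ hχ hp' with h | h
      · rw [h]
        simp [hx1]
      · rw [h]
        simp [hx2]
    have h2 := Nat.le_of_dvd (Nat.pos_of_ne_zero Subgroup.index_ne_zero_of_finite)
      (Subgroup.index_dvd_of_le hle)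
    have h3 : (μ.ker ⊓ ν.ker).index ≤ μ.ker.index * ν.ker.index := Subgroup.index_inf_le
    have h4 := hquad μ hμ
    have h5 := hquad ν hν
    have h6 : μ.ker.index * ν.ker.index ≤ 2 * 2 := Nat.mul_le_mul h4 h5
    omega
  · have hle : l.ker.map B.subtype ≤ KerS (theta A.ord : G → ℂ) := by
      rintro x ⟨b, hb, rfl⟩
      rw [mem_kerS]
      intro χ hχ hp
      rw [pr_theta A.ord hχ] at hp
      have hp' : A.ord χ ≠ 0 := by
        intro h
        rw [h] at hp
        exact hp (by simp)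
      exact hc χ hχ hp' b (MonoidHom.mem_ker.mp hb)
    have hindex : (l.ker.map B.subtype).index = l.ker.index * B.index := by
      rw [Subgroup.index_map_subtype]
    have : Finite l.range := Finite.of_surjective _ l.rangeRestrict_surjective
    have hcyc : IsCyclic l.range := inferInstance
    obtain ⟨⟨u, hu⟩, hgen⟩ := hcyc.exists_generator
    obtain ⟨b, hb⟩ := hu
    set m := orderOf (⟨u, ⟨b, hb⟩⟩ : l.range) with hm
    have hcard : Nat.card l.range = m := (orderOf_eq_card_of_forall_mem_zpowers hgen).symm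
    have hmpos : 0 < m := orderOf_pos _
    have hpw : ∀ d : ℕ, l b ^ d = 1 ↔ m ∣ d := by
      intro d
      rw [hm, orderOf_dvd_iff_pow_eq_one, hb]
      constructor
      · intro h; exact Subtype.ext h
      · intro h; exact congrArg Subtype.val h
    have hmb : m ∣ orderOf (b : G) := by
      rw [← hpw, ← map_pow]
      have h2 : b ^ orderOf (b : G) = 1 := by
        rw [Subgroup.orderOf_coe, pow_orderOf_eq_one]
      rw [h2, map_one]
    have hunit : ∀ w : (ZMod m)ˣ, w = 1 ∨ w = -1 := by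
      intro w
      have hne : NeZero (orderOf (b : G)) := ⟨(orderOf_pos _).ne'⟩
      obtain ⟨v, hv⟩ := ZMod.unitsMap_surjective hmb w
      set k := (v : ZMod (orderOf (b : G))).val with hk
      have hcop : k.Coprime (orderOf (b : G)) := ZMod.val_coe_unit_coprime v
      have hkw : (k : ZMod m) = (w : ZMod m) := by
        rw [← hv, ZMod.unitsMap_val, hk]
        exact (ZMod.natCast_val _)
      have h2 := hpow (b : G) k hcop
      have h3 : (theta A.ord : G → ℂ) ((b : G) ^ k) =
          ((l b ^ k : ℂˣ) : ℂ) + (((l b ^ k)⁻¹ : ℂˣ) : ℂ) := by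
        have := hl (b ^ k)
        rw [map_pow] at this
        exact this
      rw [h3, hl b] at h2
      set z : ℂˣ := l b with hz
      have h4 : (((z ^ k : ℂˣ) : ℂ) - z) * (((z ^ k : ℂˣ) : ℂ) - ((z⁻¹ : ℂˣ) : ℂ)) = 0 := by
        have e1 : ((z ^ k : ℂˣ) : ℂ) * (((z ^ k)⁻¹ : ℂˣ) : ℂ) = 1 := by
          rw [← Units.val_mul, mul_inv_cancel, Units.val_one]
        have e2 : ((z : ℂˣ) : ℂ) * ((z⁻¹ : ℂˣ) : ℂ) = 1 := by
          rw [← Units.val_mul, mul_inv_cancel, Units.val_one]
        linear_combination ((z ^ k : ℂˣ) : ℂ) * h2 - e1 + e2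
      rcases mul_eq_zero.mp h4 with h5 | h5
      · left
        have h6 : z ^ k = z := Units.ext (sub_eq_zero.mp h5)
        have hkpos : 1 ≤ k ∨ m = 1 := by
          rcases Nat.eq_zero_or_pos k with h | h
          · right
            rw [h] at h6
            have h7 : l b ^ 1 = 1 := by rw [pow_one, ← hz, ← h6, pow_zero]
            exact Nat.dvd_one.mp ((hpw 1).mp h7)
          · left; exact h
        rcases hkpos with h | h
        · have h7 : l b ^ (k - 1) = 1 := by
            rw [← hz]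
            have : z ^ (k - 1) * z = z := by rw [← pow_succ, Nat.sub_add_cancel h, h6]
            exact mul_eq_right.mp this
          have h8 := (hpw _).mp h7
          apply Units.ext
          rw [← hkw, Units.val_one]
          have h9 : ((k - 1 : ℕ) : ZMod m) = 0 := (ZMod.natCast_eq_zero_iff _ _).mpr h8
          rw [Nat.cast_sub h, sub_eq_zero] at h9
          simpa using h9
        · have : Subsingleton (ZMod m) := by
            rw [h]
            infer_instance
          exact Units.ext (Subsingleton.elim _ _)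
      · right
        have h6 : z ^ k = z⁻¹ := Units.ext (sub_eq_zero.mp h5)
        have h7 : l b ^ (k + 1) = 1 := by
          rw [← hz, pow_succ, h6, inv_mul_cancel]
        have h8 := (hpw _).mp h7
        apply Units.ext
        rw [← hkw, Units.val_neg, Units.val_one, eq_neg_iff_add_eq_zero]
        have h9 : ((k + 1 : ℕ) : ZMod m) = 0 := (ZMod.natCast_eq_zero_iff _ _).mpr h8
        push_cast at h9
        exact h9
    have htot : Nat.totient m ≤ 2 := by
      have hne : NeZero m := ⟨hmpos.ne'⟩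
      rw [← ZMod.card_units_eq_totient m]
      have h2 : (Finset.univ : Finset (ZMod m)ˣ) ⊆ {1, -1} := by
        intro w _
        rcases hunit w with h | h <;> simp [h]
      have h3 := Finset.card_le_card h2
      rw [Finset.card_univ] at h3
      exact h3.trans Finset.card_le_two
    have hm6 : m ≤ 6 := by
      rcases mem_of_totient_le_two hmpos htot with h | h | h | h | h <;> omega
    have h2 := Nat.le_of_dvd (Nat.pos_of_ne_zero Subgroup.index_ne_zero_of_finite)
      (Subgroup.index_dvd_of_le hle)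
    rw [hindex, Subgroup.index_ker, hcard] at h2
    have h6 : m * B.index ≤ 6 * 2 := Nat.mul_le_mul hm6 hB
    omega

end main

end Pool.Agent.Q290.Schur
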