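import Mathlib
import Pool.Agent.Q290.Schur.MinkD
import Pool.Agent.H977R3.CM.Aut

/-!
# Convolution of irreducible characters; power maps
-/

set_option autoImplicit false
set_option linter.unusedSectionVars false

namespace Pool.Agent.Q290.Schur

open Pool.Agent.H302R2 Pool.Agent.H302R3 Pool.Agent.H541R3.ART Pool.Agent.W446.AS
  Pool.Agent.H302R5 Pool.Agent.Q7.TZ Pool.Agent.Q7.SZ Pool.Agent.Q7.GR

variable {G : Type} [Group G] [Finite G]

/-- convolution of irreducible characters -/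
lemma conv_irr [Fintype G] {χ ψ : G → ℂ} (hχ : χ ∈ Irr G) (hψ : ψ ∈ Irr G) (b : G) :
    χ 1 * ∑ y : G, χ y⁻¹ * ψ (b * y) = if χ = ψ then (Nat.card G : ℂ) * ψ b else 0 := by
  classical
  obtain ⟨n, ρ, hρ, rfl⟩ := exists_rep hψ
  obtain ⟨c, hc1, hc2⟩ := hρ.class_op (θ := χ) (fun g x => Irr.conj hχ g x)
  have h1 : ∑ y : G, χ y⁻¹ * ρ.character (b * y) = c * ρ.character b := by
    rw [← Equiv.sum_comp (Equiv.inv G) (fun y => χ y⁻¹ * ρ.character (b * y))]
    simp only [Equiv.inv_apply, inv_inv]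
    have h2 : ρ b * (∑ g : G, χ g • ρ g⁻¹) = c • ρ b := by
      apply LinearMap.ext
      intro v
      rw [Module.End.mul_apply, LinearMap.sum_apply]
      have h3 : ∑ g : G, (χ g • ρ g⁻¹) v = c • v := by
        rw [← hc1 v]
        rfl
      rw [h3, map_smul, LinearMap.smul_apply]
    have h4 := congrArg (LinearMap.trace ℂ _) h2
    rw [Finset.mul_sum, map_sum, map_smul] at h4
    change _ = c * ρ.character b at h4
    rw [← h4]
    refine Finset.sum_congr rfl fun g _ => ?_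
    rw [mul_smul_comm, map_smul, ← map_mul]
    rfl
  rw [h1]
  have hfin : (Module.finrank ℂ (Fin n → ℂ) : ℂ) = ρ.character 1 := by
    rw [Representation.char_one]
  rw [hfin] at hc2
  obtain ⟨d, hd, hd1⟩ := irr_deg_pos (irr_of_irred hρ)
  have hd0 : ρ.character 1 ≠ 0 := by
    rw [hd1]
    exact_mod_cast hd.ne'
  split_ifs with h
  · rw [h] at hc2 ⊢
    rw [pair_self (irr_of_irred hρ)] at hc2
    rw [hc2]
    ring
  · rw [pair_ne hχ (irr_of_irred hρ) h] at hc2
    have h5 : c = 0 := by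
      rcases mul_eq_zero.mp hc2.symm with h6 | h6
      · exact h6
      · exact absurd h6 hd0
    rw [h5]
    ring

/-- class sums act as scalars -/
lemma class_irr [Fintype G] {χ : G → ℂ} (hχ : χ ∈ Irr G) (h g : G) :
    χ 1 * ∑ x : G, χ (h * (x⁻¹ * g * x)) = (Nat.card G : ℂ) * (χ h * χ g) := by
  classical
  obtain ⟨n, ρ, hρ, rfl⟩ := exists_rep hχ
  obtain ⟨c, hc⟩ := hρ.scalar (∑ x : G, ρ (x⁻¹ * g * x)) (by
    intro y v
    rw [LinearMap.sum_apply, LinearMap.sum_apply, map_sum, ← Equiv.sum_comp (Equiv.mulRight y⁻¹)]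
    refine Finset.sum_congr rfl fun x _ => ?_
    rw [Equiv.coe_mulRight, ← Module.End.mul_apply, ← Module.End.mul_apply, ← map_mul, ← map_mul]
    congr 2
    group)
  have hT : (∑ x : G, ρ (x⁻¹ * g * x)) = c • (1 : (Fin n → ℂ) →ₗ[ℂ] (Fin n → ℂ)) := by
    apply LinearMap.ext
    intro v
    rw [hc v]
    rfl
  have h1 := congrArg (LinearMap.trace ℂ _) hT
  rw [map_sum, map_smul] at h1
  have h2 : ∀ x : G, LinearMap.trace ℂ _ (ρ (x⁻¹ * g * x)) = ρ.character g := by
    intro x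
    have := ρ.char_conj g x⁻¹
    rw [inv_inv] at this
    exact this
  rw [Finset.sum_congr rfl (fun x _ => h2 x), Finset.sum_const, Finset.card_univ, nsmul_eq_mul,
    ← Nat.card_eq_fintype_card] at h1
  have h3 : LinearMap.trace ℂ _ (1 : (Fin n → ℂ) →ₗ[ℂ] (Fin n → ℂ)) = ρ.character 1 := by
    change _ = LinearMap.trace ℂ _ (ρ 1)
    rw [map_one ρ]
  rw [h3, smul_eq_mul] at h1
  have h4 : ρ h * (∑ x : G, ρ (x⁻¹ * g * x)) = c • ρ h := by
    rw [hT, mul_smul_comm, mul_one]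
  have h5 := congrArg (LinearMap.trace ℂ _) h4
  rw [Finset.mul_sum, map_sum, map_smul, smul_eq_mul] at h5
  have h6 : ∑ x : G, ρ.character (h * (x⁻¹ * g * x)) = c * ρ.character h := by
    rw [show c * ρ.character h = c * LinearMap.trace ℂ _ (ρ h) from rfl, ← h5]
    refine Finset.sum_congr rfl fun x _ => ?_
    rw [← map_mul]
    rfl
  rw [h6]
  linear_combination (-ρ.character h) * h1

/-- power maps prime to the group order are induced by field automorphisms -/
lemma exists_sigma {N k : ℕ} (hN : 0 < N) (hk : k.Coprime N) :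
    ∃ σ : ℂ ≃+* ℂ, ∀ z : ℂ, z ^ N = 1 → σ z = z ^ k := by
  have : NeZero N := ⟨hN.ne'⟩
  have : NeZero (N : ℚ) := ⟨by exact_mod_cast hN.ne'⟩
  have : IsCyclotomicExtension {N} ℚ (CyclotomicField N ℚ) :=
    CyclotomicField.isCyclotomicExtension N ℚ
  have hcy : Irreducible (Polynomial.cyclotomic N ℚ) := Polynomial.cyclotomic.irreducible_rat hN
  have hz := IsCyclotomicExtension.zeta_spec N ℚ (CyclotomicField N ℚ)
  have hμ := hz.pow_of_coprime k hk
  let g : (CyclotomicField N ℚ) ≃ₐ[ℚ] (CyclotomicField N ℚ) :=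
    IsCyclotomicExtension.fromZetaAut hμ hcy
  have hg : g (IsCyclotomicExtension.zeta N ℚ (CyclotomicField N ℚ)) =
      IsCyclotomicExtension.zeta N ℚ (CyclotomicField N ℚ) ^ k :=
    IsCyclotomicExtension.fromZetaAut_spec hμ hcy
  let j : CyclotomicField N ℚ →+* ℂ :=
    (IsAlgClosed.lift (M := ℂ) (R := ℚ) (S := CyclotomicField N ℚ) :
      CyclotomicField N ℚ →ₐ[ℚ] ℂ)
  obtain ⟨σ, hσ⟩ := Pool.Agent.H977R3.CM.exists_aut j
    (g : (CyclotomicField N ℚ) ≃+* (CyclotomicField N ℚ))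
  refine ⟨σ, fun z hz1 => ?_⟩
  have hjz : IsPrimitiveRoot (j (IsCyclotomicExtension.zeta N ℚ (CyclotomicField N ℚ))) N :=
    hz.map_of_injective j.injective
  obtain ⟨i, -, hi⟩ := hjz.eq_pow_of_pow_eq_one hz1
  rw [← hi, map_pow, hσ]
  change (j (g (IsCyclotomicExtension.zeta N ℚ (CyclotomicField N ℚ)))) ^ i = _
  rw [hg, map_pow]
  ring

/-- the composition of an irreducible character with a power map prime to the group order is
irreducible -/
theorem pow_irr {χ : G → ℂ} (hχ : χ ∈ Irr G) {k : ℕ} (hk : k.Coprime (Nat.card G)) :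
    (fun g => χ (g ^ k)) ∈ Irr G := by
  obtain ⟨σ, hσ⟩ := exists_sigma (N := Nat.card G) Nat.card_pos hk
  have h1 := irr_gal σ hχ
  have h2 : (fun g => σ (χ g)) = fun g => χ (g ^ k) := by
    funext g
    obtain ⟨ι, hι, ψ, n, hn⟩ := ((irr_heil hχ).toSol.zp g).comm_decomp (zpowers_comm g)
    have e1 := hn ⟨g, Subgroup.mem_zpowers g⟩
    have e2 := hn ⟨g ^ k, Subgroup.npow_mem_zpowers g k⟩
    simp only at e1 e2
    rw [e1, e2, map_sum]
    refine Finset.sum_congr rfl fun i _ => ?_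
    rw [map_mul, map_natCast, hσ]
    · congr 1
      rw [show (⟨g ^ k, Subgroup.npow_mem_zpowers g k⟩ : Subgroup.zpowers g) =
        ⟨g, Subgroup.mem_zpowers g⟩ ^ k from rfl, map_pow]
      rfl
    · rw [← Units.val_pow_eq_pow_val, ← map_pow]
      have h3 : (⟨g, Subgroup.mem_zpowers g⟩ : Subgroup.zpowers g) ^ Nat.card G = 1 := by
        apply Subtype.ext
        change g ^ Nat.card G = 1
        exact pow_card_eq_one'
      rw [h3, map_one, Units.val_one]
  rw [← h2]
  exact h1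

end Pool.Agent.Q290.Schur
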