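import Mathlib
import Pool.Agent.Q290.Schur.Sol
import Pool.Agent.Q7.SZ.Rk2

/-!
# Crystallographic restriction for functions of degree at most three
-/

set_option autoImplicit false
set_option linter.unusedSectionVars false

namespace Pool.Agent.Q290.Schur

open Pool.Agent.H302R2 Pool.Agent.H302R3 Pool.Agent.H541R3.ART Pool.Agent.W446.AS
  Pool.Agent.H302R5 Pool.Agent.H302R6 Pool.Agent.Q7.TZ Pool.Agent.Q7.SZ ComplexConjugate
  Polynomial

/-- three roots of unity with rational power sums -/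
lemma ord_of_rat (a : Fin 3 → ℂ) (hq : ∀ k : ℕ, ∃ q : ℚ, ∑ i, a i ^ k = (q : ℂ)) {N : ℕ}
    (hN : 0 < N) (hfin : ∀ i, a i ^ N = 1) (i : Fin 3) : a i ^ 4 = 1 ∨ a i ^ 6 = 1 := by
  obtain ⟨p1, hp1⟩ := hq 1
  obtain ⟨p2, hp2⟩ := hq 2
  obtain ⟨p3, hp3⟩ := hq 3
  simp only [pow_one] at hp1
  rw [Fin.sum_univ_three] at hp1 hp2 hp3
  set d := orderOf (a i) with hd
  have hpos : 0 < d := by
    rw [hd, orderOf_pos_iff, isOfFinOrder_iff_pow_eq_one]
    exact ⟨N, hN, hfin i⟩
  have hprim : IsPrimitiveRoot (a i) d := IsPrimitiveRoot.orderOf (a i)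
  let e2 : ℚ := (p1 ^ 2 - p2) / 2
  let e3 : ℚ := (p1 ^ 3 - 3 * p1 * p2 + 2 * p3) / 6
  let Q : ℚ[X] := X ^ 3 + (C (-p1) * X ^ 2 + C e2 * X + C (-e3))
  have hlow : (C (-p1) * X ^ 2 + C e2 * X + C (-e3) : ℚ[X]).degree < 3 :=
    lt_of_le_of_lt degree_quadratic_le (by norm_num)
  have hmon : Q.Monic := monic_X_pow_add hlow
  have hdeg : Q.natDegree = 3 := by
    rw [natDegree_eq_of_degree_eq_some]
    change (X ^ 3 + (C (-p1) * X ^ 2 + C e2 * X + C (-e3)) : ℚ[X]).degree = _
    rw [degree_add_eq_left_of_degree_lt]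
    · simp
    · rw [degree_X_pow]
      exact_mod_cast hlow
  have hroot : aeval (a i) Q = 0 := by
    have h1 : aeval (a i) Q = a i ^ 3 + (-(p1 : ℂ) * a i ^ 2 + (e2 : ℂ) * a i + -(e3 : ℂ)) := by
      simp [Q]
    rw [h1]
    have h2 : (e2 : ℂ) = a 0 * a 1 + a 1 * a 2 + a 2 * a 0 := by
      change (((p1 ^ 2 - p2) / 2 : ℚ) : ℂ) = _
      push_cast
      rw [← hp1, ← hp2]
      ring
    have h3 : (e3 : ℂ) = a 0 * a 1 * a 2 := by
      change (((p1 ^ 3 - 3 * p1 * p2 + 2 * p3) / 6 : ℚ) : ℂ) = _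
      push_cast
      rw [← hp1, ← hp2, ← hp3]
      ring
    rw [h2, h3, ← hp1]
    fin_cases i <;> simp only [Fin.zero_eta, Fin.mk_one, Fin.reduceFinMk] <;> ring
  have htot : Nat.totient d ≤ 3 := by
    have h1 := cyclotomic_eq_minpoly_rat hprim hpos
    have h2 := minpoly.dvd ℚ (a i) hroot
    rw [← h1] at h2
    have h3 := natDegree_le_of_dvd h2 hmon.ne_zero
    rw [natDegree_cyclotomic, hdeg] at h3
    exact h3
  have htot2 : Nat.totient d ≤ 2 := by
    rcases Nat.lt_or_ge 2 d with h | h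
    · have := Nat.totient_even h
      obtain ⟨m, hm⟩ := this
      omega
    · have := Nat.totient_le d
      omega
  have hcases := mem_of_totient_le_two hpos htot2
  have h4 : d ∣ 4 ∨ d ∣ 6 := by
    rcases hcases with h | h | h | h | h <;> rw [h] <;> decide
  rcases h4 with h | h
  · left; exact orderOf_dvd_iff_pow_eq_one.mp h
  · right; exact orderOf_dvd_iff_pow_eq_one.mp h

open Classical in
/-- the real part of a root of unity of order `1`, `2`, `3`, `4` or `6` -/
lemma re_formula (z : ℂ) (h : z ^ 4 = 1 ∨ z ^ 6 = 1) :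
    z.re = 3 * (if z ^ 1 = 1 then 1 else 0) - 3 / 2 * (if z ^ 2 = 1 then 1 else 0)
      - (if z ^ 3 = 1 then 1 else 0) + 1 / 2 * (if z ^ 6 = 1 then 1 else 0) := by
  by_cases h1 : z = 1
  · subst h1; norm_num
  by_cases h2 : z = -1
  · subst h2
    have e1 : ((-1 : ℂ)) ^ 3 ≠ 1 := by norm_num
    have e2 : ((-1 : ℂ)) ^ 1 ≠ 1 := by norm_num
    rw [if_neg e1, if_neg e2]
    norm_num
  have e1 : z ^ 1 ≠ 1 := by rwa [pow_one]
  have e2 : z ^ 2 ≠ 1 := by
    intro h3
    have h4 : (z - 1) * (z + 1) = 0 := by linear_combination h3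
    rcases mul_eq_zero.mp h4 with h | h
    · exact h1 (sub_eq_zero.mp h)
    · exact h2 (eq_neg_of_add_eq_zero_left h)
  rw [if_neg e1, if_neg e2]
  have hre : ∀ w : ℂ, w.re ^ 2 - w.im ^ 2 = (w ^ 2).re ∧ 2 * w.re * w.im = (w ^ 2).im := by
    intro w
    rw [sq (w : ℂ), Complex.mul_re, Complex.mul_im]
    constructor <;> ring
  rcases h with h | h
  · have h3 : z ^ 2 = -1 := by
      have h4 : (z ^ 2 - 1) * (z ^ 2 + 1) = 0 := by linear_combination h
      rcases mul_eq_zero.mp h4 with h | h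
      · exact absurd (sub_eq_zero.mp h) e2
      · exact eq_neg_of_add_eq_zero_left h
    have e3 : z ^ 3 ≠ 1 := by
      intro h4
      apply h2
      have h5 : z ^ 3 = z ^ 2 * z := by ring
      rw [h5, h3] at h4
      linear_combination -h4
    have e6 : z ^ 6 ≠ 1 := by
      have h5 : z ^ 6 = (z ^ 2) ^ 3 := by ring
      rw [h5, h3]
      norm_num
    rw [if_neg e3, if_neg e6]
    obtain ⟨h6, h7⟩ := hre z
    rw [h3] at h6 h7
    simp at h6 h7
    rcases h7 with h8 | h8
    · rw [h8]; ring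
    · rw [h8] at h6
      nlinarith [sq_nonneg z.re]
  · rw [if_pos h]
    have h4 : (z ^ 3 - 1) * (z ^ 3 + 1) = 0 := by linear_combination h
    rcases mul_eq_zero.mp h4 with h5 | h5
    · have h6 : z ^ 3 = 1 := sub_eq_zero.mp h5
      rw [if_pos h6]
      have h7 : (z - 1) * (z ^ 2 + z + 1) = 0 := by linear_combination h6
      have h8 := (mul_eq_zero.mp h7).resolve_left (sub_ne_zero.mpr h1)
      have h9 := congrArg Complex.re h8
      have h10 := congrArg Complex.im h8
      obtain ⟨h11, h12⟩ := hre z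
      simp only [Complex.add_re, Complex.add_im, Complex.one_re, Complex.one_im,
        Complex.zero_re, Complex.zero_im] at h9 h10
      rw [← h11] at h9
      rw [← h12] at h10
      have h13 : z.im * (2 * z.re + 1) = 0 := by linear_combination h10
      rcases mul_eq_zero.mp h13 with h14 | h14
      · rw [h14] at h9
        nlinarith [sq_nonneg (2 * z.re + 1)]
      · linarith
    · have h6 : z ^ 3 = -1 := eq_neg_of_add_eq_zero_left h5
      have e3 : z ^ 3 ≠ 1 := by rw [h6]; norm_num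
      rw [if_neg e3]
      have h7 : (z + 1) * (z ^ 2 - z + 1) = 0 := by linear_combination h6
      have h8 := (mul_eq_zero.mp h7).resolve_left (fun h => h2 (eq_neg_of_add_eq_zero_left h))
      have h9 := congrArg Complex.re h8
      have h10 := congrArg Complex.im h8
      obtain ⟨h11, h12⟩ := hre z
      simp only [Complex.add_re, Complex.add_im, Complex.sub_re, Complex.sub_im, Complex.one_re,
        Complex.one_im, Complex.zero_re, Complex.zero_im] at h9 h10
      rw [← h11] at h9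
      rw [← h12] at h10
      have h13 : z.im * (2 * z.re - 1) = 0 := by linear_combination h10
      rcases mul_eq_zero.mp h13 with h14 | h14
      · rw [h14] at h9
        nlinarith [sq_nonneg (2 * z.re - 1)]
      · linarith

open Classical in
/-- equal numbers of roots of order dividing `e`, for `e = 1, 2, 3, 4, 6` -/
lemma core (a b : Fin 3 → ℂ) (ha0 : ∀ i, a i ≠ 0) (hb : ∀ i, b i ^ 4 = 1 ∨ b i ^ 6 = 1)
    (hc : ∀ e : ℕ, 0 < e → ∑ i, (if a i ^ e = 1 then (1 : ℝ) else 0)
      = ∑ i, (if b i ^ e = 1 then (1 : ℝ) else 0)) :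
    (∀ i, a i ^ 4 = 1 ∨ a i ^ 6 = 1) ∧ ∑ i, (a i).re = ∑ i, (b i).re := by
  have hie : ∀ z : ℂ, z ≠ 0 → (if z ^ 4 = 1 ∨ z ^ 6 = 1 then (1 : ℝ) else 0)
      = (if z ^ 4 = 1 then (1 : ℝ) else 0) + (if z ^ 6 = 1 then (1 : ℝ) else 0)
        - (if z ^ 2 = 1 then (1 : ℝ) else 0) := by
    intro z hz
    by_cases h4 : z ^ 4 = 1
    · by_cases h6 : z ^ 6 = 1
      · have h2 : z ^ 2 = 1 := by
          have h7 : z ^ 6 = z ^ 4 * z ^ 2 := by ring
          rw [h7, h4, one_mul] at h6
          exact h6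
        rw [if_pos (Or.inl h4), if_pos h4, if_pos h6, if_pos h2]; norm_num
      · have h2 : z ^ 2 ≠ 1 := by
          intro h2
          apply h6
          have h7 : z ^ 6 = (z ^ 2) ^ 3 := by ring
          rw [h7, h2]; norm_num
        rw [if_pos (Or.inl h4), if_pos h4, if_neg h6, if_neg h2]; norm_num
    · have h2 : z ^ 2 ≠ 1 := by
        intro h2
        apply h4
        have h7 : z ^ 4 = (z ^ 2) ^ 2 := by ring
        rw [h7, h2]; norm_num
      by_cases h6 : z ^ 6 = 1
      · rw [if_pos (Or.inr h6), if_neg h4, if_pos h6, if_neg h2]; norm_num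
      · rw [if_neg (not_or.mpr ⟨h4, h6⟩), if_neg h4, if_neg h6, if_neg h2]; norm_num
  have hb0 : ∀ i, b i ≠ 0 := by
    intro i h
    rcases hb i with h1 | h1 <;> rw [h] at h1 <;> norm_num at h1
  have hsum : ∑ i, (if a i ^ 4 = 1 ∨ a i ^ 6 = 1 then (1 : ℝ) else 0) = 3 := by
    have h1 : ∑ i, (if b i ^ 4 = 1 ∨ b i ^ 6 = 1 then (1 : ℝ) else 0) = 3 := by
      rw [Finset.sum_congr rfl (fun i _ => if_pos (hb i))]
      simp
    rw [← h1, Finset.sum_congr rfl (fun i _ => hie (a i) (ha0 i)),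
      Finset.sum_congr rfl (fun i _ => hie (b i) (hb0 i)), Finset.sum_sub_distrib,
      Finset.sum_add_distrib, Finset.sum_sub_distrib, Finset.sum_add_distrib,
      hc 4 (by norm_num), hc 6 (by norm_num), hc 2 (by norm_num)]
  have ha : ∀ i, a i ^ 4 = 1 ∨ a i ^ 6 = 1 := by
    have h1 : ∑ i : Fin 3, (1 - (if a i ^ 4 = 1 ∨ a i ^ 6 = 1 then (1 : ℝ) else 0)) = 0 := by
      rw [Finset.sum_sub_distrib, hsum]
      simp
    have h2 : ∀ i ∈ (Finset.univ : Finset (Fin 3)),
        0 ≤ 1 - (if a i ^ 4 = 1 ∨ a i ^ 6 = 1 then (1 : ℝ) else 0) := by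
      intro i _
      split_ifs <;> norm_num
    have h3 := (Finset.sum_eq_zero_iff_of_nonneg h2).mp h1
    intro i
    by_contra h
    have h4 := h3 i (Finset.mem_univ i)
    rw [if_neg h] at h4
    norm_num at h4
  refine ⟨ha, ?_⟩
  rw [Finset.sum_congr rfl (fun i _ => re_formula (a i) (ha i)),
    Finset.sum_congr rfl (fun i _ => re_formula (b i) (hb i))]
  simp only [Finset.sum_add_distrib, Finset.sum_sub_distrib, ← Finset.mul_sum]
  rw [hc 1 (by norm_num), hc 2 (by norm_num), hc 3 (by norm_num), hc 6 (by norm_num)]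

section

variable {G : Type} [Group G] [Finite G]

/-- three numbers, completed by ones -/
lemma pad {θ : G → ℂ} (hθ : IsSolHeilbronn θ) {r : ℕ} (hr : r ≤ 3) (h1 : θ 1 = r) (g : G) :
    ∃ a : Fin 3 → ℂ, (∀ i, ‖a i‖ = 1) ∧ ∀ k : ℕ, θ (g ^ k) + (3 - r) = ∑ i, a i ^ k := by
  obtain ⟨a, ha, hk⟩ := eigsS hθ h1 g
  interval_cases r
  · refine ⟨![1, 1, 1], ?_, fun k => ?_⟩
    · intro i; fin_cases i <;> simp
    · rw [hk k]
      simp [Fin.sum_univ_three]
      norm_num
  · refine ⟨![a 0, 1, 1], ?_, fun k => ?_⟩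
    · intro i; fin_cases i <;> simp [ha]
    · rw [hk k]
      simp [Fin.sum_univ_three]
      ring
  · refine ⟨![a 0, a 1, 1], ?_, fun k => ?_⟩
    · intro i; fin_cases i <;> simp [ha]
    · rw [hk k]
      simp [Fin.sum_univ_three, Fin.sum_univ_two]
      ring
  · refine ⟨a, ha, fun k => ?_⟩
    rw [hk k]
    norm_num

lemma one_of_sum (w : Fin 3 → ℂ) (hw : ∀ i, ‖w i‖ = 1) (h : ∑ i, w i = 3) (i : Fin 3) :
    w i = 1 := by
  have hre : ∀ z : ℂ, ‖z‖ = 1 → z.re ≤ 1 ∧ (z.re = 1 → z = 1) := by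
    intro z hz
    refine ⟨by rw [← hz]; exact Complex.re_le_norm z, fun h1 => ?_⟩
    apply Complex.ext
    · simpa using h1
    · rw [Complex.one_im]
      have h2 := Complex.normSq_eq_norm_sq z
      rw [hz, Complex.normSq_apply, h1] at h2
      nlinarith
  have h1 := congrArg Complex.re h
  rw [Fin.sum_univ_three] at h1
  simp only [Complex.add_re] at h1
  have h2 : ((3 : ℂ)).re = 3 := by norm_num
  rw [h2] at h1
  have e0 := hre (w 0) (hw 0)
  have e1 := hre (w 1) (hw 1)
  have e2 := hre (w 2) (hw 2)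
  fin_cases i
  · exact e0.2 (by linarith [e1.1, e2.1])
  · exact e1.2 (by linarith [e0.1, e2.1])
  · exact e2.2 (by linarith [e0.1, e1.1])

open Classical in
/-- the sum over a cyclic group -/
lemma sum_zp (f : G → ℂ) (x : G) (w : Fin 3 → ℂ) (hw : ∀ i, ‖w i‖ = 1)
    (hf : ∀ k : ℕ, f (x ^ k) = ∑ i, w i ^ k) :
    ∑ᶠ h : Subgroup.zpowers x, f h
      = (∑ i, (if w i = 1 then (1 : ℂ) else 0)) * Nat.card (Subgroup.zpowers x) := by
  have : Fintype (Subgroup.zpowers x) := Fintype.ofFinite _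
  set m := orderOf x with hm
  have hpos : 0 < m := orderOf_pos x
  have hfin : IsOfFinOrder x := isOfFinOrder_of_finite x
  rw [finsum_eq_sum_of_fintype, Nat.card_zpowers, ← hm]
  rw [← (finEquivZPowers hfin).sum_comp]
  simp only [finEquivZPowers_apply]
  rw [Finset.sum_congr rfl (fun (k : Fin (orderOf x)) _ => hf (k : ℕ)), Finset.sum_comm,
    Finset.sum_mul]
  refine Finset.sum_congr rfl fun i _ => ?_
  rw [Fin.sum_univ_eq_sum_range (fun k => w i ^ k)]
  have hwm : ∀ i, w i ^ m = 1 := by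
    apply one_of_sum
    · intro i
      rw [norm_pow, hw, one_pow]
    · have h1 := hf m
      have h2 := hf 0
      rw [hm, pow_orderOf_eq_one] at h1
      rw [pow_zero] at h2
      rw [hm, ← h1, h2]
      simp
  split_ifs with h
  · rw [h]
    simp [hm]
  · rw [geom_sum_eq h, ← hm, hwm, sub_self, zero_div, zero_mul]

/-- the trace of a rational representation, as a complex number -/
noncomputable def qtr {V : Type} [AddCommGroup V] [Module ℚ V] (ρ : Representation ℚ G V)
    (g : G) : ℂ := ((LinearMap.trace ℚ V (ρ g) : ℚ) : ℂ)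

lemma qtr_rep {V : Type} [AddCommGroup V] [Module ℚ V] [FiniteDimensional ℚ V]
    (ρ : Representation ℚ G V) :
    ∃ σ : Representation ℂ G (Fin (Module.finrank ℚ V) → ℂ), σ.character = qtr ρ ∧
      ∀ g, σ g = 1 → ρ g = 1 := by
  classical
  let e := Module.finBasis ℚ V
  let M : G → Matrix (Fin (Module.finrank ℚ V)) (Fin (Module.finrank ℚ V)) ℂ := fun g =>
    (LinearMap.toMatrix e e (ρ g)).map (algebraMap ℚ ℂ)
  have hM : ∀ g h, M (g * h) = M g * M h := by
    intro g h
    change (LinearMap.toMatrix e e (ρ (g * h))).map (algebraMap ℚ ℂ) = _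
    rw [map_mul, LinearMap.toMatrix_mul, Matrix.map_mul]
  have hM1 : M 1 = 1 := by
    change (LinearMap.toMatrix e e (ρ 1)).map (algebraMap ℚ ℂ) = _
    rw [map_one, LinearMap.toMatrix_one, Matrix.map_one _ (map_zero _) (map_one _)]
  let σ : Representation ℂ G (Fin (Module.finrank ℚ V) → ℂ) :=
    { toFun := fun g => Matrix.toLin' (M g)
      map_one' := by rw [hM1, Matrix.toLin'_one]; rfl
      map_mul' := fun g h => by rw [hM, Matrix.toLin'_mul]; rfl }
  refine ⟨σ, ?_, fun g hg => ?_⟩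
  · funext g
    change LinearMap.trace ℂ _ (Matrix.toLin' (M g)) = _
    rw [Matrix.trace_toLin'_eq]
    unfold qtr
    rw [LinearMap.trace_eq_matrix_trace ℚ e (ρ g)]
    change ((LinearMap.toMatrix e e (ρ g)).map (algebraMap ℚ ℂ)).trace = _
    simp [Matrix.trace]
  · have h1 : M g = 1 := by
      apply Matrix.toLin'.injective
      change σ g = _
      rw [hg, Matrix.toLin'_one]
      rfl
    have h2 : LinearMap.toMatrix e e (ρ g) = 1 := by
      ext i j
      have h3 := congrFun (congrFun h1 i) j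
      change algebraMap ℚ ℂ (LinearMap.toMatrix e e (ρ g) i j) = _ at h3
      rw [Matrix.one_apply] at h3 ⊢
      apply (algebraMap ℚ ℂ).injective
      rw [h3]
      split_ifs <;> simp
    apply (LinearMap.toMatrix e e).injective
    rw [h2]
    exact (LinearMap.toMatrix_one e).symm

lemma qtr_heilbronn {V : Type} [AddCommGroup V] [Module ℚ V] [FiniteDimensional ℚ V]
    (ρ : Representation ℚ G V) : IsHeilbronn (qtr ρ) := by
  obtain ⟨σ, hσ, -⟩ := qtr_rep ρ
  rw [← hσ]
  exact Pool.Agent.Y788.rep_heilbronn σ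

lemma qtr_mult {V : Type} [AddCommGroup V] [Module ℚ V] [FiniteDimensional ℚ V]
    (ρ : Representation ℚ G V) {χ : G → ℂ} (hχ : χ ∈ Irr G) :
    ∃ m : ℕ, ∑ᶠ g : G, qtr ρ g * χ g⁻¹ = (m : ℂ) * Nat.card G := by
  classical
  have : Fintype G := Fintype.ofFinite G
  obtain ⟨τ, hτ, -⟩ := qtr_rep ρ
  obtain ⟨n', σ, hσ, rfl⟩ := hχ
  have hH : (Nat.card G : ℂ) ≠ 0 := by exact_mod_cast Nat.card_pos.ne'
  have : Invertible (Nat.card G : ℂ) := invertibleOfNonzero hH
  have h := Representation.card_inv_mul_sum_char_mul_char_eq_finrank σ τ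
  refine ⟨Module.finrank ℂ (Representation.IntertwiningMap σ τ), ?_⟩
  rw [← h, finsum_eq_sum_of_fintype, hτ]
  field_simp

lemma qtr_sum {V : Type} [AddCommGroup V] [Module ℚ V] [FiniteDimensional ℚ V]
    (ρ : Representation ℚ G V) (H : Subgroup G) :
    ∑ᶠ h : H, qtr ρ h = (rk ρ H : ℂ) * Nat.card H := by
  classical
  have : Fintype H := Fintype.ofFinite H
  have hH : (Nat.card H : ℚ) ≠ 0 := by exact_mod_cast Nat.card_pos.ne'
  have : Invertible (Nat.card H : ℚ) := invertibleOfNonzero hH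
  have h1 := Representation.card_inv_mul_sum_char_eq_finrank (ρ.comp H.subtype)
  have h2 : ∑ h : H, LinearMap.trace ℚ V (ρ h) = (rk ρ H : ℚ) * Nat.card H := by
    unfold rk
    rw [← h1]
    field_simp
    rfl
  rw [finsum_eq_sum_of_fintype]
  unfold qtr
  rw [← Rat.cast_sum, h2]
  push_cast
  rfl

/-- **The crystallographic restriction** -/
theorem eq_qtr {θ : G → ℂ} (hθ : IsSolHeilbronn θ) (hreal : ∀ g, θ g⁻¹ = θ g) {r : ℕ}
    (hr : r ≤ 3) (h1 : θ 1 = r) {V : Type} [AddCommGroup V] [Module ℚ V] [FiniteDimensional ℚ V]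
    (ρ : Representation ℚ G V)
    (hrk : ∀ x : G, ∑ᶠ h : Subgroup.zpowers x, θ h
      = (rk ρ (Subgroup.zpowers x) : ℂ) * Nat.card (Subgroup.zpowers x)) (g : G) :
    θ g = qtr ρ g := by
  classical
  have hH := qtr_heilbronn ρ
  have hS : IsSolHeilbronn (qtr ρ) := hH.toSol
  have hone : qtr ρ 1 = r := by
    have h2 := hrk 1
    have h3 := qtr_sum ρ (Subgroup.zpowers (1 : G))
    rw [← h3] at h2
    have : Fintype (Subgroup.zpowers (1 : G)) := Fintype.ofFinite _
    have h4 : ∀ x : Subgroup.zpowers (1 : G), (x : G) = 1 := by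
      intro x
      obtain ⟨k, hk⟩ := x.2
      rw [← hk]
      simp
    have h5 : (Fintype.card (Subgroup.zpowers (1 : G)) : ℂ) ≠ 0 := by
      exact_mod_cast Fintype.card_pos.ne'
    have h6 : ∀ f : G → ℂ, ∑ᶠ x : Subgroup.zpowers (1 : G), f x
        = (Fintype.card (Subgroup.zpowers (1 : G)) : ℂ) * f 1 := by
      intro f
      rw [finsum_eq_sum_of_fintype, Finset.sum_congr rfl (fun x _ => by rw [h4 x]),
        Finset.sum_const, Finset.card_univ, nsmul_eq_mul]
    rw [h6, h6] at h2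
    rw [← mul_left_cancel₀ h5 h2, h1]
  obtain ⟨a, ha, hak⟩ := pad hθ hr h1 g
  obtain ⟨b, hb, hbk⟩ := pad hS hr hone g
  have hbN : ∀ i, b i ^ (orderOf g) = 1 := by
    apply one_of_sum
    · intro i
      rw [norm_pow, hb, one_pow]
    · have h2 := hbk (orderOf g)
      have h3 := hbk 0
      rw [pow_orderOf_eq_one] at h2
      rw [pow_zero] at h3
      rw [← h2, h3]
      simp
  have hb46 := ord_of_rat b (fun k => ⟨LinearMap.trace ℚ V (ρ (g ^ k)) + (3 - r), by
    rw [← hbk k]
    unfold qtr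
    push_cast
    ring⟩) (orderOf_pos g) hbN
  have hcount : ∀ e : ℕ, 0 < e → ∑ i, (if a i ^ e = 1 then (1 : ℝ) else 0)
      = ∑ i, (if b i ^ e = 1 then (1 : ℝ) else 0) := by
    intro e _
    have e1 := sum_zp (fun y => θ y + (3 - r)) (g ^ e) (fun i => a i ^ e)
      (fun i => by rw [norm_pow, ha, one_pow]) (fun k => by
        rw [← pow_mul, hak]
        exact Finset.sum_congr rfl fun i _ => by rw [pow_mul])
    have e2 := sum_zp (fun y => qtr ρ y + (3 - r)) (g ^ e) (fun i => b i ^ e)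
      (fun i => by rw [norm_pow, hb, one_pow]) (fun k => by
        rw [← pow_mul, hbk]
        exact Finset.sum_congr rfl fun i _ => by rw [pow_mul])
    have : Fintype (Subgroup.zpowers (g ^ e)) := Fintype.ofFinite _
    have e3 := hrk (g ^ e)
    rw [← qtr_sum] at e3
    rw [finsum_eq_sum_of_fintype] at e1 e2 e3
    rw [finsum_eq_sum_of_fintype] at e3
    rw [Finset.sum_add_distrib] at e1 e2
    rw [e3] at e1
    have e4 := e1.symm.trans e2
    have h5 : (Nat.card (Subgroup.zpowers (g ^ e)) : ℂ) ≠ 0 := by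
      exact_mod_cast Nat.card_pos.ne'
    have e5 := mul_right_cancel₀ h5 e4
    have e6 : ((∑ i, (if a i ^ e = 1 then (1 : ℝ) else 0) : ℝ) : ℂ)
        = ((∑ i, (if b i ^ e = 1 then (1 : ℝ) else 0) : ℝ) : ℂ) := by
      have e7 : ∀ p : Prop, (((if p then (1 : ℝ) else 0) : ℝ) : ℂ) = if p then (1 : ℂ) else 0 := by
        intro p
        split_ifs <;> simp
      rw [Complex.ofReal_sum, Complex.ofReal_sum, Finset.sum_congr rfl (fun i _ => e7 _), e5]
      exact Finset.sum_congr rfl (fun i _ => (e7 _).symm)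
    exact_mod_cast e6
  have ha0 : ∀ i, a i ≠ 0 := by
    intro i
    rw [← norm_ne_zero_iff, ha]
    norm_num
  obtain ⟨-, hsum⟩ := core a b ha0 hb46 hcount
  have h2 := hak 1
  have h3 := hbk 1
  simp only [pow_one] at h2 h3
  have h4 : (θ g + (3 - r)).re = (qtr ρ g + (3 - r)).re := by
    rw [h2, h3, Complex.re_sum, Complex.re_sum, hsum]
  rw [Complex.add_re, Complex.add_re] at h4
  have h5 : (θ g).re = (qtr ρ g).re := by linarith
  have h6 : (θ g).im = 0 := by
    have h7 : conj (θ g) = θ g := by rw [← starS hθ g, hreal]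
    exact Complex.conj_eq_iff_im.mp h7
  have h7 : (qtr ρ g).im = 0 := by
    unfold qtr
    exact Complex.ratCast_im _
  exact Complex.ext h5 (by rw [h6, h7])

/-- further properties of rational representations of dimension at most three -/
lemma qtr_facts {V : Type} [AddCommGroup V] [Module ℚ V] [FiniteDimensional ℚ V]
    (ρ : Representation ℚ G V) {r : ℕ} (hr : r ≤ 3) (h1 : qtr ρ 1 = r) (g : G) :
    qtr ρ (g ^ 12) = qtr ρ 1 ∧ ∀ k : ℕ, k.Coprime (Nat.card G) → qtr ρ (g ^ k) = qtr ρ g := by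
  classical
  have hS : IsSolHeilbronn (qtr ρ) := (qtr_heilbronn ρ).toSol
  obtain ⟨b, hb, hbk⟩ := pad hS hr h1 g
  have hbN : ∀ i, b i ^ (orderOf g) = 1 := by
    apply one_of_sum
    · intro i
      rw [norm_pow, hb, one_pow]
    · have h2 := hbk (orderOf g)
      have h3 := hbk 0
      rw [pow_orderOf_eq_one] at h2
      rw [pow_zero] at h3
      rw [← h2, h3]
      simp
  have hb46 := ord_of_rat b (fun k => ⟨LinearMap.trace ℚ V (ρ (g ^ k)) + (3 - r), by
    rw [← hbk k]
    unfold qtr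
    push_cast
    ring⟩) (orderOf_pos g) hbN
  constructor
  · have h2 := hbk 12
    have h3 := hbk 0
    rw [pow_zero] at h3
    have h4 : ∀ i, b i ^ 12 = b i ^ 0 := by
      intro i
      rw [pow_zero]
      rcases hb46 i with h | h
      · have : b i ^ 12 = (b i ^ 4) ^ 3 := by ring
        rw [this, h, one_pow]
      · have : b i ^ 12 = (b i ^ 6) ^ 2 := by ring
        rw [this, h, one_pow]
    rw [Finset.sum_congr rfl (fun i _ => h4 i), ← h3] at h2
    exact add_right_cancel h2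
  · intro k hk
    have hk' : k.Coprime (orderOf g) := Nat.Coprime.coprime_dvd_right (orderOf_dvd_natCard g) hk
    have hcount : ∀ e : ℕ, 0 < e → ∑ i, (if (b i ^ k) ^ e = 1 then (1 : ℝ) else 0)
        = ∑ i, (if b i ^ e = 1 then (1 : ℝ) else 0) := by
      intro e _
      refine Finset.sum_congr rfl fun i _ => ?_
      have h2 : (b i ^ k) ^ e = 1 ↔ b i ^ e = 1 := by
        constructor
        · intro h
          have h3 : orderOf (b i ^ e) ∣ k := by
            apply orderOf_dvd_of_pow_eq_one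
            rw [← pow_mul, mul_comm, pow_mul, h]
          have h4 : orderOf (b i ^ e) ∣ orderOf g := by
            apply orderOf_dvd_of_pow_eq_one
            rw [← pow_mul, mul_comm, pow_mul, hbN, one_pow]
          have h5 := Nat.dvd_gcd h3 h4
          rw [hk'] at h5
          exact orderOf_eq_one_iff.mp (Nat.dvd_one.mp h5)
        · intro h
          rw [← pow_mul, mul_comm, pow_mul, h, one_pow]
      simp only [h2]
    obtain ⟨-, hsum⟩ := core (fun i => b i ^ k) b (fun i => by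
      rw [← norm_ne_zero_iff, norm_pow, hb, one_pow]; norm_num) hb46 hcount
    have h2 := hbk k
    have h3 := hbk 1
    simp only [pow_one] at h3
    have h4 : (qtr ρ (g ^ k) + (3 - r)).re = (qtr ρ g + (3 - r)).re := by
      rw [h2, h3, Complex.re_sum, Complex.re_sum]
      exact hsum
    rw [Complex.add_re, Complex.add_re] at h4
    have h5 : (qtr ρ (g ^ k)).re = (qtr ρ g).re := by linarith
    have h7 : ∀ x, (qtr ρ x).im = 0 := by
      intro x
      unfold qtr
      exact Complex.ratCast_im _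
    exact Complex.ext h5 (by rw [h7, h7])

/-- invariance under the power maps -/
lemma pow_pair [Fintype G] {θ χ χ' : G → ℂ} {k : ℕ} (hk : k.Coprime (Nat.card G))
    (hθ : ∀ g, θ (g ^ k) = θ g) (hχ : ∀ g, χ' g = χ (g ^ k)) :
    ∑ g : G, θ g * χ' g⁻¹ = ∑ g : G, θ g * χ g⁻¹ := by
  have hbij : Function.Bijective fun g : G => g ^ k := by
    rw [← Finite.injective_iff_bijective]
    exact (powCoprime (G := G) (n := k) hk.symm).injective
  calc ∑ g : G, θ g * χ' g⁻¹ = ∑ g : G, θ (g ^ k) * χ (g ^ k)⁻¹ := by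
        refine Finset.sum_congr rfl fun g _ => ?_
        rw [hθ, hχ, inv_pow]
    _ = ∑ g : G, θ g * χ g⁻¹ := hbij.sum_comp (fun g => θ g * χ g⁻¹)

end

end Pool.Agent.Q290.Schur
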