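import Mathlib
import Pool.Agent.Q290.Schur.RatA
import Pool.Agent.Q290.Schur.Crys

/-!
# Rational representations from idempotents; Galois orbits of characters
-/

set_option autoImplicit false
set_option linter.unusedSectionVars false

namespace Pool.Agent.Q290.Schur

open Pool.Agent.H302R2 Pool.Agent.H302R3 Pool.Agent.H541R3.ART Pool.Agent.W446.AS
  Pool.Agent.H302R5 Pool.Agent.Q7.TZ Pool.Agent.Q7.SZ Pool.Agent.Q7.GR

/-- `f` is the character of a rational representation -/
def IsRat {G : Type} [Group G] (f : G → ℂ) : Prop :=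
  ∃ (V : Type) (_ : AddCommGroup V) (_ : Module ℚ V) (_ : FiniteDimensional ℚ V)
    (ρ : Representation ℚ G V), ∀ g, qtr ρ g = f g

variable {G : Type} [Group G] [Finite G]

/-- the left regular representation on functions -/
def lreg (G : Type) [Group G] : Representation ℚ G (G → ℚ) where
  toFun g := LinearMap.funLeft ℚ ℚ (fun x => g⁻¹ * x)
  map_one' := by
    apply LinearMap.ext
    intro f
    funext x
    rw [LinearMap.funLeft_apply]
    simp
  map_mul' g h := by
    apply LinearMap.ext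
    intro f
    funext x
    change f ((g * h)⁻¹ * x) = f (h⁻¹ * (g⁻¹ * x))
    rw [mul_inv_rev, mul_assoc]

/-- convolution from the right -/
def rconv [Fintype G] (u : G → ℚ) : (G → ℚ) →ₗ[ℚ] (G → ℚ) where
  toFun f x := ∑ y, f y * u (y⁻¹ * x)
  map_add' f g := by
    funext x
    simp only [Pi.add_apply, add_mul, Finset.sum_add_distrib]
  map_smul' c f := by
    funext x
    simp only [Pi.smul_apply, smul_eq_mul, RingHom.id_apply, Finset.mul_sum, mul_assoc]

lemma rconv_lreg [Fintype G] (u : G → ℚ) (g : G) (f : G → ℚ) :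
    rconv u (lreg G g f) = lreg G g (rconv u f) := by
  funext x
  change ∑ y, f (g⁻¹ * y) * u (y⁻¹ * x) = ∑ y, f y * u (y⁻¹ * (g⁻¹ * x))
  rw [← Equiv.sum_comp (Equiv.mulLeft g) (fun y => f (g⁻¹ * y) * u (y⁻¹ * x))]
  refine Finset.sum_congr rfl fun y _ => ?_
  rw [Equiv.coe_mulLeft, inv_mul_cancel_left, mul_inv_rev, mul_assoc]

lemma rconv_idem [Fintype G] {u : G → ℚ} (hu : ∀ a, ∑ y, u y * u (y⁻¹ * a) = u a) (f : G → ℚ) :
    rconv u (rconv u f) = rconv u f := by
  funext x
  change ∑ y, (∑ z, f z * u (z⁻¹ * y)) * u (y⁻¹ * x) = ∑ z, f z * u (z⁻¹ * x)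
  simp only [Finset.sum_mul]
  rw [Finset.sum_comm]
  refine Finset.sum_congr rfl fun z _ => ?_
  rw [← hu (z⁻¹ * x), Finset.mul_sum,
    ← Equiv.sum_comp (Equiv.mulLeft z) (fun y => f z * u (z⁻¹ * y) * u (y⁻¹ * x))]
  refine Finset.sum_congr rfl fun y _ => ?_
  rw [Equiv.coe_mulLeft, inv_mul_cancel_left, mul_inv_rev, mul_assoc, mul_assoc]

/-- an idempotent of the rational group algebra gives a rational representation -/
theorem rat_of_idem [Fintype G] {u : G → ℚ} (hu : ∀ a, ∑ y, u y * u (y⁻¹ * a) = u a) :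
    IsRat (fun g : G => ((∑ z, u (z⁻¹ * g⁻¹ * z) : ℚ) : ℂ)) := by
  classical
  let R := rconv u
  let P := LinearMap.range R
  have hmem : ∀ (g : G) (f : G → ℚ), f ∈ P → lreg G g f ∈ P := by
    rintro g f ⟨f', rfl⟩
    exact ⟨lreg G g f', rconv_lreg u g f'⟩
  have hid : ∀ f ∈ P, R f = f := by
    rintro f ⟨f', rfl⟩
    exact rconv_idem hu f'
  let ρ : Representation ℚ G P :=
    { toFun := fun g => (lreg G g).restrict (hmem g)
      map_one' := by
        apply LinearMap.ext
        intro v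
        apply Subtype.ext
        change lreg G 1 v = v
        rw [map_one, Module.End.one_apply]
      map_mul' := fun g h => by
        apply LinearMap.ext
        intro v
        apply Subtype.ext
        change lreg G (g * h) v = lreg G g (lreg G h v)
        rw [map_mul, Module.End.mul_apply] }
  refine ⟨P, inferInstance, inferInstance, inferInstance, ρ, fun g => ?_⟩
  unfold qtr
  congr 1
  let φ : (G → ℚ) →ₗ[ℚ] (G → ℚ) := (lreg G g).comp R
  have hφ : ∀ f, φ f ∈ P := fun f => hmem g _ ⟨f, rfl⟩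
  have h1 := LinearMap.trace_restrict_eq_of_forall_mem P φ hφ
  have h2 : φ.restrict (fun x _ => hφ x) = ρ g := by
    apply LinearMap.ext
    intro v
    apply Subtype.ext
    change lreg G g (R v) = lreg G g v
    rw [hid v v.2]
  rw [h2] at h1
  rw [h1, LinearMap.trace_eq_matrix_trace ℚ (Pi.basisFun ℚ G), Matrix.trace]
  refine Finset.sum_congr rfl fun z _ => ?_
  rw [Matrix.diag_apply, LinearMap.toMatrix_apply, Pi.basisFun_apply, Pi.basisFun_repr]
  change ∑ y, (Pi.single z (1 : ℚ) : G → ℚ) y * u (y⁻¹ * (g⁻¹ * z)) = _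
  rw [Finset.sum_eq_single z]
  · rw [Pi.single_eq_same, one_mul, mul_assoc]
  · intro y _ hy
    rw [Pi.single_eq_of_ne hy, zero_mul]
  · intro h
    exact absurd (Finset.mem_univ z) h

/-- units lift -/
lemma lift_coprime {m N k : ℕ} (hN : 0 < N) (hm : m ∣ N) (hk : k.Coprime m) :
    ∃ k' : ℕ, k'.Coprime N ∧ k' ≡ k [MOD m] := by
  have : NeZero N := ⟨hN.ne'⟩
  have hm0 : 0 < m := Nat.pos_of_dvd_of_pos hm hN
  have : NeZero m := ⟨hm0.ne'⟩
  obtain ⟨v, hv⟩ := ZMod.unitsMap_surjective hm (ZMod.unitOfCoprime k hk)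
  refine ⟨(v : ZMod N).val, ZMod.val_coe_unit_coprime v, ?_⟩
  rw [← ZMod.natCast_eq_natCast_iff]
  have h1 := congrArg (Units.val) hv
  rw [ZMod.coe_unitOfCoprime] at h1
  rw [← h1, ZMod.unitsMap_val]
  exact (ZMod.natCast_val _)

lemma pow_inv_of {f : G → ℂ} (h : ∀ (g : G) (k : ℕ), k.Coprime (Nat.card G) → f (g ^ k) = f g)
    (g : G) (k : ℕ) (hk : k.Coprime (orderOf g)) : f (g ^ k) = f g := by
  obtain ⟨k', h1, h2⟩ := lift_coprime Nat.card_pos (orderOf_dvd_natCard g) hk
  rw [← h g k' h1]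
  congr 1
  exact (pow_eq_pow_iff_modEq.mpr h2).symm

/-- power invariant virtual characters are rational -/
theorem rat_val {f : G → ℂ} (hf : Virt f)
    (hpow : ∀ (g : G) (k : ℕ), k.Coprime (orderOf g) → f (g ^ k) = f g) (g : G) :
    ∃ q : ℚ, f g = q := by
  classical
  have key : ∀ (m : ℕ) (g : G), orderOf g = m → ∃ q : ℚ, f g = q := by
    intro m
    induction m using Nat.strong_induction_on with
    | _ m ih =>
      intro g hg
      have hpos : 0 < orderOf g := orderOf_pos g
      obtain ⟨l, hl⟩ := virt_int hf (Subgroup.zpowers g) 1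
      have h2 : ∑ᶠ h : Subgroup.zpowers g,
          f h * (((((1 : Subgroup.zpowers g →* ℂˣ) h)⁻¹ : ℂˣ)) : ℂ) =
          ∑ᶠ h : Subgroup.zpowers g, f h := finsum_congr fun h => by simp
      rw [h2, sum_zpow, Nat.card_zpowers,
        ← Finset.sum_filter_add_sum_filter_not _ (fun i => i.Coprime (orderOf g))] at hl
      have h3 : ∑ i ∈ (Finset.range (orderOf g)).filter (fun i => i.Coprime (orderOf g)),
          f (g ^ i) = (((Finset.range (orderOf g)).filter
            (fun i => i.Coprime (orderOf g))).card : ℂ) * f g := by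
        rw [Finset.sum_congr rfl (g := fun _ => f g), Finset.sum_const, nsmul_eq_mul]
        intro i hi
        exact hpow g i (Finset.mem_filter.mp hi).2
      have h4 : ∃ q : ℚ, ∑ i ∈ (Finset.range (orderOf g)).filter
          (fun i => ¬ i.Coprime (orderOf g)), f (g ^ i) = q := by
        have h5 : ∀ i ∈ (Finset.range (orderOf g)).filter (fun i => ¬ i.Coprime (orderOf g)),
            ∃ q : ℚ, f (g ^ i) = q := by
          intro i hi
          have hi' := (Finset.mem_filter.mp hi).2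
          refine ih (orderOf (g ^ i)) ?_ (g ^ i) rfl
          rw [orderOf_pow, ← hg]
          apply Nat.div_lt_self hpos
          rw [Nat.Coprime, Nat.gcd_comm] at hi'
          have h6 : 0 < Nat.gcd (orderOf g) i := Nat.gcd_pos_of_pos_left _ hpos
          omega
        choose! q hq using h5
        refine ⟨∑ i ∈ (Finset.range (orderOf g)).filter (fun i => ¬ i.Coprime (orderOf g)), q i, ?_⟩
        push_cast
        exact Finset.sum_congr rfl fun i hi => hq i hi
      obtain ⟨q, hq⟩ := h4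
      rw [h3, hq] at hl
      set c := ((Finset.range (orderOf g)).filter (fun i => i.Coprime (orderOf g))).card with hc
      have hc0 : c ≠ 0 := by
        rw [hc, Finset.card_ne_zero]
        rcases Nat.lt_or_ge 1 (orderOf g) with h | h
        · exact ⟨1, Finset.mem_filter.mpr ⟨Finset.mem_range.mpr h, Nat.coprime_one_left _⟩⟩
        · have h6 : orderOf g = 1 := by omega
          refine ⟨0, Finset.mem_filter.mpr ⟨Finset.mem_range.mpr hpos, ?_⟩⟩
          rw [h6]
          exact Nat.coprime_one_right 0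
      have hc1 : (c : ℂ) ≠ 0 := by exact_mod_cast hc0
      refine ⟨(l * orderOf g - q) / c, ?_⟩
      push_cast
      rw [eq_div_iff hc1]
      linear_combination hl
  exact key _ g rfl

section orbit

open Classical in
/-- the Galois orbit of a character -/
noncomputable def orb (χ : G → ℂ) : Finset (G → ℂ) :=
  (irrF G).filter (fun χ' => ∃ k : ℕ, k.Coprime (Nat.card G) ∧ χ' = fun g => χ (g ^ k))

/-- the sum over the Galois orbit -/
noncomputable def orbSum (χ : G → ℂ) (g : G) : ℂ := ∑ χ' ∈ orb χ, χ' g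

lemma mem_orb {χ χ' : G → ℂ} : χ' ∈ orb χ ↔
    χ' ∈ Irr G ∧ ∃ k : ℕ, k.Coprime (Nat.card G) ∧ χ' = fun g => χ (g ^ k) := by
  classical
  unfold orb
  rw [Finset.mem_filter, mem_irrF]

lemma self_mem_orb {χ : G → ℂ} (hχ : χ ∈ Irr G) : χ ∈ orb χ :=
  mem_orb.mpr ⟨hχ, 1, Nat.coprime_one_left _, by simp⟩

lemma pow_mem_orb {χ χ' : G → ℂ} (h : χ' ∈ orb χ) {k : ℕ} (hk : k.Coprime (Nat.card G)) :
    (fun g => χ' (g ^ k)) ∈ orb χ := by
  obtain ⟨h1, l, hl, rfl⟩ := mem_orb.mp h
  refine mem_orb.mpr ⟨pow_irr h1 hk, k * l, Nat.Coprime.mul_left hk hl, ?_⟩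
  funext g
  rw [pow_mul]

lemma orb_deg {χ χ' : G → ℂ} (h : χ' ∈ orb χ) : χ' 1 = χ 1 := by
  obtain ⟨-, k, -, rfl⟩ := mem_orb.mp h
  simp

lemma orbSum_virt (χ : G → ℂ) : Virt (orbSum χ) := by
  classical
  have h1 : orbSum χ = ∑ χ' ∈ orb χ, χ' := by
    funext g
    rw [Finset.sum_apply]
    rfl
  rw [h1]
  unfold Virt
  exact AddSubgroup.sum_mem _ fun χ' hχ' => AddSubgroup.subset_closure (mem_orb.mp hχ').1

lemma pow_bij {k : ℕ} (hk : k.Coprime (Nat.card G)) : Function.Bijective (fun g : G => g ^ k) := by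
  rw [← Finite.injective_iff_bijective]
  exact (powCoprime (G := G) (n := k) hk.symm).injective

lemma orbSum_pow (χ : G → ℂ) (g : G) (k : ℕ) (hk : k.Coprime (Nat.card G)) :
    orbSum χ (g ^ k) = orbSum χ g := by
  classical
  unfold orbSum
  have hinj : Set.InjOn (fun (χ' : G → ℂ) (g : G) => χ' (g ^ k)) (orb χ : Set (G → ℂ)) := by
    intro a _ b _ hab
    funext x
    obtain ⟨y, rfl⟩ := (pow_bij hk).2 x
    exact congrFun hab y
  have himg : (orb χ).image (fun (χ' : G → ℂ) (g : G) => χ' (g ^ k)) = orb χ := by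
    apply Finset.eq_of_subset_of_card_le
    · intro a ha
      obtain ⟨b, hb, rfl⟩ := Finset.mem_image.mp ha
      exact pow_mem_orb hb hk
    · rw [Finset.card_image_of_injOn hinj]
  conv_rhs => rw [← himg]
  rw [Finset.sum_image hinj]

lemma orbSum_conj (χ : G → ℂ) (g h : G) : orbSum χ (h * g * h⁻¹) = orbSum χ g :=
  (orbSum_virt χ).conj g h

lemma orbSum_rat (χ : G → ℂ) (g : G) : ∃ q : ℚ, orbSum χ g = q :=
  rat_val (orbSum_virt χ) (pow_inv_of fun g k hk => orbSum_pow χ g k hk) g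

lemma orbSum_conv [Fintype G] (χ : G → ℂ) (b : G) :
    χ 1 * ∑ y : G, orbSum χ y⁻¹ * orbSum χ (b * y) = (Nat.card G : ℂ) * orbSum χ b := by
  classical
  have h1 : ∑ y : G, orbSum χ y⁻¹ * orbSum χ (b * y) =
      ∑ α ∈ orb χ, ∑ β ∈ orb χ, ∑ y : G, α y⁻¹ * β (b * y) := by
    unfold orbSum
    simp only [Finset.sum_mul_sum]
    rw [Finset.sum_comm]
    refine Finset.sum_congr rfl fun α _ => ?_
    rw [Finset.sum_comm]
  rw [h1, Finset.mul_sum]
  unfold orbSum
  rw [Finset.mul_sum]
  refine Finset.sum_congr rfl fun α hα => ?_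
  rw [Finset.mul_sum, Finset.sum_eq_single α]
  · rw [← orb_deg hα, conv_irr (mem_orb.mp hα).1 (mem_orb.mp hα).1, if_pos rfl]
  · intro β hβ hne
    rw [← orb_deg hα, conv_irr (mem_orb.mp hα).1 (mem_orb.mp hβ).1, if_neg (Ne.symm hne)]
  · intro h
    exact absurd hα h

lemma orbSum_class [Fintype G] (χ : G → ℂ) (h g : G) :
    χ 1 * ∑ x : G, orbSum χ (h * (x⁻¹ * g * x)) =
      (Nat.card G : ℂ) * ∑ α ∈ orb χ, α h * α g := by
  classical
  unfold orbSum
  rw [Finset.sum_comm, Finset.mul_sum, Finset.mul_sum]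
  refine Finset.sum_congr rfl fun α hα => ?_
  rw [← orb_deg hα, class_irr (mem_orb.mp hα).1]

end orbit

end Pool.Agent.Q290.Schur
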