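import Mathlib
import Pool.Agent.Q290.Schur.RatB

/-!
# Galois orbits with a multiplicity one subgroup are rational
-/

set_option autoImplicit false
set_option linter.unusedSectionVars false

namespace Pool.Agent.Q290.Schur

open Pool.Agent.H302R2 Pool.Agent.H302R3 Pool.Agent.H541R3.ART Pool.Agent.W446.AS
  Pool.Agent.H302R5 Pool.Agent.Q7.TZ Pool.Agent.Q7.SZ Pool.Agent.Q7.GR

variable {G : Type} [Group G] [Finite G]

lemma orb_mult {χ α : G → ℂ} (hα : α ∈ orb χ) (H : Subgroup G) :
    ∑ᶠ h : H, α h = ∑ᶠ h : H, χ h := by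
  classical
  have : Fintype H := Fintype.ofFinite H
  obtain ⟨-, k, hk, rfl⟩ := mem_orb.mp hα
  rw [finsum_eq_sum_of_fintype, finsum_eq_sum_of_fintype]
  have hk' : k.Coprime (Nat.card H) := Nat.Coprime.coprime_dvd_right (Subgroup.card_subgroup_dvd_card H) hk
  rw [← (pow_bij hk').sum_comp (fun h : H => χ h)]
  rfl

/-- **Rationality.** -/
theorem rat_orbSum {χ : G → ℂ} (hχ : χ ∈ Irr G) (H : Subgroup G)
    (hH : ∑ᶠ h : H, χ h = Nat.card H) : IsRat (orbSum χ) := by
  classical
  have : Fintype G := Fintype.ofFinite G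
  have : Fintype H := Fintype.ofFinite H
  obtain ⟨d, hd, hd1⟩ := irr_deg_pos hχ
  choose t ht using fun g : G => orbSum_rat χ g
  have hd0 : (d : ℂ) ≠ 0 := by exact_mod_cast hd.ne'
  have hG0 : (Nat.card G : ℂ) ≠ 0 := card_ne
  have hH0 : (Nat.card H : ℂ) ≠ 0 := card_ne
  let c : ℚ := (d : ℚ) / ((Nat.card G : ℚ) * Nat.card H)
  let u : G → ℚ := fun a => c * ∑ h : H, t ((h : G) * a⁻¹)
  have hc : (c : ℂ) = (d : ℂ) / ((Nat.card G : ℂ) * Nat.card H) := by
    simp only [c]
    push_cast
    rfl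
  have hu' : ∀ a : G, ((u a : ℚ) : ℂ) = (c : ℂ) * ∑ h : H, orbSum χ ((h : G) * a⁻¹) := by
    intro a
    simp only [u]
    push_cast
    congr 1
    exact Finset.sum_congr rfl fun h _ => (ht _).symm
  have hu : ∀ a, ∑ y, u y * u (y⁻¹ * a) = u a := by
    intro a
    have h1 : ((∑ y, u y * u (y⁻¹ * a) : ℚ) : ℂ) = ((u a : ℚ) : ℂ) := by
      push_cast
      simp only [hu']
      have h2 : ∀ y : G, ((c : ℂ) * ∑ h : H, orbSum χ ((h : G) * y⁻¹)) *
          ((c : ℂ) * ∑ h : H, orbSum χ ((h : G) * (y⁻¹ * a)⁻¹)) =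
          (c : ℂ) * c * ∑ h : H, ∑ h' : H, orbSum χ ((h : G) * y⁻¹) *
            orbSum χ ((h' : G) * a⁻¹ * y) := by
        intro y
        rw [mul_mul_mul_comm, Finset.sum_mul_sum]
        congr 1
        refine Finset.sum_congr rfl fun h _ => Finset.sum_congr rfl fun h' _ => ?_
        rw [mul_inv_rev, inv_inv, mul_assoc (h' : G)]
      rw [Finset.sum_congr rfl (fun y _ => h2 y), ← Finset.mul_sum, Finset.sum_comm]
      have h3 : ∀ h : H, ∑ y : G, ∑ h' : H, orbSum χ ((h : G) * y⁻¹) *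
            orbSum χ ((h' : G) * a⁻¹ * y) =
          ((Nat.card G : ℂ) / d) * ∑ h' : H, orbSum χ ((h' : G) * a⁻¹) := by
        intro h
        rw [Finset.sum_comm]
        have h4 : ∀ h' : H, ∑ y : G, orbSum χ ((h : G) * y⁻¹) * orbSum χ ((h' : G) * a⁻¹ * y) =
            ((Nat.card G : ℂ) / d) * orbSum χ ((h : G) * h' * a⁻¹) := by
          intro h'
          rw [← Equiv.sum_comp (Equiv.mulLeft (h : G))]
          have h5 : ∀ y : G, orbSum χ ((h : G) * (Equiv.mulLeft (h : G) y)⁻¹) *
              orbSum χ ((h' : G) * a⁻¹ * Equiv.mulLeft (h : G) y) =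
              orbSum χ y⁻¹ * orbSum χ (((h' : G) * a⁻¹ * h) * y) := by
            intro y
            rw [Equiv.coe_mulLeft, mul_inv_rev, ← mul_assoc (h : G) y⁻¹, orbSum_conj]
            simp only [mul_assoc]
          rw [Finset.sum_congr rfl (fun y _ => h5 y)]
          have h6 := orbSum_conv χ ((h' : G) * a⁻¹ * h)
          rw [hd1] at h6
          have h7 : orbSum χ ((h' : G) * a⁻¹ * h) = orbSum χ ((h : G) * h' * a⁻¹) := by
            rw [← orbSum_conj χ ((h' : G) * a⁻¹ * h) (h : G)]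
            congr 1
            group
          rw [h7] at h6
          field_simp
          linear_combination h6
        rw [Finset.sum_congr rfl (fun h' _ => h4 h'), ← Finset.mul_sum]
        congr 1
        exact Equiv.sum_comp (Equiv.mulLeft h) (fun h' : H => orbSum χ ((h' : G) * a⁻¹))
      rw [Finset.sum_congr rfl (fun h _ => h3 h), Finset.sum_const, Finset.card_univ,
        nsmul_eq_mul, ← Nat.card_eq_fintype_card, hc]
      field_simp
    exact_mod_cast h1
  have hrat := rat_of_idem hu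
  have hfun : (fun g : G => ((∑ z, u (z⁻¹ * g⁻¹ * z) : ℚ) : ℂ)) = orbSum χ := by
    funext g
    push_cast
    simp only [hu']
    rw [← Finset.mul_sum, Finset.sum_comm]
    have h1 : ∀ h : H, ∑ z : G, orbSum χ ((h : G) * (z⁻¹ * g⁻¹ * z)⁻¹) =
        ((Nat.card G : ℂ) / d) * ∑ α ∈ orb χ, α h * α g := by
      intro h
      have h2 : ∀ z : G, orbSum χ ((h : G) * (z⁻¹ * g⁻¹ * z)⁻¹) =
          orbSum χ ((h : G) * (z⁻¹ * g * z)) := by
        intro z
        congr 2
        group
      rw [Finset.sum_congr rfl (fun z _ => h2 z)]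
      have h3 := orbSum_class χ (h : G) g
      rw [hd1] at h3
      field_simp
      linear_combination h3
    rw [Finset.sum_congr rfl (fun h _ => h1 h), ← Finset.mul_sum, Finset.sum_comm]
    have h4 : ∀ α ∈ orb χ, ∑ h : H, α h * α g = (Nat.card H : ℂ) * α g := by
      intro α hα
      rw [← Finset.sum_mul]
      congr 1
      have h5 := orb_mult hα H
      rw [hH, finsum_eq_sum_of_fintype] at h5
      exact h5
    rw [Finset.sum_congr rfl h4, ← Finset.mul_sum, hc]
    unfold orbSum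
    field_simp
  rw [hfun] at hrat
  exact hrat

end Pool.Agent.Q290.Schur
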