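import Mathlib
import Pool.Agent.Q290.Schur.RatC
import Pool.Agent.Q290.Schur.Det3

/-!
# Functions of degree at most three are rational characters
-/

set_option autoImplicit false
set_option linter.unusedSectionVars false

namespace Pool.Agent.Q290.Schur

open Pool.Agent.H302R2 Pool.Agent.H302R3 Pool.Agent.H541R3.ART Pool.Agent.W446.AS
  Pool.Agent.H302R5 Pool.Agent.Q7.TZ Pool.Agent.Q7.SZ Pool.Agent.Q7.GR ComplexConjugate

variable {G : Type} [Group G] [Finite G]

lemma isRat_zero : IsRat (fun _ : G => (0 : ℂ)) := by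
  refine ⟨Fin 0 → ℚ, inferInstance, inferInstance, inferInstance, 1, fun g => ?_⟩
  unfold qtr
  have h1 : LinearMap.trace ℚ (Fin 0 → ℚ) ((1 : Representation ℚ G (Fin 0 → ℚ)) g) = 0 := by
    have : (1 : Representation ℚ G (Fin 0 → ℚ)) g = 0 := by
      apply LinearMap.ext
      intro v
      exact Subsingleton.elim _ _
    rw [this, map_zero]
  rw [h1]
  simp

lemma isRat_add {a b : G → ℂ} (ha : IsRat a) (hb : IsRat b) : IsRat (fun g => a g + b g) := by
  obtain ⟨V, _, _, _, ρ, hρ⟩ := ha
  obtain ⟨W, _, _, _, σ, hσ⟩ := hb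
  let τ : Representation ℚ G (V × W) :=
    { toFun := fun g => (ρ g).prodMap (σ g)
      map_one' := by
        rw [map_one, map_one]
        rfl
      map_mul' := fun g h => by
        rw [map_mul, map_mul]
        rfl }
  refine ⟨V × W, inferInstance, inferInstance, inferInstance, τ, fun g => ?_⟩
  change qtr τ g = a g + b g
  rw [← hρ g, ← hσ g]
  unfold qtr
  have h1 : LinearMap.trace ℚ (V × W) (τ g) =
      LinearMap.trace ℚ V (ρ g) + LinearMap.trace ℚ W (σ g) := LinearMap.trace_prodMap' _ _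
  rw [h1]
  push_cast
  rfl

/-- membership in an orbit is invariant under power maps -/
lemma orb_iff {χ α : G → ℂ} (_hα : α ∈ Irr G) {k : ℕ} (hk : k.Coprime (Nat.card G)) :
    (fun g => α (g ^ k)) ∈ orb χ ↔ α ∈ orb χ := by
  constructor
  · intro h
    have hN : 0 < Nat.card G := Nat.card_pos
    have : NeZero (Nat.card G) := ⟨hN.ne'⟩
    let v := (ZMod.unitOfCoprime k hk)⁻¹
    have hv : (v : ZMod (Nat.card G)).val.Coprime (Nat.card G) := ZMod.val_coe_unit_coprime v
    have h1 := pow_mem_orb h hv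
    have h2 : (fun g : G => (fun g => α (g ^ k)) (g ^ (v : ZMod (Nat.card G)).val)) = α := by
      funext g
      simp only
      rw [← pow_mul]
      congr 1
      have h3 : (v : ZMod (Nat.card G)).val * k ≡ 1 [MOD Nat.card G] := by
        rw [← ZMod.natCast_eq_natCast_iff]
        push_cast
        rw [ZMod.natCast_val, ZMod.cast_id', id]
        have h4 := Units.inv_mul (ZMod.unitOfCoprime k hk)
        rw [ZMod.coe_unitOfCoprime] at h4
        exact h4
      have h5 : (v : ZMod (Nat.card G)).val * k ≡ 1 [MOD orderOf g] :=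
        h3.of_dvd (orderOf_dvd_natCard g)
      have h6 := pow_eq_pow_iff_modEq.mpr h5
      rw [h6, pow_one]
    rw [h2] at h1
    exact h1
  · intro h
    exact pow_mem_orb h hk

/-- power invariant nonnegative combinations of rational orbits are rational -/
theorem rat_theta : ∀ (m : ℕ) (n : (G → ℂ) → ℤ), (∑ χ ∈ irrF G, n χ = m) →
    (∀ χ ∈ Irr G, 0 ≤ n χ) →
    (∀ χ ∈ Irr G, ∀ k : ℕ, k.Coprime (Nat.card G) → n (fun g => χ (g ^ k)) = n χ) →
    (∀ χ ∈ Irr G, n χ ≠ 0 → IsRat (orbSum χ)) → IsRat (theta n : G → ℂ) := by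
  classical
  intro m
  induction m using Nat.strong_induction_on with
  | _ m ih =>
    intro n hm h0 hinv hrat
    by_cases hall : ∀ χ ∈ Irr G, n χ = 0
    · have h1 : (theta n : G → ℂ) = fun _ => 0 := by
        funext g
        unfold theta
        refine Finset.sum_eq_zero fun χ hχ => ?_
        rw [hall χ (mem_irrF.mp hχ)]
        simp
      rw [h1]
      exact isRat_zero
    push Not at hall
    obtain ⟨χ, hχ, hne⟩ := hall
    have hpos : 1 ≤ n χ := by
      have := h0 χ hχ
      omega
    let n' : (G → ℂ) → ℤ := fun α => n α - if α ∈ orb χ then 1 else 0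
    have horb : ∀ α ∈ orb χ, n α = n χ := by
      intro α hα
      obtain ⟨-, k, hk, rfl⟩ := mem_orb.mp hα
      exact hinv χ hχ k hk
    have hsum : ∑ α ∈ irrF G, n' α = m - (orb χ).card := by
      simp only [n']
      rw [Finset.sum_sub_distrib, hm]
      congr 1
      rw [Finset.sum_boole]
      have : (irrF G).filter (fun α => α ∈ orb χ) = orb χ := by
        ext α
        rw [Finset.mem_filter, mem_irrF]
        exact ⟨fun h => h.2, fun h => ⟨(mem_orb.mp h).1, h⟩⟩
      rw [this]
    have h0' : ∀ α ∈ Irr G, 0 ≤ n' α := by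
      intro α hα
      simp only [n']
      split_ifs with h
      · rw [horb α h]
        omega
      · have := h0 α hα
        omega
    have hnn : 0 ≤ ∑ α ∈ irrF G, n' α := Finset.sum_nonneg fun α hα => h0' α (mem_irrF.mp hα)
    have hcard : 0 < (orb χ).card := Finset.card_pos.mpr ⟨χ, self_mem_orb hχ⟩
    have hlt : m - (orb χ).card < m := by
      have : ((orb χ).card : ℤ) ≤ m := by omega
      omega
    have h1 := ih (m - (orb χ).card) hlt n' (by rw [hsum]; omega) h0' (by
      intro α hα k hk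
      simp only [n']
      rw [hinv α hα k hk]
      congr 1
      by_cases h : α ∈ orb χ
      · rw [if_pos h, if_pos ((orb_iff hα hk).mpr h)]
      · rw [if_neg h, if_neg (fun h' => h ((orb_iff hα hk).mp h'))]) (by
      intro α hα hne'
      apply hrat α hα
      intro h
      apply hne'
      simp only [n']
      split_ifs with h2
      · rw [horb α h2] at h
        exact absurd h hne
      · rw [h]
        rfl)
    have h2 := isRat_add h1 (hrat χ hχ hne)
    have h3 : (fun g => (theta n' : G → ℂ) g + orbSum χ g) = theta n := by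
      funext g
      unfold theta orbSum
      have h4 : ∑ α ∈ orb χ, α g = ∑ α ∈ irrF G, (if α ∈ orb χ then (1 : ℂ) else 0) * α g := by
        have h5 : ∀ α ∈ irrF G, (if α ∈ orb χ then (1 : ℂ) else 0) * α g =
            if α ∈ orb χ then α g else 0 := by
          intro α _
          split_ifs <;> simp
        rw [Finset.sum_congr rfl h5, ← Finset.sum_filter]
        refine Finset.sum_congr ?_ fun _ _ => rfl
        ext α
        rw [Finset.mem_filter, mem_irrF]
        exact ⟨fun h => ⟨(mem_orb.mp h).1, h⟩, fun h => h.2⟩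
      rw [h4, ← Finset.sum_add_distrib]
      refine Finset.sum_congr rfl fun α _ => ?_
      simp only [n']
      split_ifs <;> push_cast <;> ring
    rw [h3] at h2
    exact h2

/-- degree two, real, not symplectic: a subgroup with multiplicity one -/
lemma sub_two {χ : G → ℂ} (hχ : χ ∈ Irr G) (h2 : χ 1 = 2) (hr : ∀ g, χ g⁻¹ = χ g)
    (hs : ¬ Sy χ) : ∃ H : Subgroup G, ∑ᶠ h : H, χ h = Nat.card H := by
  classical
  let n : (G → ℂ) → ℤ := fun φ => if φ = χ then 1 else 0
  have hθ : (theta n : G → ℂ) = χ := by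
    funext g
    unfold theta
    rw [Finset.sum_eq_single χ]
    · simp [n]
    · intro φ _ hne
      simp [n, hne]
    · intro h
      exact absurd (mem_irrF.mpr hχ) h
  obtain ⟨D, hDd, hD, -, hsp⟩ := central_nonneg n (by rw [hθ]; exact (irr_heil hχ).toSol)
    (by rw [hθ, h2]) (fun g => by rw [hθ]; exact hr g) (by
      intro φ _ hφs
      simp only [n]
      split_ifs with h
      · rw [h] at hφs
        exact absurd hφs hs
      · exact Even.zero)
  have hex : ∃ s : G, D s ≠ 1 := by
    by_contra hcon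
    push Not at hcon
    have := hsp hcon χ hχ (by rw [h2]; norm_num)
    simp [n] at this
  obtain ⟨s, hs1⟩ := hex
  have hs0 : ((D s : ℂˣ) : ℂ) = -1 ∧ χ s = 0 := by
    rcases hD s with h | h
    · exact absurd h hs1
    · rw [hθ] at h
      exact h
  obtain ⟨a, b, ha, hb, hp, hab, hk⟩ := (irr_heil hχ).toSol.two_eig h2 s
  rw [hs0.2] at hab
  have hp' : a * b = -1 := by
    rw [← hp, ← hs0.1, hDd s, hθ]
  have hba : b = -a := by linear_combination -hab
  have ha2 : a * a = 1 := by
    rw [hba] at hp'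
    linear_combination -hp'
  -- the sum over the cyclic group
  have hw : ∀ k : ℕ, χ (s ^ k) + 1 = ∑ i, (![a, b, 1] : Fin 3 → ℂ) i ^ k := by
    intro k
    rw [Fin.sum_univ_three]
    have := hk k
    simp only [zpow_natCast] at this
    rw [this]
    simp
  have hsum := sum_zp (fun g => χ g + 1) s ![a, b, 1] (by
    intro i
    fin_cases i <;> simp [ha, hb]) hw
  refine ⟨Subgroup.zpowers s, ?_⟩
  have : Fintype (Subgroup.zpowers s) := Fintype.ofFinite _
  rw [finsum_eq_sum_of_fintype, Fin.sum_univ_three] at hsum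
  rw [finsum_eq_sum_of_fintype]
  rw [Finset.sum_add_distrib, Finset.sum_const, Finset.card_univ, nsmul_eq_mul, mul_one,
    ← Nat.card_eq_fintype_card] at hsum
  have hcount : ((if (![a, b, 1] : Fin 3 → ℂ) 0 = 1 then (1 : ℂ) else 0) +
      if (![a, b, 1] : Fin 3 → ℂ) 1 = 1 then (1 : ℂ) else 0) +
      (if (![a, b, 1] : Fin 3 → ℂ) 2 = 1 then (1 : ℂ) else 0) = 2 := by
    have e0 : (![a, b, 1] : Fin 3 → ℂ) 0 = a := rfl
    have e1 : (![a, b, 1] : Fin 3 → ℂ) 1 = -a := by rw [← hba]; rfl
    have e2 : (![a, b, 1] : Fin 3 → ℂ) 2 = 1 := rfl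
    rw [e0, e1, e2, if_pos rfl]
    rcases mul_self_eq_one_iff.mp ha2 with h | h
    · rw [h, if_pos rfl, if_neg (by norm_num)]
      norm_num
    · rw [h, if_neg (by norm_num), if_pos (by norm_num)]
      norm_num
  rw [hcount] at hsum
  linear_combination hsum

/-- degree three, real: a subgroup with multiplicity one -/
lemma sub_three {χ : G → ℂ} (hχ : χ ∈ Irr G) (h3 : χ 1 = 3) (hr : ∀ g, χ g⁻¹ = χ g) :
    ∃ H : Subgroup G, ∑ᶠ h : H, χ h = Nat.card H := by
  classical
  have : Fintype G := Fintype.ofFinite G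
  have hS : IsSolHeilbronn χ := (irr_heil hχ).toSol
  obtain ⟨ε, hε⟩ := exists_tt hS (virt_irr hχ) h3
  have hεε : ε * ε = 1 := by
    ext g
    rw [MonoidHom.mul_apply, Units.val_mul, hε, tt_sq hS h3 hr]
    rfl
  have hreal : ∀ g, conj (χ g) = χ g := fun g => real_conj hS hr g
  -- an element of determinant one outside the kernel
  have hex : ∃ g : G, ε g = 1 ∧ χ g ≠ 3 := by
    by_contra hcon
    push Not at hcon
    have h4 := pair_self hχ
    have h5 : ∀ g : G, χ g * χ g⁻¹ = (((χ g).re ^ 2 : ℝ) : ℂ) := by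
      intro g
      rw [hr g]
      have h6 := Complex.conj_eq_iff_re.mp (hreal g)
      rw [← h6]
      push_cast
      simp only [Complex.ofReal_re]
      ring
    rw [Finset.sum_congr rfl (fun g _ => h5 g), ← Complex.ofReal_sum] at h4
    have h6 : ∑ g : G, (χ g).re ^ 2 = (Nat.card G : ℝ) := by exact_mod_cast h4
    have h7 : ∑ g ∈ Finset.univ.filter (fun g => g ∈ ε.ker), (χ g).re ^ 2 ≤
        ∑ g : G, (χ g).re ^ 2 :=
      Finset.sum_le_sum_of_subset_of_nonneg (Finset.filter_subset _ _) fun g _ _ => sq_nonneg _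
    have h8 : ∑ g ∈ Finset.univ.filter (fun g => g ∈ ε.ker), (χ g).re ^ 2 =
        (Nat.card ε.ker : ℝ) * 9 := by
      rw [Finset.sum_congr rfl (g := fun _ => (9 : ℝ)), Finset.sum_const, nsmul_eq_mul]
      · congr 1
        rw [← Fintype.card_subtype, ← Nat.card_eq_fintype_card]
      · intro g hg
        rw [hcon g (MonoidHom.mem_ker.mp (Finset.mem_filter.mp hg).2)]
        norm_num
    have h9 := index_ker_le ε hεε
    have h10 : Nat.card G ≤ Nat.card ε.ker * 2 := by
      rw [← ε.ker.card_mul_index]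
      exact Nat.mul_le_mul_left _ h9
    have h11 : (Nat.card G : ℝ) ≤ (Nat.card ε.ker : ℝ) * 2 := by exact_mod_cast h10
    have h12 : (0 : ℝ) < Nat.card ε.ker := by exact_mod_cast Nat.card_pos
    rw [h8, h6] at h7
    linarith
  obtain ⟨g, hg1, hg3⟩ := hex
  obtain ⟨a, b, c, ha, hb, hc, hk, ht⟩ := three_eig hS h3 g
  rw [← hε g, hg1, Units.val_one] at ht
  have hk1 := hk 1
  simp only [pow_one] at hk1
  have hconj : ∀ z : ℂ, ‖z‖ = 1 → z * conj z = 1 := by
    intro z hz
    rw [Complex.mul_conj, Complex.normSq_eq_norm_sq, hz]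
    norm_num
  have hroot : (1 - a) * (1 - b) * (1 - c) = 0 := by
    have e1 : conj a + conj b + conj c = a + b + c := by
      rw [← map_add, ← map_add, ← hk1, hreal]
    have e2 : a * b + b * c + c * a = a + b + c := by
      rw [← e1]
      linear_combination (-(a * b) * hconj c hc - (b * c) * hconj a ha -
        (c * a) * hconj b hb) - (conj a + conj b + conj c) * ht
    linear_combination e2 + ht
  have hone : ∀ x y z : ℂ, x * y * z = 1 → x + y + z ≠ 3 → x = 1 →
      (if x = 1 then (1 : ℂ) else 0) + (if y = 1 then (1 : ℂ) else 0) +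
        (if z = 1 then (1 : ℂ) else 0) = 1 := by
    intro x y z h1 h2 hx
    have hy : y ≠ 1 := by
      intro hy
      rw [hx, hy, one_mul, one_mul] at h1
      exact h2 (by rw [hx, hy, h1]; norm_num)
    have hz : z ≠ 1 := by
      intro hz
      rw [hx, hz, one_mul, mul_one] at h1
      exact h2 (by rw [hx, hz, h1]; norm_num)
    rw [if_pos hx, if_neg hy, if_neg hz]
    norm_num
  have hne : a + b + c ≠ 3 := by rw [← hk1]; exact hg3
  have hcount : (if a = 1 then (1 : ℂ) else 0) + (if b = 1 then (1 : ℂ) else 0) +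
        (if c = 1 then (1 : ℂ) else 0) = 1 := by
    rcases mul_eq_zero.mp hroot with h | h
    · rcases mul_eq_zero.mp h with h | h
      · exact hone a b c ht.symm hne (by linear_combination -h)
      · have := hone b a c (by rw [mul_comm b a]; exact ht.symm) (by rw [add_comm b a]; exact hne)
          (by linear_combination -h)
        linear_combination this
    · have := hone c a b (by linear_combination -ht) (fun h' => hne (by linear_combination h'))
        (by linear_combination -h)
      linear_combination this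
  have hsum := sum_zp χ g ![a, b, c] (by
    intro i
    fin_cases i <;> simp [ha, hb, hc]) (by
    intro k
    rw [Fin.sum_univ_three, hk k]
    simp)
  refine ⟨Subgroup.zpowers g, ?_⟩
  rw [hsum, Fin.sum_univ_three]
  have hcount' : (if (![a, b, c] : Fin 3 → ℂ) 0 = 1 then (1 : ℂ) else 0) +
      (if (![a, b, c] : Fin 3 → ℂ) 1 = 1 then (1 : ℂ) else 0) +
      (if (![a, b, c] : Fin 3 → ℂ) 2 = 1 then (1 : ℂ) else 0) = 1 := hcount
  rw [hcount', one_mul]

/-- degree one -/
lemma sub_one {χ : G → ℂ} (h1 : χ 1 = 1) : ∃ H : Subgroup G, ∑ᶠ h : H, χ h = Nat.card H := by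
  classical
  refine ⟨⊥, ?_⟩
  have : Fintype (⊥ : Subgroup G) := Fintype.ofFinite _
  rw [finsum_eq_sum_of_fintype, Fintype.sum_eq_single (1 : (⊥ : Subgroup G))]
  · simp [h1]
  · intro x hx
    exact absurd (Subtype.ext (Subgroup.mem_bot.mp x.2)) hx

/-- **Degree at most three.** -/
theorem rat_of_small {n : (G → ℂ) → ℤ} (h0 : ∀ χ ∈ Irr G, 0 ≤ n χ) {r : ℕ} (hr3 : r ≤ 3)
    (h1 : (theta n : G → ℂ) 1 = r)
    (hpow : ∀ (g : G) (k : ℕ), k.Coprime (orderOf g) → (theta n : G → ℂ) (g ^ k) = theta n g)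
    (hinv : ∀ χ ∈ Irr G, n (fun g => χ g⁻¹) = n χ)
    (hev : ∀ χ ∈ Irr G, Sy χ → Even (n χ)) : IsRat (theta n : G → ℂ) := by
  classical
  have : Fintype G := Fintype.ofFinite G
  have hpow' : ∀ k : ℕ, k.Coprime (Nat.card G) → ∀ g : G, (theta n : G → ℂ) (g ^ k) = theta n g := by
    intro k hk g
    exact hpow g k (Nat.Coprime.coprime_dvd_right (orderOf_dvd_natCard g) hk)
  have hninv : ∀ χ ∈ Irr G, ∀ k : ℕ, k.Coprime (Nat.card G) → n (fun g => χ (g ^ k)) = n χ := by
    intro χ hχ k hk
    have e1 := pow_pair (θ := (theta n : G → ℂ)) (χ := χ) (χ' := fun g => χ (g ^ k)) hk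
      (hpow' k hk) (fun g => rfl)
    rw [theta_pair n (pow_irr hχ hk), theta_pair n hχ] at e1
    have h2 : (Nat.card G : ℂ) ≠ 0 := card_ne
    exact_mod_cast mul_right_cancel₀ h2 e1
  choose! e he using fun χ (hχ : χ ∈ Irr G) => irr_deg_pos hχ
  have hsum : ∑ χ ∈ irrF G, n χ * e χ = r := by
    have h2 : ∑ χ ∈ irrF G, (n χ : ℂ) * e χ = r := by
      rw [← h1, theta]
      refine Finset.sum_congr rfl fun χ hχ => ?_
      rw [(he χ (mem_irrF.mp hχ)).2]
    exact_mod_cast h2
  have hsub : ∀ S : Finset (G → ℂ), S ⊆ irrF G → ∑ χ ∈ S, n χ * e χ ≤ 3 := by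
    intro S hS
    have h2 : ∑ χ ∈ S, n χ * e χ ≤ r := by
      rw [← hsum]
      exact Finset.sum_le_sum_of_subset_of_nonneg hS (fun χ hχ _ =>
        mul_nonneg (h0 χ (mem_irrF.mp hχ)) (Int.natCast_nonneg _))
    have h3 : (r : ℤ) ≤ 3 := by exact_mod_cast hr3
    omega
  have hnn : 0 ≤ ∑ χ ∈ irrF G, n χ := Finset.sum_nonneg fun χ hχ => h0 χ (mem_irrF.mp hχ)
  refine rat_theta (∑ χ ∈ irrF G, n χ).toNat n (by rw [Int.toNat_of_nonneg hnn]) h0 hninv ?_
  intro χ hχ hne
  have hpos : 1 ≤ n χ := by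
    have := h0 χ hχ
    omega
  have hd := he χ hχ
  have hd1 : (1 : ℤ) ≤ e χ := by
    have := hd.1
    omega
  have hle : n χ * e χ ≤ 3 := by
    have := hsub {χ} (by
      rw [Finset.singleton_subset_iff]
      exact mem_irrF.mpr hχ)
    rwa [Finset.sum_singleton] at this
  have hle' : (e χ : ℤ) ≤ 3 := by nlinarith
  -- real if the degree is at least two
  have hreal : 2 ≤ e χ → ∀ g, χ g⁻¹ = χ g := by
    intro h2
    by_contra hcon
    have hne' : (fun g => χ g⁻¹) ≠ χ := fun h => hcon (fun g => congrFun h g)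
    have hI : (fun g => χ g⁻¹) ∈ Irr G := Pool.Agent.Q7.DB.irr_inv hχ
    have h3 := hsub {χ, fun g => χ g⁻¹} (by
      intro φ hφ
      rcases Finset.mem_insert.mp hφ with h | h
      · rw [h]; exact mem_irrF.mpr hχ
      · rw [Finset.mem_singleton.mp h]; exact mem_irrF.mpr hI)
    rw [Finset.sum_pair (Ne.symm hne'), hinv χ hχ] at h3
    have h4 : e (fun g => χ g⁻¹) = e χ := by
      have h5 := (he _ hI).2
      have h6 := hd.2
      simp only [inv_one] at h5
      rw [h6] at h5
      exact_mod_cast h5.symm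
    rw [h4] at h3
    have h5 : (2 : ℤ) ≤ e χ := by exact_mod_cast h2
    nlinarith
  have hnS : 2 ≤ e χ → ¬ Sy χ := by
    intro h2 hs
    obtain ⟨k, hk⟩ := hev χ hχ hs
    have h5 : (2 : ℤ) ≤ e χ := by exact_mod_cast h2
    have h6 : 2 ≤ n χ := by omega
    nlinarith
  have hH : ∃ H : Subgroup G, ∑ᶠ h : H, χ h = Nat.card H := by
    have hcases : e χ = 1 ∨ e χ = 2 ∨ e χ = 3 := by omega
    rcases hcases with h | h | h
    · exact sub_one (by rw [hd.2, h]; simp)
    · exact sub_two hχ (by rw [hd.2, h]; simp) (hreal (by omega)) (hnS (by omega))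
    · exact sub_three hχ (by rw [hd.2, h]; simp) (hreal (by omega))
  obtain ⟨H, hH⟩ := hH
  exact rat_orbSum hχ H hH

end Pool.Agent.Q290.Schur
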